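import Pool.Agent.AEL.KR

namespace Pool.Agent.AEL

open MeasureTheory Set Pool.Agent.MP_6cbfb8_an Pool.Agent.MST
open scoped ENNReal Real

theorem hr4_VV {n : ℕ} : Continuous fun q : (E n × E n × E n) × (Fin 4 → ℝ) =>
    VV q.1.1 q.1.2.1 q.1.2.2 q.2 := by
  unfold VV
  simp only [PiLp.sub_apply]
  fun_prop

/-- the inner integral -/
noncomputable def hr4_F {n : ℕ} (R : ℝ) (q : E n × E n × E n) : ℝ≥0∞ :=
  ∫⁻ t in Box R, ENNReal.ofReal (Real.exp (-(π * VV q.1 q.2.1 q.2.2 t)))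

theorem hr4_F_meas {n : ℕ} (R : ℝ) : Measurable (hr4_F (n := n) R) := by
  unfold hr4_F
  have h : Measurable fun p : (E n × E n × E n) × (Fin 4 → ℝ) =>
      ENNReal.ofReal (Real.exp (-(π * VV p.1.1 p.1.2.1 p.1.2.2 p.2))) := by
    have h1 := (hr4_VV (n := n)).measurable
    exact ENNReal.measurable_ofReal.comp (Real.measurable_exp.comp ((h1.const_mul π).neg))
  exact h.lintegral_prod_right'

/-- the kernel is bounded by the inner integral -/
theorem hr4_kernel {n : ℕ} (R0 R : ℝ) (hR : 0 ≤ R) (q : E n × E n × E n) :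
    ‖∫ l, am R0 R (2 * R) l q.1 * am R0 R (2 * R) l (q.1 - q.2.1 - q.2.2) *
      (starRingEnd ℂ) (am R0 R (2 * R) l (q.1 - q.2.1)) *
      (starRingEnd ℂ) (am R0 R (2 * R) l (q.1 - q.2.2)) ∂(mu n)‖ₑ ≤
    if ‖q.1‖ ≤ R0 ∧ ‖q.1 - q.2.1 - q.2.2‖ ≤ R0 ∧ ‖q.1 - q.2.1‖ ≤ R0 ∧ ‖q.1 - q.2.2‖ ≤ R0 then
      hr4_F R q else 0 := by
  rw [kernel R0 R hR]
  split_ifs with h
  · have e : ‖((∫ t in Box R, Real.exp (-(π * VV q.1 q.2.1 q.2.2 t)) : ℝ) : ℂ)‖ₑ =
        ‖(∫ t in Box R, Real.exp (-(π * VV q.1 q.2.1 q.2.2 t)) : ℝ)‖ₑ := by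
      rw [← ofReal_norm, ← ofReal_norm, Complex.norm_real]
    rw [e]
    refine (enorm_integral_le_lintegral_enorm _).trans (le_of_eq ?_)
    unfold hr4_F
    refine lintegral_congr fun t => ?_
    rw [Real.enorm_eq_ofReal (Real.exp_pos _).le]
  · rw [enorm_zero]

/-- the region after the change of variables -/
def hr4_C (n : ℕ) (R0 : ℝ) : Set (E n × E n × E n) :=
  Metric.closedBall (0 : E n) R0 ×ˢ (Metric.closedBall (0 : E n) (2 * R0) ×ˢ
    Metric.closedBall (0 : E n) (2 * R0))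

theorem hr4_C_meas (n : ℕ) (R0 : ℝ) : MeasurableSet (hr4_C n R0) :=
  Metric.isClosed_closedBall.measurableSet.prod
    (Metric.isClosed_closedBall.measurableSet.prod Metric.isClosed_closedBall.measurableSet)

/-- the integrand after the change of variables -/
noncomputable def hr4_H {n : ℕ} (R0 R : ℝ) : E n × E n × E n → ℝ≥0∞ :=
  (hr4_C n R0).indicator fun q => hr4_F R (q.1 + (1 / 2 : ℝ) • (q.2.1 + q.2.2), q.2.1, q.2.2)

theorem hr4_F2_meas {n : ℕ} (R : ℝ) : Measurable fun q : E n × E n × E n =>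
    hr4_F R (q.1 + (1 / 2 : ℝ) • (q.2.1 + q.2.2), q.2.1, q.2.2) :=
  (hr4_F_meas R).comp (by fun_prop)

theorem hr4_H_meas {n : ℕ} (R0 R : ℝ) : Measurable (hr4_H (n := n) R0 R) :=
  (hr4_F2_meas R).indicator (hr4_C_meas n R0)

theorem hr4_point {n : ℕ} (R0 R : ℝ) (q : E n × E n × E n) :
    (if ‖q.1‖ ≤ R0 ∧ ‖q.1 - q.2.1 - q.2.2‖ ≤ R0 ∧ ‖q.1 - q.2.1‖ ≤ R0 ∧ ‖q.1 - q.2.2‖ ≤ R0 then
      hr4_F R q else 0) ≤ hr4_H R0 R (q.1 - (1 / 2 : ℝ) • (q.2.1 + q.2.2), q.2.1, q.2.2) := by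
  obtain ⟨w, y, z⟩ := q
  split_ifs with h
  · obtain ⟨h1, h2, h3, h4⟩ := h
    simp only at h1 h2 h3 h4
    unfold hr4_H
    rw [indicator_of_mem]
    · simp only [sub_add_cancel]
      exact le_rfl
    · refine ⟨?_, ?_, ?_⟩
      · rw [mem_closedBall_zero_iff]
        simp only
        have e : w - (1 / 2 : ℝ) • (y + z) = (1 / 2 : ℝ) • (w + (w - y - z)) := by module
        rw [e, norm_smul]
        have h5 : ‖w + (w - y - z)‖ ≤ R0 + R0 := (norm_add_le _ _).trans (add_le_add h1 h2)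
        have h6 : ‖(1 / 2 : ℝ)‖ = 1 / 2 := by norm_num
        rw [h6]
        linarith
      · rw [mem_closedBall_zero_iff]
        simp only
        have e : y = w - (w - y) := by abel
        rw [e]
        have h5 : ‖w - (w - y)‖ ≤ R0 + R0 := (norm_sub_le _ _).trans (add_le_add h1 h3)
        linarith
      · rw [mem_closedBall_zero_iff]
        simp only
        have e : z = w - (w - z) := by abel
        rw [e]
        have h5 : ‖w - (w - z)‖ ≤ R0 + R0 := (norm_sub_le _ _).trans (add_le_add h1 h4)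
        linarith
  · exact zero_le

/-
ROW R4 (1 h). Reduction of the L^4 norm to a volume integral. four_linear_param (Pool.Agent.MST.LP) with Λ = Mat n × ℝ, μ = mu n (finite_mu),
A l w = am R0 R (2R) l w (measurable_am, norm_am_le with |2R - R| = R, am_zero; the support radius is R0) gives ≤ ∫⁻ q, ‖kernel‖ₑ over
q = (w, y, z) ∈ E n × E n × E n (op unfolds to the integral there). By `kernel` the integrand is 0 unless ‖w‖, ‖w-y-z‖, ‖w-y‖, ‖w-z‖ ≤ R0, and then
m := w - (1/2)(y+z) = ((w) + (w-y-z))/2 has ‖m‖ ≤ R0, ‖y‖ = ‖w - (w-y)‖ ≤ 2 R0, ‖z‖ ≤ 2 R0. ‖((a : ℝ) : ℂ)‖ₑ = ofReal a for a = ∫ ≥ 0, and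
ofReal (∫ t in Box, exp) = ∫⁻ t in Box, ofReal exp (ofReal_integral_eq_lintegral_ofReal; the box is compact, the integrand continuous; for the upper bound ≤ is
enough). Order of integration: ∫⁻ q over E × E × E = ∫⁻ y ∫⁻ z ∫⁻ w (Tonelli), for fixed (y, z) translate w = m + (1/2)(y+z) (lintegral_add_right_eq_self),
then back to ∫⁻ m ∫⁻ y ∫⁻ z. All integrands are measurable (VV is continuous in all variables).
-/
theorem L4_red {n : ℕ} (R0 R : ℝ) (hR0 : 0 ≤ R0) (hR : 0 < R) (G : E n → ℂ) (hG : Measurable G)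
    (hb : ∀ w, ‖G w‖ ≤ 1) :
    ∫⁻ l, (∫⁻ x : E n, ‖op R0 R (2 * R) l G x‖ₑ ^ (4:ℝ)) ∂(mu n) ≤
      ∫⁻ m in Metric.closedBall (0 : E n) R0, ∫⁻ y in Metric.closedBall (0 : E n) (2 * R0),
        ∫⁻ z in Metric.closedBall (0 : E n) (2 * R0), ∫⁻ t in Box R,
          ENNReal.ofReal (Real.exp (-(π * VV (m + (1 / 2 : ℝ) • (y + z)) y z t))) := by
  have hfin : IsFiniteMeasure (mu n) := finite_mu n
  have h1 := four_linear_param (mu n) (fun l w => am R0 R (2 * R) l w) (measurable_am R0 R (2 * R))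
    |2 * R - R| R0 (fun l w => norm_am_le R0 R (2 * R) l w) (fun l w hw => am_zero R0 R (2 * R) l w hw)
    G hG hb
  refine (le_of_eq ?_).trans (h1.trans ?_)
  · rfl
  refine (lintegral_mono fun q => (hr4_kernel R0 R hR.le q).trans (hr4_point R0 R q)).trans ?_
  -- change of variables
  have h2 : ∫⁻ q : E n × E n × E n,
      hr4_H R0 R (q.1 - (1 / 2 : ℝ) • (q.2.1 + q.2.2), q.2.1, q.2.2) =
      ∫⁻ q : E n × E n × E n, hr4_H R0 R q := by
    have hm1 : Measurable fun q : E n × E n × E n =>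
        hr4_H R0 R (q.1 - (1 / 2 : ℝ) • (q.2.1 + q.2.2), q.2.1, q.2.2) :=
      (hr4_H_meas R0 R).comp (by fun_prop)
    rw [Measure.volume_eq_prod, lintegral_prod_symm _ hm1.aemeasurable,
      lintegral_prod_symm _ (hr4_H_meas R0 R).aemeasurable]
    refine lintegral_congr fun p => ?_
    exact lintegral_sub_right_eq_self (fun m => hr4_H R0 R (m, p.1, p.2))
      ((1 / 2 : ℝ) • (p.1 + p.2))
  rw [h2]
  unfold hr4_H
  rw [lintegral_indicator (hr4_C_meas n R0)]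
  unfold hr4_C
  rw [Measure.volume_eq_prod, ← Measure.prod_restrict, lintegral_prod _
    (hr4_F2_meas R).aemeasurable]
  refine lintegral_mono fun m => ?_
  have hm2 : Measurable fun p : E n × E n =>
      hr4_F R (m + (1 / 2 : ℝ) • (p.1 + p.2), p.1, p.2) := (hr4_F_meas R).comp (by fun_prop)
  rw [Measure.volume_eq_prod, ← Measure.prod_restrict]
  refine (lintegral_prod _ hm2.aemeasurable).le.trans ?_
  exact le_rfl

end Pool.Agent.AEL
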