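import Pool.Agent.AEL.AS2
import Pool.Agent.AEL.R4
import Pool.Agent.MST.RM

namespace Pool.Agent.AEL

open MeasureTheory Set Pool.Agent.MP_6cbfb8_an Pool.Agent.MST
open scoped ENNReal Real

/-
ROW AM (0.6 h). n = d + 1, d ≥ 2. `L4_red`, then for m ≠ 0 (a.e.) `rotate_m`, `change_m` (μ = ‖m‖) and `master`; finally ∫⁻ m in closedBall 0 R0,
ofReal (‖m‖^(-2)) < ∞ by `radial_m` (Pool.Agent.MST.RM) with η = n - 2 > 0 (η - n = -2; ENNReal.ofReal_rpow_of_pos for m ≠ 0).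
-/
theorem L4_bound (n : ℕ) (hn : 3 ≤ n) (R0 : ℝ) (hR0 : 1 ≤ R0) : ∃ C : ℝ, 0 < C ∧ ∀ R : ℝ, 1 ≤ R →
    ∀ G : E n → ℂ, Measurable G → (∀ w, ‖G w‖ ≤ 1) →
    ∫⁻ l, (∫⁻ x : E n, ‖op R0 R (2 * R) l G x‖ₑ ^ (4:ℝ)) ∂(mu n) ≤
      ENNReal.ofReal (C * (1 + Real.log R) ^ n / R ^ (n - 2)) := by
  obtain ⟨d, rfl⟩ : ∃ d, n = d + 1 := ⟨n - 1, by omega⟩
  have hd : 2 ≤ d := by omega
  obtain ⟨c, hc, hrot⟩ := rotate_m d R0 hR0
  obtain ⟨C1, hC1, hmas⟩ := master d hd c (2 * R0) (5 * R0) hc (by linarith) (by linarith)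
  have hI := radial_m (d + 1) (by omega) (((d + 1 : ℕ) : ℝ) - 2) R0 (by
    have : (2 : ℝ) ≤ d := by exact_mod_cast hd
    push_cast
    linarith)
  have hexp : (((d + 1 : ℕ) : ℝ) - 2 - ((d + 1 : ℕ) : ℝ)) = -2 := by ring
  rw [hexp] at hI
  set I : ℝ≥0∞ := ∫⁻ y in Metric.closedBall (0 : E (d + 1)) R0, ENNReal.ofReal ‖y‖ ^ (-2 : ℝ) with hIdef
  refine ⟨I.toReal * C1 + 1, by positivity, ?_⟩
  intro R hR G hG hb
  have hlog : 0 ≤ Real.log R := Real.log_nonneg hR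
  have hR0' : 0 < R := by linarith
  refine (L4_red R0 R (by linarith) hR0' G hG hb).trans ?_
  have hne : ∀ᵐ m : E (d + 1), m ≠ 0 := compl_mem_ae_iff.2 (measure_singleton 0)
  have hstep : ∀ᵐ m ∂(volume.restrict (Metric.closedBall (0 : E (d + 1)) R0)),
      (∫⁻ y in Metric.closedBall (0 : E (d + 1)) (2 * R0),
        ∫⁻ z in Metric.closedBall (0 : E (d + 1)) (2 * R0), ∫⁻ t in Box R,
          ENNReal.ofReal (Real.exp (-(π * VV (m + (1 / 2 : ℝ) • (y + z)) y z t)))) ≤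
        ENNReal.ofReal ‖m‖ ^ (-2 : ℝ) * MI d c (2 * R0) (5 * R0) R := by
    filter_upwards [ae_restrict_of_ae hne, ae_restrict_mem measurableSet_closedBall] with m hm0 hm
    have hmR : ‖m‖ ≤ R0 := mem_closedBall_zero_iff.1 hm
    have hmp : 0 < ‖m‖ := norm_pos_iff.2 hm0
    refine (hrot R hR m hmR).trans ((change_m d R0 c hR0 hc R hR ‖m‖ hmp hmR).trans ?_)
    rw [ENNReal.ofReal_rpow_of_pos hmp]
  refine (lintegral_mono_ae hstep).trans ?_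
  have hMI := hmas R hR
  have hMIt : MI d c (2 * R0) (5 * R0) R ≠ ∞ := ne_top_of_le_ne_top ENNReal.ofReal_ne_top hMI
  rw [lintegral_mul_const' _ _ hMIt]
  change I * MI d c (2 * R0) (5 * R0) R ≤ _
  have h1 : d + 1 - 2 = d - 1 := by omega
  rw [h1]
  calc I * MI d c (2 * R0) (5 * R0) R
      ≤ ENNReal.ofReal I.toReal * ENNReal.ofReal (C1 * (1 + Real.log R) ^ (d + 1) / R ^ (d - 1)) := by
        rw [ENNReal.ofReal_toReal hI.ne]
        gcongr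
    _ = ENNReal.ofReal (I.toReal * (C1 * (1 + Real.log R) ^ (d + 1) / R ^ (d - 1))) := by
        rw [← ENNReal.ofReal_mul ENNReal.toReal_nonneg]
    _ ≤ ENNReal.ofReal ((I.toReal * C1 + 1) * (1 + Real.log R) ^ (d + 1) / R ^ (d - 1)) := by
        apply ENNReal.ofReal_le_ofReal
        have h2 : 0 ≤ (1 + Real.log R) ^ (d + 1) / R ^ (d - 1) := by positivity
        have h3 : (I.toReal * C1 + 1) * (1 + Real.log R) ^ (d + 1) / R ^ (d - 1) =
            I.toReal * (C1 * (1 + Real.log R) ^ (d + 1) / R ^ (d - 1)) +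
              (1 + Real.log R) ^ (d + 1) / R ^ (d - 1) := by ring
        rw [h3]
        linarith

end Pool.Agent.AEL
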