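import Pool.Agent.AEL.D4
import Pool.Agent.MP_6cbfb8_an.Super

namespace Pool.Agent.AEL

open MeasureTheory Set Pool.Agent.MP_6cbfb8_an Pool.Agent.MST
open scoped ENNReal Real

theorem hd5_inner {n : ℕ} (A : Mat n) (y z : E n) :
    inner ℝ (mv (tm A) y) z = inner ℝ y (mv A z) := by
  simp only [PiLp.inner_apply, mv, tm, RCLike.inner_apply, conj_trivial]
  simp only [Finset.mul_sum, Finset.sum_mul]
  rw [Finset.sum_comm]
  refine Finset.sum_congr rfl fun i _ => Finset.sum_congr rfl fun j _ => by ring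

theorem hd5_tm_inv {n : ℕ} (A X : Mat n) (h2 : ∀ y, mv X (mv A y) = y) (y : E n) :
    mv (tm A) (mv (tm X) y) = y := by
  refine ext_inner_right ℝ fun z => ?_
  rw [hd5_inner, hd5_inner, h2]

theorem hd5_scale {n : ℕ} (A : Mat n) (c : ℝ) (y : E n) :
    mv (fun i j => c * A i j) y = c • mv A y := by
  ext i
  simp only [mv, PiLp.smul_apply, smul_eq_mul, Finset.mul_sum]
  exact Finset.sum_congr rfl fun j _ => by ring

theorem hd5_measurable_cutG {n : ℕ} (R0 : ℝ) (G : E n → ℂ) (hG : Measurable G) :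
    Measurable (cutG R0 G) := by
  unfold cutG
  exact Measurable.ite (measurableSet_le measurable_norm measurable_const) hG measurable_const

theorem hd5_continuous_mv {n : ℕ} (A : Mat n) : Continuous (mv A) :=
  continuous_mv.comp (continuous_const.prodMk continuous_id)

/-
ROW D5 (1 h). The set of (ξ, κ) where the inequality of `dom` fails is measurable (measurable_extn_param of Super.lean with parameter κ, evaluated at
√κ • mv (tm A) ξ; measurable_Phi with Y = Unit), so for a.e. κ it holds for a.e. ξ (Measure.ae_ae_comm / ae_prod). For such κ > 0 with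
c = D κ^((n-2)/2) > 0: ∫⁻ ξ ‖extn (..) (√κ • mv (tm A) ξ)‖^p ≤ (ofReal c)^(-p) ∫⁻ Phi^p < ∞. ξ ↦ √κ • mv (tm A) ξ is a linear bijection (inverse
√κ⁻¹ • mv (tm X); tm A, tm X are inverse to each other because ⟨mv (tm A) y, z⟩ = ⟨y, mv A z⟩), so by `lin_change` for the matrices √κ • tm A and √κ⁻¹ • tm X
∫⁻ ξ ‖extn (..) ξ‖^p is a finite constant times it.
-/
theorem fixed_fin {n : ℕ} (hn : 3 ≤ n) (M A X : Mat n) (hq : ∀ y, qf M y = ‖mv X y‖ ^ 2)
    (h1 : ∀ y, mv A (mv X y) = y) (h2 : ∀ y, mv X (mv A y) = y) (R0 p : ℝ) (hp : 0 < p)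
    (G : E n → ℂ) (hG : Measurable G) (hb : ∀ w, ‖G w‖ ≤ 1) :
    ∀ᵐ κ : ℝ, 0 < κ → ∫⁻ x, Phi R0 (M, -κ) G x ^ p < ∞ →
      ∫⁻ ξ, ‖extn (fun x => cutG R0 G (mv A (√κ • x))) ξ‖ₑ ^ p < ∞ := by
  obtain ⟨D, hD, hdom⟩ := dom hn M A X hq h1 h2
  have hdom' := hdom R0 G hG hb
  have hcm := hd5_measurable_cutG R0 G hG
  -- measurability of the two sides
  have hhh : Measurable (Function.uncurry fun (κ : ℝ) (x : E n) =>
      cutG R0 G (mv A (√κ • x))) := by
    have h3 : Measurable fun q : ℝ × E n => mv A (√q.1 • q.2) := by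
      refine (hd5_continuous_mv A).measurable.comp ?_
      exact (Real.continuous_sqrt.measurable.comp measurable_fst).smul measurable_snd
    exact hcm.comp h3
  have hext := measurable_extn_param (fun (κ : ℝ) (x : E n) => cutG R0 G (mv A (√κ • x))) hhh
  have hF : Measurable fun q : E n × ℝ =>
      ENNReal.ofReal (D * q.2 ^ (((n : ℝ) - 2) / 2)) *
        ‖extn (fun x => cutG R0 G (mv A (√q.2 • x))) (√q.2 • mv (tm A) q.1)‖ₑ := by
    have h3 : Measurable fun q : E n × ℝ => q.2 ^ (((n : ℝ) - 2) / 2) :=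
      measurable_snd.pow_const _
    have h4 : Measurable fun q : E n × ℝ => D * q.2 ^ (((n : ℝ) - 2) / 2) :=
      h3.const_mul D
    have h5 : Measurable fun q : E n × ℝ => (q.2, √q.2 • mv (tm A) q.1) := by
      refine measurable_snd.prodMk ?_
      exact (Real.continuous_sqrt.measurable.comp measurable_snd).smul
        ((hd5_continuous_mv (tm A)).measurable.comp measurable_fst)
    have h6 : Measurable fun q : E n × ℝ =>
        ‖extn (fun x => cutG R0 G (mv A (√q.2 • x))) (√q.2 • mv (tm A) q.1)‖ₑ :=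
      (hext.comp h5).enorm
    exact h4.ennreal_ofReal.mul h6
  have hPhi : Measurable fun q : E n × ℝ => Phi R0 (M, -q.2) G q.1 := by
    have h3 : Measurable fun q : (Mat n × ℝ) × Unit × E n => Phi R0 q.1 G q.2.2 :=
      measurable_Phi (Y := Unit) R0 (fun _ : Unit => G) (hG.comp measurable_snd)
    have h4 : Measurable fun q : E n × ℝ => (((M, -q.2), ((), q.1)) : (Mat n × ℝ) × Unit × E n) :=
      (measurable_const.prodMk measurable_snd.neg).prodMk (measurable_const.prodMk measurable_fst)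
    have h5 := h3.comp h4
    simp only [Function.comp_def] at h5
    exact h5
  have hset : MeasurableSet {q : E n × ℝ | 0 < q.2 →
      ENNReal.ofReal (D * q.2 ^ (((n : ℝ) - 2) / 2)) *
        ‖extn (fun x => cutG R0 G (mv A (√q.2 • x))) (√q.2 • mv (tm A) q.1)‖ₑ ≤
        Phi R0 (M, -q.2) G q.1} := by
    have h3 : MeasurableSet {q : E n × ℝ | 0 < q.2} :=
      measurableSet_lt measurable_const measurable_snd
    have h4 : MeasurableSet {q : E n × ℝ |
      ENNReal.ofReal (D * q.2 ^ (((n : ℝ) - 2) / 2)) *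
        ‖extn (fun x => cutG R0 G (mv A (√q.2 • x))) (√q.2 • mv (tm A) q.1)‖ₑ ≤
        Phi R0 (M, -q.2) G q.1} := measurableSet_le hF hPhi
    have h5 : {q : E n × ℝ | 0 < q.2 →
      ENNReal.ofReal (D * q.2 ^ (((n : ℝ) - 2) / 2)) *
        ‖extn (fun x => cutG R0 G (mv A (√q.2 • x))) (√q.2 • mv (tm A) q.1)‖ₑ ≤
        Phi R0 (M, -q.2) G q.1} = {q : E n × ℝ | 0 < q.2}ᶜ ∪ {q : E n × ℝ |
      ENNReal.ofReal (D * q.2 ^ (((n : ℝ) - 2) / 2)) *
        ‖extn (fun x => cutG R0 G (mv A (√q.2 • x))) (√q.2 • mv (tm A) q.1)‖ₑ ≤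
        Phi R0 (M, -q.2) G q.1} := by
      ext q
      simp only [mem_ofPred_eq, mem_union, mem_compl_iff]
      tauto
    rw [h5]
    exact h3.compl.union h4
  have hae : ∀ᵐ ξ : E n, ∀ᵐ κ : ℝ, 0 < κ →
      ENNReal.ofReal (D * κ ^ (((n : ℝ) - 2) / 2)) *
        ‖extn (fun x => cutG R0 G (mv A (√κ • x))) (√κ • mv (tm A) ξ)‖ₑ ≤
        Phi R0 (M, -κ) G ξ := Filter.Eventually.of_forall hdom'
  have hae' : ∀ᵐ κ : ℝ, ∀ᵐ ξ : E n, 0 < κ →
      ENNReal.ofReal (D * κ ^ (((n : ℝ) - 2) / 2)) *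
        ‖extn (fun x => cutG R0 G (mv A (√κ • x))) (√κ • mv (tm A) ξ)‖ₑ ≤
        Phi R0 (M, -κ) G ξ := (Measure.ae_ae_comm hset).mp hae
  filter_upwards [hae'] with κ hκ hκ0 hfin
  have hc0 : 0 < D * κ ^ (((n : ℝ) - 2) / 2) := mul_pos hD (Real.rpow_pos_of_pos hκ0 _)
  set c : ℝ≥0∞ := ENNReal.ofReal (D * κ ^ (((n : ℝ) - 2) / 2)) with hcdef
  have hc1 : c ≠ 0 := by rw [hcdef]; exact (ENNReal.ofReal_pos.mpr hc0).ne'
  have hc2 : c ≠ ∞ := ENNReal.ofReal_ne_top
  have hs : 0 < √κ := Real.sqrt_pos.mpr hκ0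
  have hle : ∫⁻ ξ, ‖extn (fun x => cutG R0 G (mv A (√κ • x))) (√κ • mv (tm A) ξ)‖ₑ ^ p
      ≤ (c⁻¹) ^ p * ∫⁻ x, Phi R0 (M, -κ) G x ^ p := by
    have hm : Measurable fun x : E n => Phi R0 (M, -κ) G x ^ p := by
      have h4 : Measurable fun x : E n => (x, κ) := measurable_id.prodMk measurable_const
      exact (hPhi.comp h4).pow_const p
    rw [← lintegral_const_mul _ hm]
    refine lintegral_mono_ae ?_
    filter_upwards [hκ] with ξ hξ
    have h3 := hξ hκ0
    rw [← ENNReal.mul_rpow_of_nonneg _ _ hp.le]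
    refine ENNReal.rpow_le_rpow ?_ hp.le
    calc ‖extn (fun x => cutG R0 G (mv A (√κ • x))) (√κ • mv (tm A) ξ)‖ₑ
        = c⁻¹ * (c * ‖extn (fun x => cutG R0 G (mv A (√κ • x))) (√κ • mv (tm A) ξ)‖ₑ) := by
          rw [← mul_assoc, ENNReal.inv_mul_cancel hc1 hc2, one_mul]
      _ ≤ c⁻¹ * Phi R0 (M, -κ) G ξ := by gcongr
  have hfin2 : ∫⁻ ξ, ‖extn (fun x => cutG R0 G (mv A (√κ • x))) (√κ • mv (tm A) ξ)‖ₑ ^ p < ∞ := by
    refine lt_of_le_of_lt hle (ENNReal.mul_lt_top ?_ hfin)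
    exact ENNReal.rpow_lt_top_of_nonneg hp.le (ENNReal.inv_ne_top.mpr hc1)
  -- change of variables
  obtain ⟨D', -, hD'1, -⟩ := lin_change (fun i j => √κ * tm A i j) (fun i j => (√κ)⁻¹ * tm X i j)
    (fun y => by
      rw [hd5_scale, hd5_scale, hd2_mv_smul, smul_smul, mul_inv_cancel₀ hs.ne', one_smul]
      exact hd5_tm_inv A X h2 y)
    (fun y => by
      rw [hd5_scale, hd5_scale, hd2_mv_smul, smul_smul, inv_mul_cancel₀ hs.ne', one_smul]
      exact hd5_tm_inv X A h1 y)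
  have hmφ : Measurable fun ξ : E n =>
      ‖extn (fun x => cutG R0 G (mv A (√κ • x))) ξ‖ₑ ^ p := by
    have h4 : Measurable fun x : E n => (κ, x) := measurable_const.prodMk measurable_id
    exact (hext.comp h4).enorm.pow_const p
  rw [hD'1 _ hmφ]
  refine ENNReal.mul_lt_top ENNReal.ofReal_lt_top ?_
  simp only [hd5_scale]
  exact hfin2

end Pool.Agent.AEL
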