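import Pool.Agent.AEL.T1
import Pool.Agent.AEL.D5

namespace Pool.Agent.AEL

open MeasureTheory Set Pool.Agent.MP_6cbfb8_an Pool.Agent.MST
open scoped ENNReal Real

theorem ht2_mv_smul {n : ℕ} (N : Mat n) (c : ℝ) (y : E n) : mv N (c • y) = c • mv N y := by
  ext i
  simp only [mv, PiLp.smul_apply, smul_eq_mul, Finset.mul_sum]
  refine Finset.sum_congr rfl fun j _ => ?_
  ring

theorem ht2_smul_mv {n : ℕ} (N : Mat n) (c : ℝ) (y : E n) :
    mv (fun i j => c * N i j) y = c • mv N y := by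
  ext i
  simp only [mv, PiLp.smul_apply, smul_eq_mul, Finset.mul_sum]
  refine Finset.sum_congr rfl fun j _ => ?_
  ring

theorem ht2_mv_mm {n : ℕ} (B N : Mat n) (y : E n) : mv (mm B N) y = mv B (mv N y) := by
  ext i
  simp only [mv, mm, Finset.mul_sum, Finset.sum_mul]
  rw [Finset.sum_comm]
  refine Finset.sum_congr rfl fun j _ => Finset.sum_congr rfl fun k _ => ?_
  ring

theorem ht2_cut {n : ℕ} (A : Mat n) (κ : ℝ) : ∃ k : ℕ, 1 ≤ k ∧ ∀ F : E n → ℂ,
    extn (fun x => cutG (k : ℝ) F (mv A (√κ • x))) = extn (fun x => F (mv A (√κ • x))) := by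
  have hc : Continuous fun x : E n => mv A (√κ • x) :=
    continuous_mv.comp (continuous_const.prodMk (continuous_id.const_smul (√κ)))
  obtain ⟨C, hC⟩ := (isCompact_sphere (0 : E n) 1).exists_bound_of_continuousOn hc.continuousOn
  obtain ⟨k, hk⟩ := exists_nat_ge C
  refine ⟨k + 1, by omega, fun F => ?_⟩
  funext ξ
  unfold extn
  refine integral_congr_ae (Filter.Eventually.of_forall fun x => ?_)
  have h1 : ‖mv A (√κ • (x : E n))‖ ≤ ((k + 1 : ℕ) : ℝ) := by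
    have h2 := hC x x.2
    push_cast
    linarith
  simp only [cutG, if_pos h1]

/-
ROW T2 (1.2 h). M, A, X from `pick`. For every B and every k ≥ 1, `fixed_fin` for G ∘ mv B and R0 = k: for a.e. κ > 0: if the Phi integral is finite then
∫⁻ ‖extn (x ↦ cutG k (G ∘ mv B) (mv A (√κ x)))‖^p < ∞. For κ > 0 choose k ≥ 1 with k ≥ √κ sup_{‖x‖=1} ‖mv A x‖ (mv A is linear and continuous): on the sphere the
cut-off is 1, so extn of it is extn (x ↦ G (mv B (mv A (√κ • x)))) (extn only sees the sphere) and mv B (mv A (√κ • x)) = mv (mm B A1) x with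
A1 i j = √κ * A i j. So: for every B, a.e. κ > 0: (∀ k ≥ 1, Phi integral finite) → ∫⁻ ‖extn (x ↦ G (mv (mm B A1) x))‖^p < ∞. The set of (B, κ) where this
implication fails is measurable (measurable_extn_param, measurable_Phi): for a.e. κ > 0, for a.e. B the implication holds; with `pick`: there is κ > 0 such that for a.e. B
the conclusion holds. A1 and X1 = (1/√κ) X are inverse to each other.
-/
theorem one_side (n : ℕ) (hn : 3 ≤ n) (p : ℝ) (hp : 2 * (n : ℝ) / (n - 1) < p) (hp4 : p < 4)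
    (G : E n → ℂ) (hG : Measurable G) (hb : ∀ w, ‖G w‖ ≤ 1) :
    ∃ A1 X1 : Mat n, (∀ y, mv A1 (mv X1 y) = y) ∧ (∀ y, mv X1 (mv A1 y) = y) ∧
      ∀ᵐ B : Mat n, ∫⁻ ξ, ‖extn (fun x => G (mv (mm B A1) x)) ξ‖ₑ ^ p < ∞ := by
  obtain ⟨M, A, X, hq, hAX, hXA, hae⟩ := pick n hn p hp hp4 G hG hb
  have hp0 : 0 < p := by
    have h3 : (3 : ℝ) ≤ n := by exact_mod_cast hn
    have h4 : 0 < 2 * (n : ℝ) / (n - 1) := div_pos (by linarith) (by linarith)
    linarith
  have hmvm : ∀ B : Mat n, Measurable fun w : E n => G (mv B w) := fun B =>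
    hG.comp (continuous_mv.comp (continuous_const.prodMk continuous_id)).measurable
  -- the implication
  have hP : ∀ B : Mat n, ∀ᵐ κ : ℝ, 0 < κ →
      (∀ k : ℕ, 1 ≤ k → ∫⁻ x, Phi (k : ℝ) (M, -κ) (fun w => G (mv B w)) x ^ p < ∞) →
      ∫⁻ ξ, ‖extn (fun x => G (mv B (mv A (√κ • x)))) ξ‖ₑ ^ p < ∞ := by
    intro B
    have h1 : ∀ᵐ κ : ℝ, ∀ k : ℕ, 0 < κ →
        ∫⁻ x, Phi (k : ℝ) (M, -κ) (fun w => G (mv B w)) x ^ p < ∞ →
        ∫⁻ ξ, ‖extn (fun x => cutG (k : ℝ) (fun w => G (mv B w)) (mv A (√κ • x))) ξ‖ₑ ^ p < ∞ := by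
      rw [ae_all_iff]
      intro k
      exact fixed_fin hn M A X hq hAX hXA (k : ℝ) p hp0 (fun w => G (mv B w)) (hmvm B)
        fun w => hb _
    filter_upwards [h1] with κ hκ h0 hfin
    obtain ⟨k, hk1, hk⟩ := ht2_cut A κ
    have h2 := hκ k h0 (hfin k hk1)
    rwa [hk] at h2
  -- measurability
  have hmes : MeasurableSet {q : Mat n × ℝ | 0 < q.2 →
      (∀ k : ℕ, 1 ≤ k → ∫⁻ x, Phi (k : ℝ) (M, -q.2) (fun w => G (mv q.1 w)) x ^ p < ∞) →
      ∫⁻ ξ, ‖extn (fun x => G (mv q.1 (mv A (√q.2 • x)))) ξ‖ₑ ^ p < ∞} := by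
    have m1 : ∀ k : ℕ, Measurable fun q : Mat n × ℝ =>
        ∫⁻ x, Phi (k : ℝ) (M, -q.2) (fun w => G (mv q.1 w)) x ^ p := by
      intro k
      have hu : Measurable (Function.uncurry fun (B : Mat n) (w : E n) => G (mv B w)) :=
        hG.comp continuous_mv.measurable
      have h1 := measurable_Phi (k : ℝ) (fun (B : Mat n) (w : E n) => G (mv B w)) hu
      have h2 : Measurable fun q : (Mat n × ℝ) × E n =>
          ((((M, -q.1.2) : Mat n × ℝ), q.1.1, q.2) : (Mat n × ℝ) × Mat n × E n) := by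
        fun_prop
      exact ((h1.comp h2).pow_const p).lintegral_prod_right'
    have m2 : Measurable fun q : Mat n × ℝ =>
        ∫⁻ ξ, ‖extn (fun x => G (mv q.1 (mv A (√q.2 • x)))) ξ‖ₑ ^ p := by
      have hu : Measurable (Function.uncurry fun (q : Mat n × ℝ) (x : E n) =>
          G (mv q.1 (mv A (√q.2 • x)))) := by
        refine hG.comp (Continuous.measurable ?_)
        have c1 : Continuous fun q : (Mat n × ℝ) × E n => mv A (√q.1.2 • q.2) :=
          continuous_mv.comp (continuous_const.prodMk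
            ((Real.continuous_sqrt.comp (continuous_snd.comp continuous_fst)).smul continuous_snd))
        exact continuous_mv.comp ((continuous_fst.comp continuous_fst).prodMk c1)
      have h1 := measurable_extn_param (fun (q : Mat n × ℝ) (x : E n) =>
          G (mv q.1 (mv A (√q.2 • x)))) hu
      exact (h1.enorm.pow_const p).lintegral_prod_right'
    have s1 : MeasurableSet {q : Mat n × ℝ | 0 < q.2} := measurableSet_lt measurable_const measurable_snd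
    have s2 : MeasurableSet {q : Mat n × ℝ | ∀ k : ℕ, 1 ≤ k →
        ∫⁻ x, Phi (k : ℝ) (M, -q.2) (fun w => G (mv q.1 w)) x ^ p < ∞} := by
      have : {q : Mat n × ℝ | ∀ k : ℕ, 1 ≤ k →
          ∫⁻ x, Phi (k : ℝ) (M, -q.2) (fun w => G (mv q.1 w)) x ^ p < ∞} =
          ⋂ k : ℕ, ⋂ _ : 1 ≤ k, {q : Mat n × ℝ |
            ∫⁻ x, Phi (k : ℝ) (M, -q.2) (fun w => G (mv q.1 w)) x ^ p < ∞} := by
        ext q
        simp only [mem_ofPred_eq, mem_iInter]
      rw [this]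
      exact MeasurableSet.iInter fun k => MeasurableSet.iInter fun _ =>
        measurableSet_lt (m1 k) measurable_const
    have s3 : MeasurableSet {q : Mat n × ℝ |
        ∫⁻ ξ, ‖extn (fun x => G (mv q.1 (mv A (√q.2 • x)))) ξ‖ₑ ^ p < ∞} :=
      measurableSet_lt m2 measurable_const
    have : {q : Mat n × ℝ | 0 < q.2 →
        (∀ k : ℕ, 1 ≤ k → ∫⁻ x, Phi (k : ℝ) (M, -q.2) (fun w => G (mv q.1 w)) x ^ p < ∞) →
        ∫⁻ ξ, ‖extn (fun x => G (mv q.1 (mv A (√q.2 • x)))) ξ‖ₑ ^ p < ∞} =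
        {q : Mat n × ℝ | 0 < q.2}ᶜ ∪ ({q : Mat n × ℝ | ∀ k : ℕ, 1 ≤ k →
          ∫⁻ x, Phi (k : ℝ) (M, -q.2) (fun w => G (mv q.1 w)) x ^ p < ∞}ᶜ ∪
        {q : Mat n × ℝ | ∫⁻ ξ, ‖extn (fun x => G (mv q.1 (mv A (√q.2 • x)))) ξ‖ₑ ^ p < ∞}) := by
      ext q
      simp only [mem_ofPred_eq, mem_union, mem_compl_iff]
      tauto
    rw [this]
    exact s1.compl.union (s2.compl.union s3)
  have hsw : ∀ᵐ κ : ℝ, ∀ᵐ B : Mat n, 0 < κ →
      (∀ k : ℕ, 1 ≤ k → ∫⁻ x, Phi (k : ℝ) (M, -κ) (fun w => G (mv B w)) x ^ p < ∞) →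
      ∫⁻ ξ, ‖extn (fun x => G (mv B (mv A (√κ • x)))) ξ‖ₑ ^ p < ∞ :=
    (Measure.ae_ae_comm (μ := (volume : Measure (Mat n))) (ν := (volume : Measure ℝ)) hmes).mp
      (Filter.Eventually.of_forall hP)
  have hfin : ∀ᵐ κ : ℝ, 0 < κ → ∀ᵐ B : Mat n,
      ∫⁻ ξ, ‖extn (fun x => G (mv B (mv A (√κ • x)))) ξ‖ₑ ^ p < ∞ := by
    filter_upwards [hsw, hae] with κ h1 h2 h0
    filter_upwards [h1, h2] with B h3 h4
    exact h3 h0 h4
  obtain ⟨κ, hκ0, hκ⟩ : ∃ κ : ℝ, 0 < κ ∧ ∀ᵐ B : Mat n,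
      ∫⁻ ξ, ‖extn (fun x => G (mv B (mv A (√κ • x)))) ξ‖ₑ ^ p < ∞ := by
    by_contra hcon
    have h1 : (volume : Measure ℝ) (Ioi 0) = 0 := by
      refine measure_mono_null (fun κ hκ => ?_) hfin
      simp only [mem_compl_iff, mem_ofPred_eq]
      intro h
      exact hcon ⟨κ, hκ, h hκ⟩
    rw [Real.volume_Ioi] at h1
    exact ENNReal.top_ne_zero h1
  have hs : √κ ≠ 0 := (Real.sqrt_pos.mpr hκ0).ne'
  refine ⟨fun i j => √κ * A i j, fun i j => (√κ)⁻¹ * X i j, fun y => ?_, fun y => ?_, ?_⟩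
  · rw [ht2_smul_mv, ht2_smul_mv, ht2_mv_smul, hAX, smul_smul, mul_inv_cancel₀ hs, one_smul]
  · rw [ht2_smul_mv, ht2_smul_mv, ht2_mv_smul, hXA, smul_smul, inv_mul_cancel₀ hs, one_smul]
  · filter_upwards [hκ] with B hB
    have : (fun x : E n => G (mv (mm B fun i j => √κ * A i j) x)) =
        fun x => G (mv B (mv A (√κ • x))) := by
      funext x
      rw [ht2_mv_mm, ht2_smul_mv, ht2_mv_smul A]
    rw [this]
    exact hB

end Pool.Agent.AEL
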