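import Pool.Agent.AEL.T3
import Pool.Agent.MP_6cbfb8_an.LiftF

namespace Pool.Agent.AEL

open MeasureTheory Set Pool.Agent.MP_6cbfb8_an Pool.Agent.MST
open scoped ENNReal Real

theorem hfn_extn_const_mul {n : ℕ} (a : ℂ) (g : E n → ℂ) (ξ : E n) :
    extn (fun x => a * g x) ξ = a * extn g ξ := by
  unfold extn
  rw [← integral_const_mul]
  refine integral_congr_ae (Filter.Eventually.of_forall fun x => ?_)
  show a * g x * _ = a * (g x * _)
  rw [mul_assoc]

theorem hfn_measurable_extn {n : ℕ} (g : E n → ℂ) (hg : Measurable g) :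
    Measurable fun ξ => extn g ξ := by
  have h1 := measurable_extn_param (W := Unit) (fun _ : Unit => g) (hg.comp measurable_snd)
  have h2 : Measurable fun ξ : E n => (((), ξ) : Unit × E n) :=
    measurable_const.prodMk measurable_id
  have h3 := h1.comp h2
  simp only [Function.comp_def] at h3
  exact h3

/-- The case of densities bounded by `1`. -/
theorem hfn_one (n : ℕ) (hn : 3 ≤ n) (G : E n → ℂ) (hG : Measurable G)
    (hC : ∀ w, ‖G w‖ ≤ 1) :
    ∀ᵐ A : Mat n, ∀ p : ℝ, 2 * (n : ℝ) / (n - 1) < p → ∀ (N : ℕ) (v : Fin N → E n)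
      (c : Fin N → ℝ),
      ∫⁻ ξ, ‖extn (fun x => G (mv A x) * ∏ i, hsn (c i) (v i) x) ξ‖ₑ ^ p < ∞ := by
  have hn' : (3 : ℝ) ≤ n := by exact_mod_cast hn
  set p0 : ℝ := 2 * (n : ℝ) / (n - 1) with hp0def
  have hp04 : p0 < 4 := by
    rw [hp0def, div_lt_iff₀ (by linarith)]
    linarith
  have hp01 : 1 ≤ p0 := by
    rw [hp0def, le_div_iff₀ (by linarith)]
    linarith
  set q : ℕ → ℝ := fun j => p0 + (4 - p0) * (1 / ((j : ℝ) + 2)) with hqdef
  have hq0 : ∀ j, p0 < q j := by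
    intro j
    have h1 : (0:ℝ) < 1 / ((j : ℝ) + 2) := by positivity
    have h2 : 0 < (4 - p0) * (1 / ((j : ℝ) + 2)) := mul_pos (by linarith) h1
    show p0 < p0 + (4 - p0) * (1 / ((j : ℝ) + 2))
    linarith
  have hq4 : ∀ j, q j < 4 := by
    intro j
    have h0 : (0:ℝ) ≤ j := Nat.cast_nonneg j
    have h1 : 1 / ((j : ℝ) + 2) < 1 := by
      rw [div_lt_one (by positivity)]
      linarith
    show p0 + (4 - p0) * (1 / ((j : ℝ) + 2)) < 4
    nlinarith
  have hqlim : Filter.Tendsto q Filter.atTop (nhds p0) := by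
    have h1 : Filter.Tendsto (fun j : ℕ => 1 / ((j : ℝ) + 2)) Filter.atTop (nhds 0) := by
      have h2 : Filter.Tendsto (fun j : ℕ => ((j : ℝ) + 2)) Filter.atTop Filter.atTop :=
        Filter.tendsto_atTop_add_const_right _ _ tendsto_natCast_atTop_atTop
      simp only [one_div]
      exact h2.inv_tendsto_atTop
    have h3 : Filter.Tendsto q Filter.atTop (nhds (p0 + (4 - p0) * 0)) :=
      tendsto_const_nhds.add (tendsto_const_nhds.mul h1)
    rwa [mul_zero, add_zero] at h3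
  have hae : ∀ᵐ A : Mat n, ∀ j : ℕ, ∫⁻ ξ, ‖extn (fun x => G (mv A x)) ξ‖ₑ ^ (q j) < ∞ := by
    rw [ae_all_iff]
    intro j
    exact transfer n hn (q j) (hq0 j) (hq4 j) G hG hC
  filter_upwards [hae] with A hA
  have hcontA : Continuous (mv A) := continuous_mv.comp (continuous_const.prodMk continuous_id)
  have hgA : Measurable fun x : E n => G (mv A x) := hG.comp hcontA.measurable
  have hall : ∀ p, p0 < p → ∫⁻ ξ, ‖extn (fun x => G (mv A x)) ξ‖ₑ ^ p < ∞ := by
    intro p hp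
    obtain ⟨j, hj⟩ := (hqlim.eventually (gt_mem_nhds hp)).exists
    have h1 := lintegral_rpow_le_sup (μ := (volume : Measure (E n)))
      (fun ξ => ‖extn (fun x => G (mv A x)) ξ‖ₑ) (hfn_measurable_extn _ hgA).enorm
      (p := p) (p' := q j) (by linarith [hq0 j]) hj.le _
      (fun ξ => enorm_extn_le (fun x => G (mv A x)) (fun x => hC _) ξ)
    refine lt_of_le_of_lt h1 (ENNReal.mul_lt_top ?_ (hA j))
    exact ENNReal.rpow_lt_top_of_nonneg (by linarith) (sm_univ_ne_top n)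
  intro p hp N v c
  obtain ⟨K, hK, hmain⟩ := multicut n hn p0 hp01 (fun g => g = fun x => G (mv A x)) (by
    intro p' hp'
    refine ⟨∫⁻ ξ, ‖extn (fun x => G (mv A x)) ξ‖ₑ ^ p', (hall p' hp').ne, ?_⟩
    rintro g _ _ rfl
    exact le_rfl) N p hp
  exact lt_of_le_of_lt (hmain (fun x => G (mv A x)) hgA (fun x => hC _) rfl v c) hK.lt_top

/-
ROW FN (1 h). Scaling: if ‖G‖ ≤ C replace G by G/max(C,1) (extn is homogeneous: finite constants do not matter). By `transfer` for the countably many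
p_j = p0 + (4 - p0)/(j+2), p0 = 2n/(n-1) < 4 (n ≥ 3): for a.e. A the integral is finite for every p_j. For p > p0 choose j with p_j < p and use
`lintegral_rpow_le_sup` (Tools.lean) with ‖extn g‖ₑ ≤ C sm univ: finite for every p > p0. Cuts: `multicut` (LiftF.lean) with p0 and the class
cls g := g = (fun x => G (mv A x)) of one function (constant: the finite integral itself), p0 ≥ 1.
-/
theorem final (n : ℕ) (hn : 3 ≤ n) (G : E n → ℂ) (hG : Measurable G) (C : ℝ)
    (hC : ∀ w, ‖G w‖ ≤ C) :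
    ∀ᵐ A : Mat n, ∀ p : ℝ, 2 * (n : ℝ) / (n - 1) < p → ∀ (N : ℕ) (v : Fin N → E n)
      (c : Fin N → ℝ),
      ∫⁻ ξ, ‖extn (fun x => G (mv A x) * ∏ i, hsn (c i) (v i) x) ξ‖ₑ ^ p < ∞ := by
  have hn' : (3 : ℝ) ≤ n := by exact_mod_cast hn
  set K : ℝ := max C 1 with hKdef
  have hK1 : 1 ≤ K := le_max_right _ _
  have hKC : C ≤ K := le_max_left _ _
  have hK0 : 0 < K := by linarith
  have hKc : (K : ℂ) ≠ 0 := by exact_mod_cast hK0.ne'
  have h1 := hfn_one n hn (fun w => (K : ℂ)⁻¹ * G w) (hG.const_mul _) (by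
    intro w
    rw [norm_mul, norm_inv, Complex.norm_real, Real.norm_of_nonneg hK0.le, inv_mul_eq_div,
      div_le_one hK0]
    exact (hC w).trans hKC)
  filter_upwards [h1] with A hA p hp N v c
  have hp0 : 0 ≤ p := by
    have h2 : 0 ≤ 2 * (n : ℝ) / (n - 1) := div_nonneg (by linarith) (by linarith)
    linarith
  have h2 := hA p hp N v c
  have h3 : (fun x : E n => G (mv A x) * ∏ i, hsn (c i) (v i) x)
      = fun x => (K : ℂ) * ((K : ℂ)⁻¹ * G (mv A x) * ∏ i, hsn (c i) (v i) x) := by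
    funext x
    rw [← mul_assoc, ← mul_assoc, mul_inv_cancel₀ hKc, one_mul]
  rw [h3]
  simp only [hfn_extn_const_mul, enorm_mul]
  have hcontA : Continuous (mv A) := continuous_mv.comp (continuous_const.prodMk continuous_id)
  have hm : Measurable fun x : E n => (K : ℂ)⁻¹ * G (mv A x) * ∏ i, hsn (c i) (v i) x :=
    ((hG.comp hcontA.measurable).const_mul _).mul (measurable_prod_hsn c v)
  have hm2 : Measurable fun ξ : E n =>
      ‖extn (fun x => (K : ℂ)⁻¹ * G (mv A x) * ∏ i, hsn (c i) (v i) x) ξ‖ₑ ^ p :=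
    (hfn_measurable_extn _ hm).enorm.pow_const p
  have h4 : ∀ ξ : E n, (‖(K : ℂ)‖ₑ *
      ‖extn (fun x => (K : ℂ)⁻¹ * G (mv A x) * ∏ i, hsn (c i) (v i) x) ξ‖ₑ) ^ p
      = ‖(K : ℂ)‖ₑ ^ p *
        ‖extn (fun x => (K : ℂ)⁻¹ * G (mv A x) * ∏ i, hsn (c i) (v i) x) ξ‖ₑ ^ p := fun ξ =>
    ENNReal.mul_rpow_of_nonneg _ _ hp0
  simp only [h4]
  rw [lintegral_const_mul _ hm2]
  exact ENNReal.mul_lt_top (ENNReal.rpow_lt_top_of_nonneg hp0 enorm_ne_top) h2

end Pool.Agent.AEL
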