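import Pool.Agent.AEL.AG

namespace Pool.Agent.AEL

open MeasureTheory Set Pool.Agent.MP_6cbfb8_an Pool.Agent.MST
open scoped ENNReal Real

/-
ROW A2 (1 h). Rotation. Let O : E (d+1) ≃ₗᵢ E (d+1) with O m = join 0 ‖m‖ (`exists_rot`: m and join 0 ‖m‖ have the same norm; if equal take refl, else the
reflection in the orthogonal complement of their difference, Mathlib `Submodule.reflection_sub`/`reflection_sub`). Let f_b = O.symm (basis vector b), f = O.symm (last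
basis vector): unit vectors, ⟨O.symm (join y' y0), f⟩ = y0, ⟨O.symm (join y' y0), f_b⟩ = y'_b, ⟨m, f⟩ = ‖m‖, ⟨m, f_b⟩ = 0 (b < d).
With A = t0+t1, P, Q as in bil_sq_le, μ = ‖m‖, P' = μP + (A/2) z0, Q' = μQ + (A/2) y0 the squares in QQ A P' Q' y0 z0 y' z' are exactly the left sides of
bil_sq_le for (f, f) [2P'y0 + 2Q'z0 - A y0 z0 = 2μ(P y0 + Q z0) + A y0 z0], (f, f_b) [P'y_b + Q'z_b] and (f_b, f_b) [A y_b z_b]: 1 + 2d of them. And
s² ≤ VV. So κ (s² + QQ) ≤ VV for κ = 1/(1 + (2d+1)(1+5R0²)²).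
-/
theorem exists_rot {d : ℕ} (m : E (d + 1)) : ∃ O : E (d + 1) ≃ₗᵢ[ℝ] E (d + 1),
    O m = join (0 : E d) ‖m‖ := by
  have h : ‖m‖ = ‖join (0 : E d) ‖m‖‖ := by
    have h1 := norm_join_sq (0 : E d) ‖m‖
    rw [norm_zero] at h1
    have h2 : ‖join (0 : E d) ‖m‖‖ ^ 2 = ‖m‖ ^ 2 := by rw [h1]; ring
    exact ((pow_left_inj₀ (norm_nonneg _) (norm_nonneg _) two_ne_zero).1 h2).symm
  exact ⟨Submodule.reflection (ℝ ∙ (m - join (0 : E d) ‖m‖))ᗮ, Submodule.reflection_sub h⟩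

theorem ha2_inner_join {n : ℕ} (x y : E n) (s t : ℝ) :
    inner ℝ (join x s) (join y t) = inner ℝ x y + s * t := by
  unfold join
  simp only [PiLp.inner_apply, Fin.sum_univ_castSucc, Fin.snoc_castSucc, Fin.snoc_last]
  simp [mul_comm]

theorem ha2_norm_join {n : ℕ} {x : E n} {s : ℝ} (h : ‖x‖ ^ 2 + s ^ 2 ≤ 1) : ‖join x s‖ ≤ 1 := by
  rw [← norm_join_sq] at h
  exact (sq_le_one_iff₀ (norm_nonneg _)).1 h

theorem VV_ge (d : ℕ) (R0 : ℝ) : ∃ κ : ℝ, 0 < κ ∧ ∀ (m : E (d + 1)) (O : E (d + 1) ≃ₗᵢ[ℝ] E (d + 1)),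
    O m = join (0 : E d) ‖m‖ → ‖m‖ ≤ R0 → ∀ (y z : E d) (y0 z0 : ℝ) (t : Fin 4 → ℝ),
    ‖join y y0‖ ≤ 2 * R0 → ‖join z z0‖ ≤ 2 * R0 →
    κ * ((t 0 + t 1 - t 2 - t 3) ^ 2 +
      QQ (t 0 + t 1) (‖m‖ * (((t 0 - t 1) + (t 2 - t 3)) / 2) + (t 0 + t 1) / 2 * z0)
        (‖m‖ * (((t 0 - t 1) - (t 2 - t 3)) / 2) + (t 0 + t 1) / 2 * y0) y0 z0 y z) ≤
      VV (m + (1 / 2 : ℝ) • (O.symm (join y y0) + O.symm (join z z0)))
        (O.symm (join y y0)) (O.symm (join z z0)) t := by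
  have hKpos : 0 < (1 + (2 * (d : ℝ) + 1) * (1 + 5 * R0 ^ 2) ^ 2) := by positivity
  refine ⟨(1 + (2 * (d : ℝ) + 1) * (1 + 5 * R0 ^ 2) ^ 2)⁻¹, inv_pos.2 hKpos, ?_⟩
  intro m O hO hm y z y0 z0 t hy hz
  rw [inv_mul_le_iff₀ hKpos]
  set Y : E (d + 1) := O.symm (join y y0) with hYdef
  set Z : E (d + 1) := O.symm (join z z0) with hZdef
  set W : ℝ := VV (m + (1 / 2 : ℝ) • (Y + Z)) Y Z t with hWdef
  have hY : ‖Y‖ ≤ 2 * R0 := by rw [hYdef, LinearIsometryEquiv.norm_map]; exact hy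
  have hZ : ‖Z‖ ≤ 2 * R0 := by rw [hZdef, LinearIsometryEquiv.norm_map]; exact hz
  have hin : ∀ (u v : E (d + 1)), inner ℝ (O.symm u) (O.symm v) = (inner ℝ u v : ℝ) := fun u v =>
    O.symm.inner_map_map u v
  have hmO : m = O.symm (join (0 : E d) ‖m‖) := by
    rw [← hO, LinearIsometryEquiv.symm_apply_apply]
  -- the vectors
  have hf : ‖O.symm (join (0 : E d) 1)‖ ≤ 1 := by
    rw [LinearIsometryEquiv.norm_map]
    exact ha2_norm_join (by rw [norm_zero]; norm_num)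
  have hfb : ∀ b : Fin d, ‖O.symm (join (EuclideanSpace.single b (1 : ℝ)) 0)‖ ≤ 1 := by
    intro b
    rw [LinearIsometryEquiv.norm_map]
    refine ha2_norm_join ?_
    rw [show ‖(EuclideanSpace.single b (1 : ℝ) : E d)‖ = 1 by simp]
    norm_num
  have hYf : inner ℝ Y (O.symm (join (0 : E d) 1)) = y0 := by
    rw [hYdef, hin, ha2_inner_join, inner_zero_right]; ring
  have hZf : inner ℝ Z (O.symm (join (0 : E d) 1)) = z0 := by
    rw [hZdef, hin, ha2_inner_join, inner_zero_right]; ring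
  have hmf : inner ℝ m (O.symm (join (0 : E d) 1)) = ‖m‖ := by
    nth_rewrite 1 [hmO]
    rw [hin, ha2_inner_join, inner_zero_right]; ring
  have hsing : ∀ (x : E d) (b : Fin d), inner ℝ x (EuclideanSpace.single b (1 : ℝ)) = x b := by
    intro x b
    rw [EuclideanSpace.inner_single_right]
    simp
  have hYb : ∀ b : Fin d, inner ℝ Y (O.symm (join (EuclideanSpace.single b (1 : ℝ)) 0)) = y b := by
    intro b
    rw [hYdef, hin, ha2_inner_join, hsing]; ring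
  have hZb : ∀ b : Fin d, inner ℝ Z (O.symm (join (EuclideanSpace.single b (1 : ℝ)) 0)) = z b := by
    intro b
    rw [hZdef, hin, ha2_inner_join, hsing]; ring
  have hmb : ∀ b : Fin d, inner ℝ m (O.symm (join (EuclideanSpace.single b (1 : ℝ)) 0)) = (0:ℝ) := by
    intro b
    rw [hmO, hin, ha2_inner_join, inner_zero_left]; ring
  have h1 := bil_sq_le R0 m Y Z _ _ t hm hY hZ hf hf
  rw [inner_add_left, real_inner_smul_left, real_inner_smul_left, hYf, hZf, hmf, ← hWdef] at h1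
  have h2 : ∀ b : Fin d, ((‖m‖ * (((t 0 - t 1) + (t 2 - t 3)) / 2) + (t 0 + t 1) / 2 * z0) * y b +
      (‖m‖ * (((t 0 - t 1) - (t 2 - t 3)) / 2) + (t 0 + t 1) / 2 * y0) * z b) ^ 2 ≤
      (1 + 5 * R0 ^ 2) ^ 2 * W := by
    intro b
    have h := bil_sq_le R0 m Y Z _ _ t hm hY hZ hf (hfb b)
    rw [inner_add_left, inner_add_left, real_inner_smul_left, real_inner_smul_left,
      real_inner_smul_left, real_inner_smul_left, hYf, hZf, hmf, hYb, hZb, hmb, ← hWdef] at h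
    refine le_trans (le_of_eq ?_) h
    ring
  have h3 : ∀ b : Fin d, ((t 0 + t 1) * (y b * z b)) ^ 2 ≤ (1 + 5 * R0 ^ 2) ^ 2 * W := by
    intro b
    have h := bil_sq_le R0 m Y Z _ _ t hm hY hZ (hfb b) (hfb b)
    rw [inner_add_left, real_inner_smul_left, real_inner_smul_left, hYb, hZb, hmb, ← hWdef] at h
    refine le_trans (le_of_eq ?_) h
    ring
  have h4 : (t 0 + t 1 - t 2 - t 3) ^ 2 ≤ W := by
    rw [hWdef]
    unfold VV
    have : 0 ≤ ∑ i, ∑ j, (t 0 * ((m + (1 / 2 : ℝ) • (Y + Z)) i * (m + (1 / 2 : ℝ) • (Y + Z)) j) +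
      t 1 * ((m + (1 / 2 : ℝ) • (Y + Z) - Y - Z) i * (m + (1 / 2 : ℝ) • (Y + Z) - Y - Z) j) -
      t 2 * ((m + (1 / 2 : ℝ) • (Y + Z) - Y) i * (m + (1 / 2 : ℝ) • (Y + Z) - Y) j) -
      t 3 * ((m + (1 / 2 : ℝ) • (Y + Z) - Z) i * (m + (1 / 2 : ℝ) • (Y + Z) - Z) j)) ^ 2 :=
      Finset.sum_nonneg fun i _ => Finset.sum_nonneg fun j _ => sq_nonneg _
    linarith
  have h5 : ∑ b : Fin d, ((‖m‖ * (((t 0 - t 1) + (t 2 - t 3)) / 2) +
      (t 0 + t 1) / 2 * z0) * y b + (‖m‖ * (((t 0 - t 1) - (t 2 - t 3)) / 2) +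
      (t 0 + t 1) / 2 * y0) * z b) ^ 2 ≤ (d : ℝ) * ((1 + 5 * R0 ^ 2) ^ 2 * W) := by
    refine (Finset.sum_le_sum fun b _ => h2 b).trans (le_of_eq ?_)
    rw [Finset.sum_const, Finset.card_univ, Fintype.card_fin, nsmul_eq_mul]
  have h6 : ∑ b : Fin d, ((t 0 + t 1) * (y b * z b)) ^ 2 ≤
      (d : ℝ) * ((1 + 5 * R0 ^ 2) ^ 2 * W) := by
    refine (Finset.sum_le_sum fun b _ => h3 b).trans (le_of_eq ?_)
    rw [Finset.sum_const, Finset.card_univ, Fintype.card_fin, nsmul_eq_mul]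
  unfold QQ
  have h7 : (2 * (‖m‖ * (((t 0 - t 1) + (t 2 - t 3)) / 2) + (t 0 + t 1) / 2 * z0) * y0 +
      2 * (‖m‖ * (((t 0 - t 1) - (t 2 - t 3)) / 2) + (t 0 + t 1) / 2 * y0) * z0 -
      (t 0 + t 1) * (y0 * z0)) ^ 2 ≤ (1 + 5 * R0 ^ 2) ^ 2 * W := by
    refine le_trans (le_of_eq ?_) h1
    ring
  calc _ ≤ W + ((1 + 5 * R0 ^ 2) ^ 2 * W + (d : ℝ) * ((1 + 5 * R0 ^ 2) ^ 2 * W) +
      (d : ℝ) * ((1 + 5 * R0 ^ 2) ^ 2 * W)) := add_le_add h4 (add_le_add (add_le_add h7 h5) h6)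
    _ = _ := by ring

end Pool.Agent.AEL
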