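import Pool.Agent.AEL.Defs

namespace Pool.Agent.AEL

open MeasureTheory Set Pool.Agent.MP_6cbfb8_an Pool.Agent.MST
open scoped ENNReal Real

theorem hag_inner {n : ℕ} (x y : E n) : (inner ℝ x y : ℝ) = ∑ i, y i * x i := by
  rw [PiLp.inner_apply]
  rfl

theorem hag_cs {n : ℕ} (a b : E n) (Y : Fin n → Fin n → ℝ) (ha : ‖a‖ ≤ 1) (hb : ‖b‖ ≤ 1) :
    (∑ i, ∑ j, (a i * b j) * Y i j) ^ 2 ≤ ∑ i, ∑ j, Y i j ^ 2 := by
  have h1 : (∑ i, ∑ j, (a i * b j) * Y i j) =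
      ∑ p ∈ (Finset.univ : Finset (Fin n)) ×ˢ (Finset.univ : Finset (Fin n)),
        (a p.1 * b p.2) * Y p.1 p.2 := by
    rw [Finset.sum_product]
  have h2 : (∑ i, ∑ j, Y i j ^ 2) =
      ∑ p ∈ (Finset.univ : Finset (Fin n)) ×ˢ (Finset.univ : Finset (Fin n)), Y p.1 p.2 ^ 2 := by
    rw [Finset.sum_product]
  have h3 : ∑ p ∈ (Finset.univ : Finset (Fin n)) ×ˢ (Finset.univ : Finset (Fin n)),
      (a p.1 * b p.2) ^ 2 = ‖a‖ ^ 2 * ‖b‖ ^ 2 := by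
    rw [Finset.sum_product, EuclideanSpace.real_norm_sq_eq, EuclideanSpace.real_norm_sq_eq,
      Finset.sum_mul_sum]
    refine Finset.sum_congr rfl fun i _ => Finset.sum_congr rfl fun j _ => ?_
    rw [mul_pow]
  have h4 := Finset.sum_mul_sq_le_sq_mul_sq
    ((Finset.univ : Finset (Fin n)) ×ˢ (Finset.univ : Finset (Fin n)))
    (fun p => a p.1 * b p.2) (fun p => Y p.1 p.2)
  rw [h1, h2]
  refine h4.trans ?_
  rw [h3]
  have h5 : ‖a‖ ^ 2 * ‖b‖ ^ 2 ≤ 1 := by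
    have ha2 : ‖a‖ ^ 2 ≤ 1 := pow_le_one₀ (norm_nonneg _) ha
    have hb2 : ‖b‖ ^ 2 ≤ 1 := pow_le_one₀ (norm_nonneg _) hb
    calc ‖a‖ ^ 2 * ‖b‖ ^ 2 ≤ 1 * 1 := by gcongr
      _ = 1 := by norm_num
  have h6 : 0 ≤ ∑ p ∈ (Finset.univ : Finset (Fin n)) ×ˢ (Finset.univ : Finset (Fin n)),
      Y p.1 p.2 ^ 2 := by positivity
  calc ‖a‖ ^ 2 * ‖b‖ ^ 2 * _ ≤ 1 * _ := mul_le_mul_of_nonneg_right h5 h6
    _ = _ := one_mul _

theorem hag_abs {n : ℕ} {R : ℝ} {m a : E n} (hm : ‖m‖ ≤ R) (ha : ‖a‖ ≤ 1) :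
    |(inner ℝ m a : ℝ)| ≤ R := by
  refine (abs_real_inner_le_norm m a).trans ?_
  calc ‖m‖ * ‖a‖ ≤ ‖m‖ * 1 := mul_le_mul_of_nonneg_left ha (norm_nonneg _)
    _ ≤ R := by rw [mul_one]; exact hm

/-
ROW AG (1 h). Algebra. Put w = m + (y+z)/2, d = (y+z)/2, e = (z-y)/2, so that w = m + d, w-y-z = m - d, w-y = m + e, w-z = m - e. Let
s = t0+t1-t2-t3, A = t0+t1, and Y_ij the (i,j) entry in VV. Coordinatewise (ring)
Y_ij = s (m_i m_j + e_i e_j) + (m_i v_j + m_j v_i) + (A/2)(y_i z_j + y_j z_i), where v = P y + Q z,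
P = ((t0-t1)+(t2-t3))/2, Q = ((t0-t1)-(t2-t3))/2  [v = (t0-t1) d - (t2-t3) e, d d^T - e e^T = (y z^T + z y^T)/2, t2+t3 = A - s].
Multiply by a_i b_j and sum: B = Σ_ij a_i b_j Y_ij - s (⟨m,a⟩⟨m,b⟩ + ⟨e,a⟩⟨e,b⟩), where B is the left side before squaring. Cauchy-Schwarz:
(Σ a_i b_j Y_ij)² ≤ ‖a‖²‖b‖² Σ Y_ij² ≤ VV, |s| ≤ √VV, |⟨m,a⟩⟨m,b⟩| ≤ R0², ‖e‖ ≤ 2 R0 so |⟨e,a⟩⟨e,b⟩| ≤ 4 R0². Hence |B| ≤ (1 + 5 R0²) √VV.
(inner on E n: `PiLp.inner_apply`, inner ℝ x y = Σ ... ; EuclideanSpace.real_norm_sq_eq or EuclideanSpace.norm_sq_eq.)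
-/
theorem bil_sq_le {n : ℕ} (R0 : ℝ) (m y z a b : E n) (t : Fin 4 → ℝ) (hm : ‖m‖ ≤ R0)
    (hy : ‖y‖ ≤ 2 * R0) (hz : ‖z‖ ≤ 2 * R0) (ha : ‖a‖ ≤ 1) (hb : ‖b‖ ≤ 1) :
    (inner ℝ m a * inner ℝ ((((t 0 - t 1) + (t 2 - t 3)) / 2) • y + (((t 0 - t 1) - (t 2 - t 3)) / 2) • z) b +
      inner ℝ m b * inner ℝ ((((t 0 - t 1) + (t 2 - t 3)) / 2) • y + (((t 0 - t 1) - (t 2 - t 3)) / 2) • z) a +
      (t 0 + t 1) / 2 * (inner ℝ y a * inner ℝ z b + inner ℝ y b * inner ℝ z a) : ℝ) ^ 2 ≤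
      (1 + 5 * R0 ^ 2) ^ 2 * VV (m + (1 / 2 : ℝ) • (y + z)) y z t := by
  have hR0 : 0 ≤ R0 := (norm_nonneg m).trans hm
  set w : E n := m + (1 / 2 : ℝ) • (y + z) with hw
  set e : E n := (1 / 2 : ℝ) • (z - y) with he
  set Y : Fin n → Fin n → ℝ := fun i j => t 0 * (w i * w j) + t 1 * ((w - y - z) i * (w - y - z) j) -
    t 2 * ((w - y) i * (w - y) j) - t 3 * ((w - z) i * (w - z) j) with hY
  set s : ℝ := t 0 + t 1 - t 2 - t 3 with hs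
  set S : ℝ := ∑ i, ∑ j, (a i * b j) * Y i j with hS
  have hVV : VV w y z t = (∑ i, ∑ j, Y i j ^ 2) + s ^ 2 := rfl
  have hprod : ∀ u : E n, ∑ i, ∑ j, (a i * b j) * (u i * u j) = (inner ℝ u a : ℝ) * inner ℝ u b := by
    intro u
    rw [hag_inner, hag_inner, Finset.sum_mul_sum]
    refine Finset.sum_congr rfl fun i _ => Finset.sum_congr rfl fun j _ => ?_
    ring
  have hS2 : S = t 0 * ((inner ℝ w a : ℝ) * inner ℝ w b) +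
      t 1 * ((inner ℝ (w - y - z) a : ℝ) * inner ℝ (w - y - z) b) -
      t 2 * ((inner ℝ (w - y) a : ℝ) * inner ℝ (w - y) b) -
      t 3 * ((inner ℝ (w - z) a : ℝ) * inner ℝ (w - z) b) := by
    rw [← hprod w, ← hprod (w - y - z), ← hprod (w - y), ← hprod (w - z), hS]
    simp only [Finset.mul_sum, ← Finset.sum_add_distrib, ← Finset.sum_sub_distrib]
    refine Finset.sum_congr rfl fun i _ => Finset.sum_congr rfl fun j _ => ?_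
    rw [hY]
    ring
  have hB : (inner ℝ m a * inner ℝ ((((t 0 - t 1) + (t 2 - t 3)) / 2) • y + (((t 0 - t 1) - (t 2 - t 3)) / 2) • z) b +
      inner ℝ m b * inner ℝ ((((t 0 - t 1) + (t 2 - t 3)) / 2) • y + (((t 0 - t 1) - (t 2 - t 3)) / 2) • z) a +
      (t 0 + t 1) / 2 * (inner ℝ y a * inner ℝ z b + inner ℝ y b * inner ℝ z a) : ℝ) =
      S - s * ((inner ℝ m a : ℝ) * inner ℝ m b + (inner ℝ e a : ℝ) * inner ℝ e b) := by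
    rw [hS2, hs, hw, he]
    simp only [inner_add_left, inner_sub_left, real_inner_smul_left]
    ring
  rw [hB]
  have hne : ‖e‖ ≤ 2 * R0 := by
    rw [he, norm_smul]
    have h1 : ‖z - y‖ ≤ 2 * R0 + 2 * R0 := (norm_sub_le z y).trans (add_le_add hz hy)
    have h2 : ‖(1 / 2 : ℝ)‖ = 1 / 2 := by norm_num
    rw [h2]
    linarith
  have k1 := hag_abs hm ha
  have k2 := hag_abs hm hb
  have k3 := hag_abs hne ha
  have k4 := hag_abs hne hb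
  have hK : |(inner ℝ m a : ℝ) * inner ℝ m b + (inner ℝ e a : ℝ) * inner ℝ e b| ≤ 5 * R0 ^ 2 := by
    refine (abs_add_le _ _).trans ?_
    rw [abs_mul, abs_mul]
    have h1 : |(inner ℝ m a : ℝ)| * |(inner ℝ m b : ℝ)| ≤ R0 * R0 :=
      mul_le_mul k1 k2 (abs_nonneg _) hR0
    have h2 : |(inner ℝ e a : ℝ)| * |(inner ℝ e b : ℝ)| ≤ (2 * R0) * (2 * R0) :=
      mul_le_mul k3 k4 (abs_nonneg _) (by positivity)
    nlinarith
  have hSN : S ^ 2 ≤ ∑ i, ∑ j, Y i j ^ 2 := hag_cs a b Y ha hb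
  have hN0 : 0 ≤ ∑ i, ∑ j, Y i j ^ 2 := by positivity
  have hV0 : 0 ≤ VV w y z t := by
    rw [hVV]
    positivity
  have hSa : |S| ≤ √(VV w y z t) := by
    apply Real.abs_le_sqrt
    rw [hVV]
    nlinarith [sq_nonneg s]
  have hsa : |s| ≤ √(VV w y z t) := by
    apply Real.abs_le_sqrt
    rw [hVV]
    linarith
  have hfin : |S - s * ((inner ℝ m a : ℝ) * inner ℝ m b + (inner ℝ e a : ℝ) * inner ℝ e b)| ≤
      (1 + 5 * R0 ^ 2) * √(VV w y z t) := by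
    refine (abs_sub _ _).trans ?_
    rw [abs_mul]
    have h1 : |s| * |(inner ℝ m a : ℝ) * inner ℝ m b + (inner ℝ e a : ℝ) * inner ℝ e b| ≤
        √(VV w y z t) * (5 * R0 ^ 2) :=
      mul_le_mul hsa hK (abs_nonneg _) (Real.sqrt_nonneg _)
    linarith
  calc (S - s * ((inner ℝ m a : ℝ) * inner ℝ m b + (inner ℝ e a : ℝ) * inner ℝ e b)) ^ 2
      = |S - s * ((inner ℝ m a : ℝ) * inner ℝ m b + (inner ℝ e a : ℝ) * inner ℝ e b)| ^ 2 :=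
        (sq_abs _).symm
    _ ≤ ((1 + 5 * R0 ^ 2) * √(VV w y z t)) ^ 2 := by gcongr
    _ = (1 + 5 * R0 ^ 2) ^ 2 * VV w y z t := by
        rw [mul_pow, Real.sq_sqrt hV0]

end Pool.Agent.AEL
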