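import Pool.Agent.AEL.Defs

namespace Pool.Agent.AEL

open MeasureTheory Set Pool.Agent.MP_6cbfb8_an Pool.Agent.MST
open scoped ENNReal Real

/-
ROW LT (1 h). Linear change of variables on the box. Extend F by zero outside: put
g(A,s,P,Q) = F A s P Q if A ∈ [2R,4R], P, Q ∈ [-R,R], else 0; for t ∈ Box R the arguments are in this range (|t_i - t_j| ≤ R). So the left side is
≤ ∫⁻ over all t ∈ ℝ^4 of g(...). Iterated: (t0,t1) ↦ (A,B) = (t0+t1, t0-t1): ∫∫ f(a+b, a-b) da db = (1/2) ∫∫ f(A,B) dA dB (translate a, then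
b ↦ A - 2b: lintegral_comp_mul_left / Measure scaling); same for (t2,t3) ↦ (A',B'); A' = A - s (reflection); (B,B') ↦ (P,Q) = ((B+B')/2,(B-B')/2) has factor 2.
Total factor 1/2 ≤ 1. (Or one linear map with determinant ±2 and Measure.addHaar_preimage_linearMap / map_linearMap_addHaar_eq_smul_addHaar on
Fin 4 → ℝ.) volume on Fin 4 → ℝ is the product measure.
-/
theorem hlt_succ {n : ℕ} (g : ℝ × (Fin n → ℝ) → ℝ≥0∞) (hg : Measurable g) :
    ∫⁻ u : Fin (n + 1) → ℝ, g (u 0, fun i => u i.succ) =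
      ∫⁻ a : ℝ, ∫⁻ v : Fin n → ℝ, g (a, v) := by
  have h := (volume_preserving_piFinSuccAbove (fun _ : Fin (n + 1) => ℝ) 0).lintegral_comp hg
  rw [Measure.volume_eq_prod, lintegral_prod _ hg.aemeasurable] at h
  rw [← h]
  refine lintegral_congr fun u => ?_
  congr 1

theorem hlt_four (G : ℝ → ℝ → ℝ → ℝ → ℝ≥0∞)
    (hG : Measurable fun q : ℝ × ℝ × ℝ × ℝ => G q.1 q.2.1 q.2.2.1 q.2.2.2) :
    ∫⁻ u : Fin 4 → ℝ, G (u 0) (u 1) (u 2) (u 3) = ∫⁻ a, ∫⁻ b, ∫⁻ c, ∫⁻ d, G a b c d := by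
  have hG' : ∀ {α : Type} [MeasurableSpace α] (f1 f2 f3 f4 : α → ℝ), Measurable f1 →
      Measurable f2 → Measurable f3 → Measurable f4 →
      Measurable fun x => G (f1 x) (f2 x) (f3 x) (f4 x) := fun f1 f2 f3 f4 h1 h2 h3 h4 =>
    hG.comp (h1.prodMk (h2.prodMk (h3.prodMk h4)))
  have e1 := hlt_succ (n := 3) (fun q => G q.1 (q.2 0) (q.2 1) (q.2 2))
    (hG' _ _ _ _ measurable_fst ((measurable_pi_apply _).comp measurable_snd)
      ((measurable_pi_apply _).comp measurable_snd) ((measurable_pi_apply _).comp measurable_snd))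
  refine e1.trans (lintegral_congr fun a => ?_)
  have e2 := hlt_succ (n := 2) (fun q => G a q.1 (q.2 0) (q.2 1))
    (hG' _ _ _ _ measurable_const measurable_fst
      ((measurable_pi_apply _).comp measurable_snd) ((measurable_pi_apply _).comp measurable_snd))
  refine e2.trans (lintegral_congr fun b => ?_)
  have e3 := hlt_succ (n := 1) (fun q => G a b q.1 (q.2 0))
    (hG' _ _ _ _ measurable_const measurable_const measurable_fst
      ((measurable_pi_apply _).comp measurable_snd))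
  refine e3.trans (lintegral_congr fun c => ?_)
  have e4 := (volume_preserving_funUnique (Fin 1) ℝ).lintegral_comp
    (f := fun d => G a b c d) (hG' _ _ _ _ measurable_const measurable_const measurable_const
      measurable_id)
  exact e4

/-- the matrix of the change of variables -/
noncomputable def hlt_M : Matrix (Fin 4) (Fin 4) ℝ :=
  !![1, 1, 0, 0; 1, 1, -1, -1; 1/2, -1/2, 1/2, -1/2; 1/2, -1/2, -1/2, 1/2]

theorem hlt_det : hlt_M.det = -2 ∨ hlt_M.det = 2 := by
  unfold hlt_M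
  simp [Matrix.det_succ_row_zero, Fin.sum_univ_succ, Fin.succAbove, Matrix.submatrix]
  norm_num

theorem hlt_lin (G : ℝ → ℝ → ℝ → ℝ → ℝ≥0∞)
    (hG : Measurable fun q : ℝ × ℝ × ℝ × ℝ => G q.1 q.2.1 q.2.2.1 q.2.2.2) :
    ∫⁻ t : Fin 4 → ℝ, G (t 0 + t 1) (t 0 + t 1 - t 2 - t 3) (((t 0 - t 1) + (t 2 - t 3)) / 2)
      (((t 0 - t 1) - (t 2 - t 3)) / 2) ≤ ∫⁻ a, ∫⁻ b, ∫⁻ c, ∫⁻ d, G a b c d := by
  have hdet : hlt_M.det ≠ 0 := by
    rcases hlt_det with h | h <;> rw [h] <;> norm_num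
  have habs : |(hlt_M.det)⁻¹| ≤ 1 := by
    rcases hlt_det with h | h <;> rw [h] <;> norm_num [abs_of_pos, abs_of_neg]
  rw [← hlt_four G hG]
  have hm : Measurable fun u : Fin 4 → ℝ => G (u 0) (u 1) (u 2) (u 3) := by
    have h4 : Measurable fun u : Fin 4 → ℝ => ((u 0, u 1, u 2, u 3) : ℝ × ℝ × ℝ × ℝ) :=
      (measurable_pi_apply 0).prodMk ((measurable_pi_apply 1).prodMk
        ((measurable_pi_apply 2).prodMk (measurable_pi_apply 3)))
    exact hG.comp h4
  have hmap := Real.map_matrix_volume_pi_eq_smul_volume_pi hdet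
  have hmeas : Measurable (Matrix.toLin' hlt_M) :=
    (LinearMap.continuous_of_finiteDimensional _).measurable
  have h1 : ∫⁻ t : Fin 4 → ℝ, (fun u : Fin 4 → ℝ => G (u 0) (u 1) (u 2) (u 3))
      (Matrix.toLin' hlt_M t) = ENNReal.ofReal |(hlt_M.det)⁻¹| *
      ∫⁻ u : Fin 4 → ℝ, G (u 0) (u 1) (u 2) (u 3) := by
    rw [← lintegral_map hm hmeas, hmap, lintegral_smul_measure, smul_eq_mul]
  have h2 : ∀ t : Fin 4 → ℝ, G (t 0 + t 1) (t 0 + t 1 - t 2 - t 3)
      (((t 0 - t 1) + (t 2 - t 3)) / 2) (((t 0 - t 1) - (t 2 - t 3)) / 2) =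
      (fun u : Fin 4 → ℝ => G (u 0) (u 1) (u 2) (u 3)) (Matrix.toLin' hlt_M t) := by
    intro t
    have a0 : (Matrix.toLin' hlt_M t) 0 = t 0 + t 1 := by
      simp [hlt_M, Matrix.toLin'_apply, Matrix.mulVec, dotProduct, Fin.sum_univ_four]
    have a1 : (Matrix.toLin' hlt_M t) 1 = t 0 + t 1 - t 2 - t 3 := by
      simp [hlt_M, Matrix.toLin'_apply, Matrix.mulVec, dotProduct, Fin.sum_univ_four]
      ring
    have a2 : (Matrix.toLin' hlt_M t) 2 = ((t 0 - t 1) + (t 2 - t 3)) / 2 := by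
      simp [hlt_M, Matrix.toLin'_apply, Matrix.mulVec, dotProduct, Fin.sum_univ_four]
      ring
    have a3 : (Matrix.toLin' hlt_M t) 3 = ((t 0 - t 1) - (t 2 - t 3)) / 2 := by
      simp [hlt_M, Matrix.toLin'_apply, Matrix.mulVec, dotProduct, Fin.sum_univ_four]
      ring
    simp only [a0, a1, a2, a3]
  rw [lintegral_congr h2, h1]
  calc ENNReal.ofReal |(hlt_M.det)⁻¹| * ∫⁻ u : Fin 4 → ℝ, G (u 0) (u 1) (u 2) (u 3)
      ≤ 1 * ∫⁻ u : Fin 4 → ℝ, G (u 0) (u 1) (u 2) (u 3) := by
        gcongr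
        exact ENNReal.ofReal_le_one.2 habs
    _ = _ := one_mul _

theorem box_change (R : ℝ) (F : ℝ → ℝ → ℝ → ℝ → ℝ≥0∞)
    (hF : Measurable fun q : ℝ × ℝ × ℝ × ℝ => F q.1 q.2.1 q.2.2.1 q.2.2.2) :
    ∫⁻ t in Box R, F (t 0 + t 1) (t 0 + t 1 - t 2 - t 3) (((t 0 - t 1) + (t 2 - t 3)) / 2)
      (((t 0 - t 1) - (t 2 - t 3)) / 2) ≤
    ∫⁻ A in Icc (2 * R) (4 * R), ∫⁻ s : ℝ, ∫⁻ P in Icc (-R) R, ∫⁻ Q in Icc (-R) R, F A s P Q := by
  classical
  set T : Set (ℝ × ℝ × ℝ × ℝ) := Icc (2 * R) (4 * R) ×ˢ (univ ×ˢ (Icc (-R) R ×ˢ Icc (-R) R))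
    with hT
  have hTm : MeasurableSet T :=
    measurableSet_Icc.prod (MeasurableSet.univ.prod (measurableSet_Icc.prod measurableSet_Icc))
  set G : ℝ → ℝ → ℝ → ℝ → ℝ≥0∞ := fun a b c d =>
    T.indicator (fun q : ℝ × ℝ × ℝ × ℝ => F q.1 q.2.1 q.2.2.1 q.2.2.2) (a, b, c, d) with hGdef
  have hG : Measurable fun q : ℝ × ℝ × ℝ × ℝ => G q.1 q.2.1 q.2.2.1 q.2.2.2 :=
    hF.indicator hTm
  have hBox : MeasurableSet (Box R) := by
    have : Box R = Set.pi univ fun _ : Fin 4 => Icc R (2 * R) := by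
      ext t
      exact ⟨fun h i _ => h i, fun h i => h i trivial⟩
    rw [this]
    exact MeasurableSet.univ_pi fun _ => measurableSet_Icc
  calc (∫⁻ t in Box R, F (t 0 + t 1) (t 0 + t 1 - t 2 - t 3) (((t 0 - t 1) + (t 2 - t 3)) / 2)
        (((t 0 - t 1) - (t 2 - t 3)) / 2))
      ≤ ∫⁻ t in Box R, G (t 0 + t 1) (t 0 + t 1 - t 2 - t 3) (((t 0 - t 1) + (t 2 - t 3)) / 2)
          (((t 0 - t 1) - (t 2 - t 3)) / 2) := by
        refine setLIntegral_mono' hBox fun t ht => ?_
        have h0 := ht 0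
        have h1 := ht 1
        have h2 := ht 2
        have h3 := ht 3
        rw [hGdef]
        simp only
        rw [indicator_of_mem]
        refine ⟨⟨by linarith, by linarith⟩, trivial, ⟨by linarith, by linarith⟩, by linarith,
          by linarith⟩
    _ ≤ ∫⁻ t : Fin 4 → ℝ, G (t 0 + t 1) (t 0 + t 1 - t 2 - t 3)
          (((t 0 - t 1) + (t 2 - t 3)) / 2) (((t 0 - t 1) - (t 2 - t 3)) / 2) :=
        setLIntegral_le_lintegral _ _
    _ ≤ ∫⁻ a, ∫⁻ b, ∫⁻ c, ∫⁻ d, G a b c d := hlt_lin G hG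
    _ = _ := by
        rw [← lintegral_indicator measurableSet_Icc]
        refine lintegral_congr fun a => ?_
        by_cases ha : a ∈ Icc (2 * R) (4 * R)
        · rw [indicator_of_mem ha]
          refine lintegral_congr fun b => ?_
          rw [← lintegral_indicator measurableSet_Icc]
          refine lintegral_congr fun c => ?_
          by_cases hc : c ∈ Icc (-R) R
          · rw [indicator_of_mem hc, ← lintegral_indicator measurableSet_Icc]
            refine lintegral_congr fun d => ?_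
            by_cases hd : d ∈ Icc (-R) R
            · rw [indicator_of_mem hd, hGdef]
              simp only
              rw [indicator_of_mem]
              exact ⟨ha, trivial, hc, hd⟩
            · rw [indicator_of_notMem hd, hGdef]
              simp only
              rw [indicator_of_notMem]
              exact fun h => hd h.2.2.2
          · rw [indicator_of_notMem hc, ← lintegral_zero (μ := (volume : Measure ℝ))]
            refine lintegral_congr fun d => ?_
            rw [hGdef]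
            simp only
            rw [indicator_of_notMem]
            exact fun h => hc h.2.2.1
        · rw [indicator_of_notMem ha, ← lintegral_zero (μ := (volume : Measure ℝ))]
          refine lintegral_congr fun b => ?_
          rw [← lintegral_zero (μ := (volume : Measure ℝ))]
          refine lintegral_congr fun c => ?_
          rw [← lintegral_zero (μ := (volume : Measure ℝ))]
          refine lintegral_congr fun d => ?_
          rw [hGdef]
          simp only
          rw [indicator_of_notMem]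
          exact fun h => ha h.1

end Pool.Agent.AEL
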