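import Pool.Agent.AEL.A2
import Pool.Agent.AEL.LT

namespace Pool.Agent.AEL

open MeasureTheory Set Pool.Agent.MP_6cbfb8_an Pool.Agent.MST
open scoped ENNReal Real

/-
ROW AS (1 h). Rotation. O from `exists_rot`, κ from `VV_ge`, c := π κ. y ↦ O.symm y preserves the measure and the ball
(LinearIsometryEquiv.measurePreserving, MeasurePreserving.setLIntegral_comp_preimage...): the left side equals the integral with y, z replaced by
O.symm y, O.symm z. Then y = join y' y0 (`lintegral_join`, with indicators); the ball of radius 2 R0 is contained in {y' ∈ cube d (2R0), |y0| ≤ 2R0}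
(|y b| ≤ ‖y‖, norm_join_sq). In the ball use VV_ge: π VV ≥ c (s² + QQ). All integrands measurable (continuous).
-/
theorem has_VV_cont {n : ℕ} : Continuous fun q : (E n × E n × E n) × (Fin 4 → ℝ) =>
    VV q.1.1 q.1.2.1 q.1.2.2 q.2 := by
  unfold VV
  fun_prop

theorem has_mono {α : Type*} [MeasurableSpace α] {μ : Measure α} {s : Set α} (hs : MeasurableSet s)
    {f g : α → ℝ≥0∞} (h1 : ∀ x ∈ s, f x ≤ g x) (h0 : ∀ x, x ∉ s → f x = 0) :
    ∫⁻ x, f x ∂μ ≤ ∫⁻ x in s, g x ∂μ := by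
  rw [← lintegral_indicator hs]
  refine lintegral_mono fun x => ?_
  by_cases hx : x ∈ s
  · rw [indicator_of_mem hx]
    exact h1 x hx
  · rw [h0 x hx]
    exact zero_le

theorem has_cube_meas (d : ℕ) (C : ℝ) : MeasurableSet (cube d C) := by
  unfold cube
  have h : {y : E d | ∀ b, |y b| ≤ C} = ⋂ b, {y : E d | |y b| ≤ C} := by
    ext y
    simp
  rw [h]
  refine MeasurableSet.iInter fun b => ?_
  exact measurableSet_le (by fun_prop) measurable_const

theorem has_mem {d : ℕ} {C : ℝ} (hC : 0 ≤ C) {y : E d} {t : ℝ} (h : ‖join y t‖ ≤ C) :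
    y ∈ cube d C ∧ t ∈ Icc (-C) C := by
  have h1 := norm_join_sq y t
  have h2 : ‖join y t‖ ^ 2 ≤ C ^ 2 := pow_le_pow_left₀ (norm_nonneg _) h 2
  constructor
  · intro b
    have h3 : ‖y b‖ ≤ ‖y‖ := PiLp.norm_apply_le y b
    have h4 : ‖y‖ ^ 2 ≤ C ^ 2 := by nlinarith [sq_nonneg t]
    have h5 : ‖y‖ ≤ C := abs_le_of_sq_le_sq' h4 hC |>.2
    exact h3.trans h5
  · have h4 : t ^ 2 ≤ C ^ 2 := by nlinarith [sq_nonneg ‖y‖]
    exact abs_le_of_sq_le_sq' h4 hC

theorem has_rot {n : ℕ} (O : E n ≃ₗᵢ[ℝ] E n) (C : ℝ) (f : E n → ℝ≥0∞) :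
    ∫⁻ y in Metric.closedBall (0 : E n) C, f y = ∫⁻ y in Metric.closedBall (0 : E n) C, f (O y) := by
  have h := (O.measurePreserving).setLIntegral_comp_preimage_emb
    O.toHomeomorph.measurableEmbedding f (Metric.closedBall (0 : E n) C)
  have h2 : O ⁻¹' (Metric.closedBall (0 : E n) C) = Metric.closedBall (0 : E n) C := by
    ext y
    rw [mem_preimage, mem_closedBall_zero_iff, mem_closedBall_zero_iff, O.norm_map]
  rw [h2] at h
  exact h.symm

/-- the integrals over the ball in the coordinates `join` -/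
theorem has_ball {d : ℕ} {C : ℝ} (hC : 0 ≤ C) {F : E (d + 1) → ℝ≥0∞} (hF : Measurable F)
    {g : E d → ℝ → ℝ≥0∞} (h : ∀ y t, ‖join y t‖ ≤ C → F (join y t) ≤ g y t) :
    ∫⁻ y in Metric.closedBall (0 : E (d + 1)) C, F y ≤
      ∫⁻ y in cube d C, ∫⁻ y0 in Icc (-C) C, g y y0 := by
  rw [← lintegral_indicator measurableSet_closedBall,
    lintegral_join d _ (hF.indicator measurableSet_closedBall)]
  have h0 : ∀ (y : E d) (t : ℝ), ¬ ‖join y t‖ ≤ C →
      (Metric.closedBall (0 : E (d + 1)) C).indicator F (join y t) = 0 := fun y t hn =>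
    indicator_of_notMem (fun hm => hn (mem_closedBall_zero_iff.1 hm)) _
  refine has_mono (has_cube_meas d C) (fun y _ => has_mono measurableSet_Icc (fun t _ => ?_)
    (fun t ht => ?_)) (fun y hy => ?_)
  · by_cases hn : ‖join y t‖ ≤ C
    · rw [indicator_of_mem (mem_closedBall_zero_iff.2 hn)]
      exact h y t hn
    · rw [h0 y t hn]
      exact zero_le
  · exact h0 y t fun hn => ht (has_mem hC hn).2
  · refine (lintegral_congr fun t => ?_).trans lintegral_zero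
    exact h0 y t fun hn => hy (has_mem hC hn).1

theorem has_meas {n : ℕ} (O : E n ≃ₗᵢ[ℝ] E n) (m : E n) (R : ℝ) :
    Measurable fun p : E n × E n => ∫⁻ t in Box R, ENNReal.ofReal (Real.exp (-(π *
      VV (m + (1 / 2 : ℝ) • (O p.1 + O p.2)) (O p.1) (O p.2) t))) := by
  have h1 : Continuous fun q : (E n × E n) × (Fin 4 → ℝ) => O q.1.1 :=
    O.continuous.comp (continuous_fst.comp continuous_fst)
  have h2 : Continuous fun q : (E n × E n) × (Fin 4 → ℝ) => O q.1.2 :=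
    O.continuous.comp (continuous_snd.comp continuous_fst)
  have h3 : Continuous fun q : (E n × E n) × (Fin 4 → ℝ) => m + (1 / 2 : ℝ) • (O q.1.1 + O q.1.2) :=
    continuous_const.add (Continuous.const_smul (h1.add h2) (1 / 2 : ℝ))
  have hf : Continuous fun q : (E n × E n) × (Fin 4 → ℝ) =>
      (((m + (1 / 2 : ℝ) • (O q.1.1 + O q.1.2), O q.1.1, O q.1.2), q.2) :
        (E n × E n × E n) × (Fin 4 → ℝ)) := (h3.prodMk (h1.prodMk h2)).prodMk continuous_snd
  have h4 : Continuous ((fun q : (E n × E n × E n) × (Fin 4 → ℝ) => VV q.1.1 q.1.2.1 q.1.2.2 q.2) ∘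
      (fun q : (E n × E n) × (Fin 4 → ℝ) =>
      (((m + (1 / 2 : ℝ) • (O q.1.1 + O q.1.2), O q.1.1, O q.1.2), q.2) :
        (E n × E n × E n) × (Fin 4 → ℝ)))) := has_VV_cont.comp hf
  have h5 : Measurable fun q : (E n × E n) × (Fin 4 → ℝ) =>
      VV (m + (1 / 2 : ℝ) • (O q.1.1 + O q.1.2)) (O q.1.1) (O q.1.2) q.2 := h4.measurable
  have h6 : Measurable fun q : (E n × E n) × (Fin 4 → ℝ) => ENNReal.ofReal (Real.exp (-(π *
      VV (m + (1 / 2 : ℝ) • (O q.1.1 + O q.1.2)) (O q.1.1) (O q.1.2) q.2))) :=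
    (Real.measurable_exp.comp (h5.const_mul π).neg).ennreal_ofReal
  exact h6.lintegral_prod_right'

theorem rotate_m (d : ℕ) (R0 : ℝ) (hR0 : 1 ≤ R0) : ∃ c : ℝ, 0 < c ∧ ∀ R : ℝ, 1 ≤ R →
    ∀ m : E (d + 1), ‖m‖ ≤ R0 →
    ∫⁻ y in Metric.closedBall (0 : E (d + 1)) (2 * R0),
      ∫⁻ z in Metric.closedBall (0 : E (d + 1)) (2 * R0), ∫⁻ t in Box R,
        ENNReal.ofReal (Real.exp (-(π * VV (m + (1 / 2 : ℝ) • (y + z)) y z t))) ≤
    ∫⁻ y in cube d (2 * R0), ∫⁻ y0 in Icc (-(2 * R0)) (2 * R0), ∫⁻ z in cube d (2 * R0),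
      ∫⁻ z0 in Icc (-(2 * R0)) (2 * R0), ∫⁻ t in Box R,
        ENNReal.ofReal (Real.exp (-(c * ((t 0 + t 1 - t 2 - t 3) ^ 2 +
          QQ (t 0 + t 1) (‖m‖ * (((t 0 - t 1) + (t 2 - t 3)) / 2) + (t 0 + t 1) / 2 * z0)
            (‖m‖ * (((t 0 - t 1) - (t 2 - t 3)) / 2) + (t 0 + t 1) / 2 * y0) y0 z0 y z)))) := by
  obtain ⟨κ, hκ, hVV⟩ := VV_ge d R0
  refine ⟨π * κ, mul_pos Real.pi_pos hκ, ?_⟩
  intro R _ m hm
  obtain ⟨O, hO⟩ := exists_rot m
  have hC : 0 ≤ 2 * R0 := by linarith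
  have hmeas := has_meas O.symm m R
  rw [has_rot O.symm]
  have h1 : ∀ y : E (d + 1), ∫⁻ z in Metric.closedBall (0 : E (d + 1)) (2 * R0), ∫⁻ t in Box R,
        ENNReal.ofReal (Real.exp (-(π * VV (m + (1 / 2 : ℝ) • (O.symm y + z)) (O.symm y) z t))) =
      ∫⁻ z in Metric.closedBall (0 : E (d + 1)) (2 * R0), ∫⁻ t in Box R,
        ENNReal.ofReal (Real.exp (-(π * VV (m + (1 / 2 : ℝ) • (O.symm y + O.symm z)) (O.symm y)
          (O.symm z) t))) := fun y => has_rot O.symm (2 * R0) _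
  rw [lintegral_congr h1]
  have hm1 : Measurable fun y : E (d + 1) =>
      ∫⁻ z in Metric.closedBall (0 : E (d + 1)) (2 * R0), ∫⁻ t in Box R,
        ENNReal.ofReal (Real.exp (-(π * VV (m + (1 / 2 : ℝ) • (O.symm y + O.symm z)) (O.symm y)
          (O.symm z) t))) := hmeas.lintegral_prod_right'
  refine has_ball hC hm1 fun y y0 hy => ?_
  have hm2 : Measurable fun z : E (d + 1) => ∫⁻ t in Box R,
        ENNReal.ofReal (Real.exp (-(π * VV (m + (1 / 2 : ℝ) • (O.symm (join y y0) + O.symm z))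
          (O.symm (join y y0)) (O.symm z) t))) := by
    have h := Measurable.comp (g := fun p : E (d + 1) × E (d + 1) => ∫⁻ t in Box R,
      ENNReal.ofReal (Real.exp (-(π * VV (m + (1 / 2 : ℝ) • (O.symm p.1 + O.symm p.2)) (O.symm p.1)
        (O.symm p.2) t)))) (f := fun z : E (d + 1) => (join y y0, z)) hmeas measurable_prodMk_left
    exact h
  refine has_ball hC hm2 fun z z0 hz => ?_
  refine lintegral_mono fun t => ?_
  apply ENNReal.ofReal_le_ofReal
  apply Real.exp_le_exp.2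
  have h2 := hVV m O hO hm y z y0 z0 t hy hz
  have h3 := mul_le_mul_of_nonneg_left h2 Real.pi_pos.le
  rw [← mul_assoc] at h3
  exact neg_le_neg h3

end Pool.Agent.AEL
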