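import Pool.Agent.AEL.V4

namespace Pool.Agent.AEL

open MeasureTheory Set Pool.Agent.MP_6cbfb8_an Pool.Agent.MST
open scoped ENNReal Real

theorem hv5_swap {α β : Type*} [MeasurableSpace α] [MeasurableSpace β] (μ : Measure α)
    (ν : Measure β) [SFinite μ] [SFinite ν] (f : α → α → β → β → ℝ≥0∞)
    (hf : Measurable fun q : (α × α) × (β × β) => f q.1.1 q.1.2 q.2.1 q.2.2) :
    ∫⁻ P, ∫⁻ Q, ∫⁻ y, ∫⁻ z, f P Q y z ∂ν ∂ν ∂μ ∂μ =
      ∫⁻ y, ∫⁻ z, ∫⁻ P, ∫⁻ Q, f P Q y z ∂μ ∂μ ∂ν ∂ν := by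
  have h1 : ∀ P Q, ∫⁻ y, ∫⁻ z, f P Q y z ∂ν ∂ν = ∫⁻ k : β × β, f P Q k.1 k.2 ∂(ν.prod ν) := by
    intro P Q
    have hm : Measurable fun k : β × β => f P Q k.1 k.2 :=
      hf.comp (Measurable.prodMk (measurable_const (a := (P, Q))) measurable_id)
    rw [lintegral_prod _ hm.aemeasurable]
  have h2 : ∀ y z, ∫⁻ P, ∫⁻ Q, f P Q y z ∂μ ∂μ = ∫⁻ p : α × α, f p.1 p.2 y z ∂(μ.prod μ) := by
    intro y z
    have hm : Measurable fun p : α × α => f p.1 p.2 y z :=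
      hf.comp (Measurable.prodMk measurable_id (measurable_const (a := (y, z))))
    rw [lintegral_prod _ hm.aemeasurable]
  have h3 : ∫⁻ P, ∫⁻ Q, (∫⁻ k : β × β, f P Q k.1 k.2 ∂(ν.prod ν)) ∂μ ∂μ =
      ∫⁻ p : α × α, (∫⁻ k : β × β, f p.1 p.2 k.1 k.2 ∂(ν.prod ν)) ∂(μ.prod μ) := by
    have hm : Measurable fun p : α × α => ∫⁻ k : β × β, f p.1 p.2 k.1 k.2 ∂(ν.prod ν) :=
      Measurable.lintegral_prod_right' (f := fun q : (α × α) × (β × β) =>
        f q.1.1 q.1.2 q.2.1 q.2.2) hf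
    rw [lintegral_prod _ hm.aemeasurable]
  have h4 : ∫⁻ y, ∫⁻ z, (∫⁻ p : α × α, f p.1 p.2 y z ∂(μ.prod μ)) ∂ν ∂ν =
      ∫⁻ k : β × β, (∫⁻ p : α × α, f p.1 p.2 k.1 k.2 ∂(μ.prod μ)) ∂(ν.prod ν) := by
    have hm : Measurable fun k : β × β => ∫⁻ p : α × α, f p.1 p.2 k.1 k.2 ∂(μ.prod μ) :=
      Measurable.lintegral_prod_left' (f := fun q : (α × α) × (β × β) =>
        f q.1.1 q.1.2 q.2.1 q.2.2) hf
    rw [lintegral_prod _ hm.aemeasurable]
  simp only [h1, h2]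
  rw [h3, h4]
  exact lintegral_lintegral_swap (f := fun (p : α × α) (k : β × β) => f p.1 p.2 k.1 k.2)
    hf.aemeasurable

theorem hv5_gauss (c : ℝ) (hc : 0 < c) :
    ∫⁻ s : ℝ, ENNReal.ofReal (Real.exp (-(c * s ^ 2))) = ENNReal.ofReal √(π / c) := by
  rw [← integral_gaussian, ofReal_integral_eq_lintegral_ofReal (integrable_exp_neg_mul_sq hc)
    (Filter.Eventually.of_forall fun _ => (Real.exp_pos _).le)]
  apply lintegral_congr
  intro s
  rw [neg_mul]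

/-
ROW V5 (0.8 h). exp(-c(s² + QQ)) = exp(-c s²) · exp(-c (2P y0 + 2Q z0 - A (y0 z0))²) · exp(-c (Σ (P y_b + Q z_b)² + Σ (A (y_b z_b))²)). For fixed
A, s, P, Q, y, z the integral over (y0, z0) is ≤ exp(..)exp(..) · C (1 + log R)/R by `hyp`. Then Tonelli (P, Q outside → inside) and `vol`; then
∫⁻ s exp(-c s²) = √(π/c), and ∫⁻ A over Icc (2R) (4R) gives the factor 2R. Total C (1+log R)/R · (1+log R)^d / R^(d-1) · R.
-/
theorem master (d : ℕ) (hd : 2 ≤ d) (c C0 K0 : ℝ) (hc : 0 < c) (hC0 : 1 ≤ C0) (hK0 : 1 ≤ K0) :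
    ∃ C : ℝ, 0 < C ∧ ∀ R : ℝ, 1 ≤ R →
      MI d c C0 K0 R ≤ ENNReal.ofReal (C * (1 + Real.log R) ^ (d + 1) / R ^ (d - 1)) := by
  obtain ⟨C1, hC1, hyp1⟩ := hyp c C0 hc hC0
  obtain ⟨C2, hC2, vol2⟩ := vol d hd c C0 K0 hc hC0 hK0
  have hpi : 0 < √(π / c) := Real.sqrt_pos.2 (div_pos Real.pi_pos hc)
  refine ⟨√(π / c) * C1 * C2 * 2, by positivity, ?_⟩
  intro R hR
  have hR0 : 0 < R := lt_of_lt_of_le one_pos hR
  have hlog : 0 ≤ 1 + Real.log R := by
    have := Real.log_nonneg hR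
    linarith
  set K1 : ℝ≥0∞ := ENNReal.ofReal (C1 * (1 + Real.log R) / R) with hK1
  set K2 : ℝ≥0∞ := ENNReal.ofReal (C2 * (1 + Real.log R) ^ d / R ^ (d - 1)) with hK2
  have hK1t : K1 ≠ ⊤ := ENNReal.ofReal_ne_top
  set g : ℝ → ℝ → ℝ → E d → E d → ℝ≥0∞ := fun A P Q y z =>
    ENNReal.ofReal (Real.exp (-(c * ((∑ b, (P * y b + Q * z b) ^ 2) +
          ∑ b, (A * (y b * z b)) ^ 2)))) with hg
  set es : ℝ → ℝ≥0∞ := fun s => ENNReal.ofReal (Real.exp (-(c * s ^ 2))) with hes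
  -- the two inner integrals
  have inner1 : ∀ A ∈ Icc (2 * R) (4 * R), ∀ (s P Q : ℝ) (y z : E d),
      ∫⁻ y0 in Icc (-C0) C0, ∫⁻ z0 in Icc (-C0) C0,
        ENNReal.ofReal (Real.exp (-(c * (s ^ 2 + QQ A P Q y0 z0 y z)))) ≤
      (es s * K1) * g A P Q y z := by
    intro A hA s P Q y z
    have h1 : ∀ y0 z0 : ℝ, ENNReal.ofReal (Real.exp (-(c * (s ^ 2 + QQ A P Q y0 z0 y z)))) =
        (es s * g A P Q y z) *
          ENNReal.ofReal (Real.exp (-(c * (2 * P * y0 + 2 * Q * z0 - A * (y0 * z0)) ^ 2))) := by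
      intro y0 z0
      simp only [hes, hg]
      rw [← ENNReal.ofReal_mul (Real.exp_pos _).le, ← ENNReal.ofReal_mul (by positivity),
        ← Real.exp_add, ← Real.exp_add]
      congr 2
      unfold QQ
      ring
    have hne : es s * g A P Q y z ≠ ⊤ :=
      ENNReal.mul_ne_top ENNReal.ofReal_ne_top ENNReal.ofReal_ne_top
    simp only [h1]
    have h2 : ∀ y0 : ℝ, ∫⁻ z0 in Icc (-C0) C0, (es s * g A P Q y z) *
          ENNReal.ofReal (Real.exp (-(c * (2 * P * y0 + 2 * Q * z0 - A * (y0 * z0)) ^ 2))) =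
        (es s * g A P Q y z) * ∫⁻ z0 in Icc (-C0) C0,
          ENNReal.ofReal (Real.exp (-(c * (2 * P * y0 + 2 * Q * z0 - A * (y0 * z0)) ^ 2))) :=
      fun y0 => lintegral_const_mul' _ _ hne
    simp only [h2]
    rw [lintegral_const_mul' _ _ hne]
    calc _ ≤ (es s * g A P Q y z) * K1 := by
          gcongr
          exact hyp1 R hR A hA P Q
      _ = _ := by ring
  have inner2 : ∀ A ∈ Icc (2 * R) (4 * R), ∀ s : ℝ,
      ∫⁻ P in Icc (-(K0 * R)) (K0 * R),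
        ∫⁻ Q in Icc (-(K0 * R)) (K0 * R), ∫⁻ y in cube d C0, ∫⁻ z in cube d C0,
          ∫⁻ y0 in Icc (-C0) C0, ∫⁻ z0 in Icc (-C0) C0,
            ENNReal.ofReal (Real.exp (-(c * (s ^ 2 + QQ A P Q y0 z0 y z)))) ≤
      es s * (K1 * K2) := by
    intro A hA s
    have hne : es s * K1 ≠ ⊤ := ENNReal.mul_ne_top ENNReal.ofReal_ne_top hK1t
    calc _ ≤ ∫⁻ P in Icc (-(K0 * R)) (K0 * R),
        ∫⁻ Q in Icc (-(K0 * R)) (K0 * R), ∫⁻ y in cube d C0, ∫⁻ z in cube d C0,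
          (es s * K1) * g A P Q y z := by
          refine lintegral_mono fun P => lintegral_mono fun Q => lintegral_mono fun y =>
            lintegral_mono fun z => inner1 A hA s P Q y z
      _ = (es s * K1) * ∫⁻ P in Icc (-(K0 * R)) (K0 * R),
        ∫⁻ Q in Icc (-(K0 * R)) (K0 * R), ∫⁻ y in cube d C0, ∫⁻ z in cube d C0,
          g A P Q y z := by
          simp only [lintegral_const_mul' _ _ hne]
      _ = (es s * K1) * ∫⁻ y in cube d C0, ∫⁻ z in cube d C0, ∫⁻ P in Icc (-(K0 * R)) (K0 * R),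
        ∫⁻ Q in Icc (-(K0 * R)) (K0 * R), g A P Q y z := by
          rw [hv5_swap (volume.restrict (Icc (-(K0 * R)) (K0 * R)))
            (volume.restrict (cube d C0)) (g A)]
          simp only [hg]
          fun_prop
      _ ≤ (es s * K1) * K2 := by
          gcongr
          exact vol2 R hR A hA
      _ = _ := by ring
  unfold MI
  calc _ ≤ ∫⁻ A in Icc (2 * R) (4 * R), ENNReal.ofReal √(π / c) * (K1 * K2) := by
        refine setLIntegral_mono measurable_const fun A hA => ?_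
        calc _ ≤ ∫⁻ s : ℝ, es s * (K1 * K2) := lintegral_mono fun s => inner2 A hA s
          _ = ENNReal.ofReal √(π / c) * (K1 * K2) := by
            rw [lintegral_mul_const' _ _ (ENNReal.mul_ne_top hK1t ENNReal.ofReal_ne_top),
              hv5_gauss c hc]
    _ = ENNReal.ofReal (√(π / c) * C1 * C2 * 2 * (1 + Real.log R) ^ (d + 1) / R ^ (d - 1)) := by
        rw [setLIntegral_const, Real.volume_Icc, hK1, hK2,
          ← ENNReal.ofReal_mul (by positivity), ← ENNReal.ofReal_mul (by positivity),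
          ← ENNReal.ofReal_mul (by positivity)]
        congr 1
        field_simp
        ring

end Pool.Agent.AEL
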