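import Pool.Agent.AEL.AS
import Pool.Agent.AEL.V5

namespace Pool.Agent.AEL

open MeasureTheory Set Pool.Agent.MP_6cbfb8_an Pool.Agent.MST
open scoped ENNReal Real

/-- affine substitution on an interval -/
theorem has2_sub (g : ℝ → ℝ≥0∞) (hg : Measurable g) (μ b K R : ℝ) (hμ : 0 < μ)
    (h : μ * R + |b| ≤ K) :
    ∫⁻ x in Icc (-R) R, g (μ * x + b) ≤ ENNReal.ofReal μ⁻¹ * ∫⁻ x in Icc (-K) K, g x := by
  have hG : Measurable ((Icc (-K) K).indicator g) := hg.indicator measurableSet_Icc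
  have hG' : Measurable fun y => (Icc (-K) K).indicator g (y + b) :=
    hG.comp (measurable_id.add_const b)
  calc ∫⁻ x in Icc (-R) R, g (μ * x + b)
      ≤ ∫⁻ x in Icc (-R) R, (Icc (-K) K).indicator g (μ * x + b) := by
        refine setLIntegral_mono' measurableSet_Icc fun x hx => ?_
        have h1 : μ * x + b ∈ Icc (-K) K := by
          have h2 : μ * x ≤ μ * R := mul_le_mul_of_nonneg_left hx.2 hμ.le
          have h3 : μ * (-R) ≤ μ * x := mul_le_mul_of_nonneg_left hx.1 hμ.le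
          have h4 := abs_le.mp (le_refl |b|)
          constructor <;> nlinarith [h4.1, h4.2]
        rw [indicator_of_mem h1]
    _ ≤ ∫⁻ x, (Icc (-K) K).indicator g (μ * x + b) := setLIntegral_le_lintegral _ _
    _ = ∫⁻ y, (Icc (-K) K).indicator g (y + b) ∂(Measure.map (fun x => μ * x) volume) := by
        rw [lintegral_map hG' (measurable_const_mul μ)]
    _ = ENNReal.ofReal μ⁻¹ * ∫⁻ y, (Icc (-K) K).indicator g (y + b) := by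
        rw [Real.map_volume_mul_left hμ.ne', lintegral_smul_measure,
          abs_of_pos (inv_pos.mpr hμ), smul_eq_mul]
    _ = ENNReal.ofReal μ⁻¹ * ∫⁻ y, (Icc (-K) K).indicator g y := by
        rw [lintegral_add_right_eq_self (μ := volume) ((Icc (-K) K).indicator g) b]
    _ = ENNReal.ofReal μ⁻¹ * ∫⁻ x in Icc (-K) K, g x := by
        rw [lintegral_indicator measurableSet_Icc]

/-- the integrand of the master integral -/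
noncomputable def has2_W (d : ℕ) (c A s P Q y0 z0 : ℝ) (y z : E d) : ℝ≥0∞ :=
  ENNReal.ofReal (Real.exp (-(c * (s ^ 2 + QQ A P Q y0 z0 y z))))

theorem has2_cont (d : ℕ) (c : ℝ) : Continuous fun q : E d × ℝ × E d × ℝ × ℝ × ℝ × ℝ × ℝ =>
    Real.exp (-(c * (q.2.2.2.2.2.1 ^ 2 + QQ q.2.2.2.2.1 q.2.2.2.2.2.2.1 q.2.2.2.2.2.2.2
      q.2.1 q.2.2.2.1 q.1 q.2.2.1))) := by
  unfold QQ
  fun_prop

theorem has2_meas (d : ℕ) (c : ℝ) : Measurable fun q : E d × ℝ × E d × ℝ × ℝ × ℝ × ℝ × ℝ =>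
    has2_W d c q.2.2.2.2.1 q.2.2.2.2.2.1 q.2.2.2.2.2.2.1 q.2.2.2.2.2.2.2
      q.2.1 q.2.2.2.1 q.1 q.2.2.1 :=
  (has2_cont d c).measurable.ennreal_ofReal

theorem has2_W_eq (d : ℕ) (c A s P Q y0 z0 : ℝ) (y z : E d) :
    ENNReal.ofReal (Real.exp (-(c * (s ^ 2 + QQ A P Q y0 z0 y z)))) =
      has2_W d c A s P Q y0 z0 y z := rfl

attribute [irreducible] has2_W

/-- Tonelli with four outer variables -/
theorem has2_swap {Y T : Type*} [MeasurableSpace Y] [MeasurableSpace T] (ν1 : Measure Y)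
    (ν2 : Measure ℝ) (ν3 : Measure Y) (ν4 : Measure ℝ) (ρ : Measure T) [SFinite ν1] [SFinite ν2]
    [SFinite ν3] [SFinite ν4] [SFinite ρ] (f : Y → ℝ → Y → ℝ → T → ℝ≥0∞)
    (hf : Measurable fun q : Y × ℝ × Y × ℝ × T =>
      f q.1 q.2.1 q.2.2.1 q.2.2.2.1 q.2.2.2.2) :
    ∫⁻ y, ∫⁻ y0, ∫⁻ z, ∫⁻ z0, ∫⁻ τ, f y y0 z z0 τ ∂ρ ∂ν4 ∂ν3 ∂ν2 ∂ν1 =
      ∫⁻ τ, ∫⁻ y, ∫⁻ z, ∫⁻ y0, ∫⁻ z0, f y y0 z z0 τ ∂ν4 ∂ν2 ∂ν3 ∂ν1 ∂ρ := by
  have hg1 : Measurable fun q : Y × ℝ × Y × T => ∫⁻ z0, f q.1 q.2.1 q.2.2.1 z0 q.2.2.2 ∂ν4 := by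
    have h1 : Measurable fun q : (Y × ℝ × Y × T) × ℝ =>
        f q.1.1 q.1.2.1 q.1.2.2.1 q.2 q.1.2.2.2 :=
      hf.comp (by fun_prop : Measurable fun q : (Y × ℝ × Y × T) × ℝ =>
        ((q.1.1, q.1.2.1, q.1.2.2.1, q.2, q.1.2.2.2) : Y × ℝ × Y × ℝ × T))
    exact h1.lintegral_prod_right'
  have hg2 : Measurable fun q : Y × ℝ × T =>
      ∫⁻ z, ∫⁻ z0, f q.1 q.2.1 z z0 q.2.2 ∂ν4 ∂ν3 := by
    have h1 : Measurable fun q : (Y × ℝ × T) × Y =>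
        ∫⁻ z0, f q.1.1 q.1.2.1 q.2 z0 q.1.2.2 ∂ν4 :=
      hg1.comp (by fun_prop : Measurable fun q : (Y × ℝ × T) × Y =>
        ((q.1.1, q.1.2.1, q.2, q.1.2.2) : Y × ℝ × Y × T))
    exact h1.lintegral_prod_right'
  have hg3 : Measurable fun q : Y × T =>
      ∫⁻ y0, ∫⁻ z, ∫⁻ z0, f q.1 y0 z z0 q.2 ∂ν4 ∂ν3 ∂ν2 := by
    have h1 : Measurable fun q : (Y × T) × ℝ =>
        ∫⁻ z, ∫⁻ z0, f q.1.1 q.2 z z0 q.1.2 ∂ν4 ∂ν3 :=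
      hg2.comp (by fun_prop : Measurable fun q : (Y × T) × ℝ =>
        ((q.1.1, q.2, q.1.2) : Y × ℝ × T))
    exact h1.lintegral_prod_right'
  have ha : ∀ y y0 z, ∫⁻ z0, ∫⁻ τ, f y y0 z z0 τ ∂ρ ∂ν4 =
      ∫⁻ τ, ∫⁻ z0, f y y0 z z0 τ ∂ν4 ∂ρ := by
    intro y y0 z
    refine lintegral_lintegral_swap ?_
    exact (hf.comp (by fun_prop : Measurable fun q : ℝ × T =>
      ((y, y0, z, q.1, q.2) : Y × ℝ × Y × ℝ × T))).aemeasurable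
  have hb : ∀ y y0, ∫⁻ z, ∫⁻ τ, ∫⁻ z0, f y y0 z z0 τ ∂ν4 ∂ρ ∂ν3 =
      ∫⁻ τ, ∫⁻ z, ∫⁻ z0, f y y0 z z0 τ ∂ν4 ∂ν3 ∂ρ := by
    intro y y0
    refine lintegral_lintegral_swap ?_
    exact (hg1.comp (by fun_prop : Measurable fun q : Y × T =>
      ((y, y0, q.1, q.2) : Y × ℝ × Y × T))).aemeasurable
  have hc : ∀ y, ∫⁻ y0, ∫⁻ τ, ∫⁻ z, ∫⁻ z0, f y y0 z z0 τ ∂ν4 ∂ν3 ∂ρ ∂ν2 =
      ∫⁻ τ, ∫⁻ y0, ∫⁻ z, ∫⁻ z0, f y y0 z z0 τ ∂ν4 ∂ν3 ∂ν2 ∂ρ := by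
    intro y
    refine lintegral_lintegral_swap ?_
    exact (hg2.comp (by fun_prop : Measurable fun q : ℝ × T =>
      ((y, q.1, q.2) : Y × ℝ × T))).aemeasurable
  have hd : ∫⁻ y, ∫⁻ τ, ∫⁻ y0, ∫⁻ z, ∫⁻ z0, f y y0 z z0 τ ∂ν4 ∂ν3 ∂ν2 ∂ρ ∂ν1 =
      ∫⁻ τ, ∫⁻ y, ∫⁻ y0, ∫⁻ z, ∫⁻ z0, f y y0 z z0 τ ∂ν4 ∂ν3 ∂ν2 ∂ν1 ∂ρ := by
    refine lintegral_lintegral_swap ?_
    exact hg3.aemeasurable
  have he : ∀ τ y, ∫⁻ y0, ∫⁻ z, ∫⁻ z0, f y y0 z z0 τ ∂ν4 ∂ν3 ∂ν2 =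
      ∫⁻ z, ∫⁻ y0, ∫⁻ z0, f y y0 z z0 τ ∂ν4 ∂ν2 ∂ν3 := by
    intro τ y
    refine lintegral_lintegral_swap ?_
    exact (hg1.comp (by fun_prop : Measurable fun q : ℝ × Y =>
      ((y, q.1, q.2, τ) : Y × ℝ × Y × T))).aemeasurable
  simp_rw [ha, hb, hc]
  rw [hd]
  simp_rw [he]

/-- iterated integral over four real variables -/
theorem has2_prod4 (ρ1 ρ2 ρ3 ρ4 : Measure ℝ) [SFinite ρ1] [SFinite ρ2] [SFinite ρ3] [SFinite ρ4]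
    (f : ℝ × ℝ × ℝ × ℝ → ℝ≥0∞) (hf : Measurable f) :
    ∫⁻ τ, f τ ∂(ρ1.prod (ρ2.prod (ρ3.prod ρ4))) =
      ∫⁻ A, ∫⁻ s, ∫⁻ P, ∫⁻ Q, f (A, s, P, Q) ∂ρ4 ∂ρ3 ∂ρ2 ∂ρ1 := by
  rw [lintegral_prod _ hf.aemeasurable]
  refine lintegral_congr fun A => ?_
  have h1 : Measurable fun q : ℝ × ℝ × ℝ => f (A, q) := hf.comp (by fun_prop)
  rw [lintegral_prod _ h1.aemeasurable]
  refine lintegral_congr fun s => ?_
  have h2 : Measurable fun q : ℝ × ℝ => f (A, s, q) := hf.comp (by fun_prop)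
  rw [lintegral_prod _ h2.aemeasurable]

/-- the pointwise bound -/
theorem has2_point (d : ℕ) (R0 c : ℝ) (hR0 : 1 ≤ R0) (R : ℝ) (hR : 1 ≤ R) (μ : ℝ)
    (hμ : 0 < μ) (hμ1 : μ ≤ R0) (y z : E d) (y0 z0 : ℝ) (hy0 : y0 ∈ Icc (-(2 * R0)) (2 * R0))
    (hz0 : z0 ∈ Icc (-(2 * R0)) (2 * R0)) :
    ∫⁻ t in Box R,
        ENNReal.ofReal (Real.exp (-(c * ((t 0 + t 1 - t 2 - t 3) ^ 2 +
          QQ (t 0 + t 1) (μ * (((t 0 - t 1) + (t 2 - t 3)) / 2) + (t 0 + t 1) / 2 * z0)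
            (μ * (((t 0 - t 1) - (t 2 - t 3)) / 2) + (t 0 + t 1) / 2 * y0) y0 z0 y z)))) ≤
    ENNReal.ofReal (μ ^ (-2:ℝ)) * ∫⁻ A in Icc (2 * R) (4 * R), ∫⁻ s : ℝ,
      ∫⁻ P in Icc (-(5 * R0 * R)) (5 * R0 * R), ∫⁻ Q in Icc (-(5 * R0 * R)) (5 * R0 * R),
        has2_W d c A s P Q y0 z0 y z := by
  have hW := has2_meas d c
  have hbox := box_change R (fun A s P Q => has2_W d c A s (μ * P + A / 2 * z0)
    (μ * Q + A / 2 * y0) y0 z0 y z)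
    (hW.comp (by fun_prop : Measurable fun q : ℝ × ℝ × ℝ × ℝ =>
      ((y, y0, z, z0, q.1, q.2.1, μ * q.2.2.1 + q.1 / 2 * z0, μ * q.2.2.2 + q.1 / 2 * y0) :
        E d × ℝ × E d × ℝ × ℝ × ℝ × ℝ × ℝ)))
  simp only [has2_W_eq]
  refine le_trans hbox ?_
  have hμ2 : ENNReal.ofReal (μ ^ (-2:ℝ)) = ENNReal.ofReal μ⁻¹ * ENNReal.ofReal μ⁻¹ := by
    rw [← ENNReal.ofReal_mul (inv_nonneg.mpr hμ.le)]
    congr 1
    rw [Real.rpow_neg hμ.le, ← mul_inv, ← sq, ← Real.rpow_natCast μ 2]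
    norm_num
  rw [hμ2, ← lintegral_const_mul' _ _ (ENNReal.mul_ne_top ENNReal.ofReal_ne_top
    ENNReal.ofReal_ne_top)]
  refine setLIntegral_mono' measurableSet_Icc fun A hA => ?_
  rw [← lintegral_const_mul' _ _ (ENNReal.mul_ne_top ENNReal.ofReal_ne_top
    ENNReal.ofReal_ne_top)]
  refine lintegral_mono fun s => ?_
  have hR00 : 0 < R0 := by linarith
  have hR1 : 0 < R := by linarith
  have hA0 : 0 ≤ A := by linarith [hA.1]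
  have hb : ∀ w ∈ Icc (-(2 * R0)) (2 * R0), μ * R + |A / 2 * w| ≤ 5 * R0 * R := by
    intro w hw
    have h1 : |w| ≤ 2 * R0 := abs_le.mpr ⟨hw.1, hw.2⟩
    have h2 : |A / 2 * w| ≤ 2 * R * (2 * R0) := by
      rw [abs_mul, abs_of_nonneg (by positivity : 0 ≤ A / 2)]
      exact mul_le_mul (by linarith [hA.2]) h1 (abs_nonneg _) (by positivity)
    have h3 : μ * R ≤ R0 * R := mul_le_mul_of_nonneg_right hμ1 hR1.le
    nlinarith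
  have hin : ∀ P : ℝ, ∫⁻ Q in Icc (-R) R, has2_W d c A s P (μ * Q + A / 2 * y0) y0 z0 y z ≤
      ENNReal.ofReal μ⁻¹ * ∫⁻ Q in Icc (-(5 * R0 * R)) (5 * R0 * R),
        has2_W d c A s P Q y0 z0 y z := by
    intro P
    refine has2_sub (fun Q => has2_W d c A s P Q y0 z0 y z) ?_ μ _ _ R hμ (hb y0 hy0)
    exact hW.comp (by fun_prop : Measurable fun Q : ℝ =>
      ((y, y0, z, z0, A, s, P, Q) : E d × ℝ × E d × ℝ × ℝ × ℝ × ℝ × ℝ))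
  have hout : Measurable fun P : ℝ => ∫⁻ Q in Icc (-(5 * R0 * R)) (5 * R0 * R),
      has2_W d c A s P Q y0 z0 y z := by
    have h1 : Measurable fun q : ℝ × ℝ => has2_W d c A s q.1 q.2 y0 z0 y z :=
      hW.comp (by fun_prop : Measurable fun q : ℝ × ℝ =>
        ((y, y0, z, z0, A, s, q.1, q.2) : E d × ℝ × E d × ℝ × ℝ × ℝ × ℝ × ℝ))
    exact h1.lintegral_prod_right'
  calc ∫⁻ P in Icc (-R) R, ∫⁻ Q in Icc (-R) R,
        has2_W d c A s (μ * P + A / 2 * z0) (μ * Q + A / 2 * y0) y0 z0 y z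
      ≤ ∫⁻ P in Icc (-R) R, ENNReal.ofReal μ⁻¹ *
          ∫⁻ Q in Icc (-(5 * R0 * R)) (5 * R0 * R),
            has2_W d c A s (μ * P + A / 2 * z0) Q y0 z0 y z :=
        lintegral_mono fun P => hin _
    _ = ENNReal.ofReal μ⁻¹ * ∫⁻ P in Icc (-R) R,
          ∫⁻ Q in Icc (-(5 * R0 * R)) (5 * R0 * R),
            has2_W d c A s (μ * P + A / 2 * z0) Q y0 z0 y z :=
        lintegral_const_mul' _ _ ENNReal.ofReal_ne_top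
    _ ≤ ENNReal.ofReal μ⁻¹ * (ENNReal.ofReal μ⁻¹ * ∫⁻ P in Icc (-(5 * R0 * R)) (5 * R0 * R),
          ∫⁻ Q in Icc (-(5 * R0 * R)) (5 * R0 * R), has2_W d c A s P Q y0 z0 y z) := by
        gcongr
        exact has2_sub (fun P => ∫⁻ Q in Icc (-(5 * R0 * R)) (5 * R0 * R),
          has2_W d c A s P Q y0 z0 y z) hout μ _ _ R hμ (hb z0 hz0)
    _ = _ := (mul_assoc _ _ _).symm

theorem change_m (d : ℕ) (R0 c : ℝ) (hR0 : 1 ≤ R0) (hc : 0 < c) (R : ℝ) (hR : 1 ≤ R) (μ : ℝ)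
    (hμ : 0 < μ) (hμ1 : μ ≤ R0) :
    ∫⁻ y in cube d (2 * R0), ∫⁻ y0 in Icc (-(2 * R0)) (2 * R0), ∫⁻ z in cube d (2 * R0),
      ∫⁻ z0 in Icc (-(2 * R0)) (2 * R0), ∫⁻ t in Box R,
        ENNReal.ofReal (Real.exp (-(c * ((t 0 + t 1 - t 2 - t 3) ^ 2 +
          QQ (t 0 + t 1) (μ * (((t 0 - t 1) + (t 2 - t 3)) / 2) + (t 0 + t 1) / 2 * z0)
            (μ * (((t 0 - t 1) - (t 2 - t 3)) / 2) + (t 0 + t 1) / 2 * y0) y0 z0 y z)))) ≤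
    ENNReal.ofReal (μ ^ (-2:ℝ)) * MI d c (2 * R0) (5 * R0) R := by
  have hne : ENNReal.ofReal (μ ^ (-2:ℝ)) ≠ ∞ := ENNReal.ofReal_ne_top
  refine le_trans (lintegral_mono fun y => setLIntegral_mono' measurableSet_Icc fun y0 hy0 =>
    lintegral_mono fun z => setLIntegral_mono' measurableSet_Icc fun z0 hz0 =>
      has2_point d R0 c hR0 R hR μ hμ hμ1 y z y0 z0 hy0 hz0) ?_
  simp_rw [lintegral_const_mul' _ _ hne]
  gcongr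
  refine le_of_eq ?_
  set K : Set ℝ := Icc (-(5 * R0 * R)) (5 * R0 * R) with hK
  set ρ : Measure (ℝ × ℝ × ℝ × ℝ) := (volume.restrict (Icc (2 * R) (4 * R))).prod
    ((volume : Measure ℝ).prod ((volume.restrict K).prod (volume.restrict K))) with hρ
  have hW := has2_meas d c
  have h1 : ∀ (y z : E d) (y0 z0 : ℝ), ∫⁻ A in Icc (2 * R) (4 * R), ∫⁻ s : ℝ,
      ∫⁻ P in K, ∫⁻ Q in K, has2_W d c A s P Q y0 z0 y z =
      ∫⁻ τ, has2_W d c τ.1 τ.2.1 τ.2.2.1 τ.2.2.2 y0 z0 y z ∂ρ := by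
    intro y z y0 z0
    rw [hρ, has2_prod4 _ _ _ _ (fun τ => has2_W d c τ.1 τ.2.1 τ.2.2.1 τ.2.2.2 y0 z0 y z)]
    exact hW.comp (by fun_prop : Measurable fun q : ℝ × ℝ × ℝ × ℝ =>
      ((y, y0, z, z0, q.1, q.2.1, q.2.2.1, q.2.2.2) : E d × ℝ × E d × ℝ × ℝ × ℝ × ℝ × ℝ))
  simp_rw [h1]
  rw [has2_swap (volume.restrict (cube d (2 * R0))) (volume.restrict (Icc (-(2 * R0)) (2 * R0)))
    (volume.restrict (cube d (2 * R0))) (volume.restrict (Icc (-(2 * R0)) (2 * R0))) ρ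
    (fun y y0 z z0 τ => has2_W d c τ.1 τ.2.1 τ.2.2.1 τ.2.2.2 y0 z0 y z) hW]
  have hm : Measurable fun τ : ℝ × ℝ × ℝ × ℝ => ∫⁻ y in cube d (2 * R0),
      ∫⁻ z in cube d (2 * R0), ∫⁻ y0 in Icc (-(2 * R0)) (2 * R0),
        ∫⁻ z0 in Icc (-(2 * R0)) (2 * R0), has2_W d c τ.1 τ.2.1 τ.2.2.1 τ.2.2.2 y0 z0 y z := by
    have m1 : Measurable fun q : ((((ℝ × ℝ × ℝ × ℝ) × E d) × E d) × ℝ) × ℝ =>
        has2_W d c q.1.1.1.1.1 q.1.1.1.1.2.1 q.1.1.1.1.2.2.1 q.1.1.1.1.2.2.2 q.1.2 q.2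
          q.1.1.1.2 q.1.1.2 :=
      hW.comp (by fun_prop : Measurable fun q : ((((ℝ × ℝ × ℝ × ℝ) × E d) × E d) × ℝ) × ℝ =>
        ((q.1.1.1.2, q.1.2, q.1.1.2, q.2, q.1.1.1.1.1, q.1.1.1.1.2.1, q.1.1.1.1.2.2.1,
          q.1.1.1.1.2.2.2) : E d × ℝ × E d × ℝ × ℝ × ℝ × ℝ × ℝ))
    have m2 := m1.lintegral_prod_right' (ν := volume.restrict (Icc (-(2 * R0)) (2 * R0)))
    have m3 := m2.lintegral_prod_right' (ν := volume.restrict (Icc (-(2 * R0)) (2 * R0)))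
    have m4 := m3.lintegral_prod_right' (ν := volume.restrict (cube d (2 * R0)))
    exact m4.lintegral_prod_right' (ν := volume.restrict (cube d (2 * R0)))
  rw [hρ, has2_prod4 _ _ _ _ _ hm]
  unfold MI
  simp only [has2_W_eq]
  rw [← hK]

end Pool.Agent.AEL
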