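import Pool.Agent.AEL.FN

/-!
The restriction conjecture for the unit sphere of `R^n`, `n ≥ 3`: for every bounded measurable
function `G` on `R^n` and almost every matrix `A` the density `x ↦ G (A x)` satisfies it, in the
full conjectured range, also after cutting with half spaces.
-/

namespace Pool.Agent.AEL.AlmostEveryMatrixVariant

open MeasureTheory Set Pool.Agent.MP_6cbfb8_an Pool.Agent.MST
open scoped ENNReal Real

/-- Let `n ≥ 3` and let `G : R^n → ℂ` be bounded and measurable. For almost every real `n × n`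
matrix `A` the Fourier transform of the measure on the unit sphere of `R^n` with density
`x ↦ G (A x)`, restricted to any finite intersection of half spaces, belongs to `L^p` for every
`p > 2n/(n-1)`. -/
theorem result (n : ℕ) (hn : 3 ≤ n) (G : E n → ℂ) (hG : Measurable G) (C : ℝ)
    (hC : ∀ w, ‖G w‖ ≤ C) :
    ∀ᵐ A : Mat n, ∀ p : ℝ, 2 * (n : ℝ) / (n - 1) < p → ∀ (N : ℕ) (v : Fin N → E n)
      (c : Fin N → ℝ),
      ∫⁻ ξ : E n, ‖extn (fun x => G (mv A x) * ∏ i, hsn (c i) (v i) x) ξ‖ₑ ^ p < ∞ :=
  Pool.Agent.AEL.final n hn G hG C hC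

end Pool.Agent.AEL.AlmostEveryMatrixVariant
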