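import Pool.Agent.AEL.Defs
import Pool.Agent.MST.O2
import Pool.Agent.MST.KF

namespace Pool.Agent.AEL

open MeasureTheory Set Pool.Agent.MP_6cbfb8_an Pool.Agent.MST
open scoped ENNReal Real

theorem norm_ps_le (a b s : ℝ) : ‖ps a b s‖ ≤ |b - a| := by
  unfold ps
  have h := intervalIntegral.norm_integral_le_of_norm_le_const (a := a) (b := b)
    (f := fun τ : ℝ => ex (τ * s)) (C := 1) (fun τ _ => le_of_eq (hkf_norm_ex _))
  rwa [one_mul] at h

theorem hba_cont_ex (s : ℝ) : Continuous fun τ : ℝ => ex (τ * s) :=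
  hkf_cont_ex.comp (continuous_id.mul continuous_const)

theorem ps_conj (a b s : ℝ) : (starRingEnd ℂ) (ps a b s) = ps (-b) (-a) s := by
  unfold ps
  have h := intervalIntegral.integral_comp_neg (a := a) (b := b) (fun τ : ℝ => ex (τ * s))
  rw [← h]
  have h2 : (starRingEnd ℂ) (∫ τ in a..b, ex (τ * s)) = ∫ τ in a..b, (starRingEnd ℂ) (ex (τ * s)) := by
    simp only [intervalIntegral, map_sub]
    rw [← integral_conj, ← integral_conj]
  rw [h2]
  refine intervalIntegral.integral_congr fun τ _ => ?_
  show (starRingEnd ℂ) (ex (τ * s)) = ex (-τ * s)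
  rw [hkf_conj_ex, neg_mul]

theorem ps_add (a b c s : ℝ) : ps a b s + ps b c s = ps a c s := by
  unfold ps
  exact intervalIntegral.integral_add_adjacent_intervals
    ((hba_cont_ex s).intervalIntegrable _ _) ((hba_cont_ex s).intervalIntegrable _ _)

theorem continuous_ps (a b : ℝ) : Continuous fun s : ℝ => ps a b s := by
  unfold ps
  refine intervalIntegral.continuous_parametric_intervalIntegral_of_continuous'
    (f := fun (s τ : ℝ) => ex (τ * s)) ?_ a b
  exact hkf_cont_ex.comp (continuous_snd.mul continuous_fst)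

theorem continuous_qf {n : ℕ} : Continuous fun q : Mat n × E n => qf q.1 q.2 := by
  unfold qf
  fun_prop

theorem norm_am_le {n : ℕ} (R0 a b : ℝ) (l : Mat n × ℝ) (y : E n) : ‖am R0 a b l y‖ ≤ |b - a| := by
  unfold am
  split_ifs
  · exact norm_ps_le _ _ _
  · rw [norm_zero]
    exact abs_nonneg _

theorem am_zero {n : ℕ} (R0 a b : ℝ) (l : Mat n × ℝ) (y : E n) (h : R0 < ‖y‖) :
    am R0 a b l y = 0 := by
  unfold am
  rw [if_neg (not_le.2 h)]

theorem measurable_am {n : ℕ} (R0 a b : ℝ) :
    Measurable (Function.uncurry fun (l : Mat n × ℝ) (y : E n) => am R0 a b l y) := by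
  unfold am
  refine Measurable.ite (measurableSet_le measurable_snd.norm measurable_const) ?_ measurable_const
  refine (continuous_ps a b).measurable.comp ?_
  have h1 : Continuous fun q : (Mat n × ℝ) × E n => qf q.1.1 q.2 :=
    continuous_qf.comp ((continuous_fst.comp continuous_fst).prodMk continuous_snd)
  exact (h1.add (continuous_snd.comp continuous_fst)).measurable

theorem hba_int_gauss : Integrable fun v : ℝ => Real.exp (-(π * v ^ 2)) := by
  simpa using hkf_int_real 0

theorem hba_int_gw (n : ℕ) : Integrable (fun l : Mat n × ℝ => gw l) := by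
  have h1 : Integrable (fun x : Fin n → ℝ => ∏ j, Real.exp (-(π * x j ^ 2))) :=
    Integrable.fintype_prod (fun _ => hba_int_gauss)
  have h2 : Integrable (fun M : Fin n → Fin n → ℝ => ∏ i, ∏ j, Real.exp (-(π * M i j ^ 2))) :=
    Integrable.fintype_prod (f := fun (_ : Fin n) (x : Fin n → ℝ) => ∏ j, Real.exp (-(π * x j ^ 2)))
      (fun _ => h1)
  have h3 := h2.mul_prod hba_int_gauss
  refine h3.congr (Filter.Eventually.of_forall fun l => ?_)
  show (∏ i, ∏ j, Real.exp (-(π * l.1 i j ^ 2))) * Real.exp (-(π * l.2 ^ 2)) = gw l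
  unfold gw
  simp only [← Real.exp_sum]
  rw [← Real.exp_add]
  congr 1
  rw [mul_add, Finset.mul_sum, neg_add, ← Finset.sum_neg_distrib]
  congr 1
  refine Finset.sum_congr rfl fun i _ => ?_
  rw [Finset.mul_sum, ← Finset.sum_neg_distrib]

theorem finite_mu (n : ℕ) : IsFiniteMeasure (mu n) := by
  unfold mu
  exact isFiniteMeasure_withDensity_ofReal (hba_int_gw n).2

theorem ae_of_mu {n : ℕ} {P : Mat n × ℝ → Prop} (h : ∀ᵐ l ∂(mu n), P l) :
    ∀ᵐ l : Mat n × ℝ, P l := by
  have hac : (volume : Measure (Mat n × ℝ)) ≪ mu n := by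
    unfold mu
    refine withDensity_absolutelyContinuous' (hba_int_gw n).1.aemeasurable.ennreal_ofReal ?_
    refine Filter.Eventually.of_forall fun l => ?_
    have : 0 < gw l := Real.exp_pos _
    exact (ENNReal.ofReal_pos.2 this).ne'
  exact hac.ae_le h

/-- measurability of the pieces, also with a measurable parameter in the function `G` -/
theorem measurable_op {n : ℕ} {Y : Type*} [MeasurableSpace Y] (R0 a b : ℝ) (G : Y → E n → ℂ)
    (hG : Measurable (Function.uncurry G)) :
    Measurable fun q : (Mat n × ℝ) × Y × E n => op R0 a b q.1 (G q.2.1) q.2.2 := by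
  have hm : Measurable fun r : ((Mat n × ℝ) × Y × E n) × E n =>
      G r.1.2.1 r.2 * am R0 a b r.1.1 r.2 * ex (inner ℝ r.2 r.1.2.2) := by
    have k1 : Measurable fun r : ((Mat n × ℝ) × Y × E n) × E n => (r.1.2.1, r.2) := by fun_prop
    have k2 : Measurable fun r : ((Mat n × ℝ) × Y × E n) × E n => (r.1.1, r.2) := by fun_prop
    have k3 : Measurable fun r : ((Mat n × ℝ) × Y × E n) × E n => r.1.2.2 := by fun_prop
    have k4 : Measurable fun r : ((Mat n × ℝ) × Y × E n) × E n => r.2 := by fun_prop
    have h1 : Measurable fun r : ((Mat n × ℝ) × Y × E n) × E n =>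
        Function.uncurry G (r.1.2.1, r.2) := hG.comp k1
    have h2 : Measurable fun r : ((Mat n × ℝ) × Y × E n) × E n =>
        Function.uncurry (fun (l : Mat n × ℝ) (y : E n) => am R0 a b l y) (r.1.1, r.2) :=
      (measurable_am R0 a b).comp k2
    have h3 : Measurable fun r : ((Mat n × ℝ) × Y × E n) × E n => ex (inner ℝ r.2 r.1.2.2) :=
      hkf_cont_ex.measurable.comp (k4.inner k3)
    exact (h1.mul h2).mul h3
  exact (hm.stronglyMeasurable.integral_prod_right').measurable

theorem measurable_Phi {n : ℕ} {Y : Type*} [MeasurableSpace Y] (R0 : ℝ) (G : Y → E n → ℂ)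
    (hG : Measurable (Function.uncurry G)) :
    Measurable fun q : (Mat n × ℝ) × Y × E n => Phi R0 q.1 (G q.2.1) q.2.2 := by
  unfold Phi
  refine (measurable_op R0 _ _ G hG).enorm.add (Measurable.tsum fun k => ?_)
  exact (measurable_op R0 _ _ G hG).enorm.add (measurable_op R0 _ _ G hG).enorm

end Pool.Agent.AEL
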