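import Pool.Agent.AEL.BA

namespace Pool.Agent.AEL

open MeasureTheory Set Pool.Agent.MP_6cbfb8_an Pool.Agent.MST
open scoped ENNReal Real

/-- the partial Fourier integral -/
noncomputable def hd1_T (b : ℝ) (H : ℝ → ℂ) (κ : ℝ) : ℂ := ∫ v, H v * ps (-b) b (v - κ)

/-- the Fourier transform -/
noncomputable def hd1_F (H : ℝ → ℂ) (τ : ℝ) : ℂ := ∫ v, H v * ex (τ * v)

theorem hd1_F_norm (H : ℝ → ℂ) (τ : ℝ) : ‖hd1_F H τ‖ ≤ ∫ v, ‖H v‖ := by
  unfold hd1_F
  refine (norm_integral_le_integral_norm _).trans (le_of_eq ?_)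
  simp only [norm_mul, hkf_norm_ex, mul_one]

theorem hd1_F_meas {H : ℝ → ℂ} (hH : Integrable H) :
    AEStronglyMeasurable (hd1_F H) volume := by
  have h1 : AEStronglyMeasurable (fun p : ℝ × ℝ => H p.2 * ex (p.1 * p.2))
      ((volume : Measure ℝ).prod volume) := by
    refine (hH.aestronglyMeasurable.comp_snd).mul (Continuous.aestronglyMeasurable ?_)
    exact hkf_cont_ex.comp (by fun_prop)
  exact h1.integral_prod_right'

theorem hd1_T_meas {H : ℝ → ℂ} (hH : Integrable H) (b : ℝ) :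
    AEStronglyMeasurable (hd1_T b H) volume := by
  have h1 : AEStronglyMeasurable (fun p : ℝ × ℝ => H p.2 * ps (-b) b (p.2 - p.1))
      ((volume : Measure ℝ).prod volume) := by
    refine (hH.aestronglyMeasurable.comp_snd).mul (Continuous.aestronglyMeasurable ?_)
    exact (continuous_ps (-b) b).comp (by fun_prop)
  exact h1.integral_prod_right'

theorem hd1_F_int {H : ℝ → ℂ} (hH : Integrable H) {S : Set ℝ} (hS : volume S ≠ ∞) :
    Integrable (hd1_F H) (volume.restrict S) := by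
  have : IsFiniteMeasure (volume.restrict S) := ⟨by simpa using lt_top_iff_ne_top.2 hS⟩
  exact Integrable.of_bound (hd1_F_meas hH).restrict (∫ v, ‖H v‖)
    (Filter.Eventually.of_forall fun τ => hd1_F_norm H τ)

/-- Fubini -/
theorem hd1_fub {H : ℝ → ℂ} (hH : Integrable H) {b : ℝ} (hb : 0 ≤ b) (κ : ℝ) :
    hd1_T b H κ = ∫ τ in Ioc (-b) b, hd1_F H τ * ex (-(τ * κ)) := by
  unfold hd1_T ps hd1_F
  have e1 : ∀ v : ℝ, H v * (∫ τ in (-b)..b, ex (τ * (v - κ))) =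
      ∫ τ in Ioc (-b) b, H v * ex (τ * (v - κ)) := by
    intro v
    rw [intervalIntegral.integral_of_le (by linarith), integral_const_mul]
  simp only [e1]
  rw [integral_integral_swap]
  · refine integral_congr_ae (Filter.Eventually.of_forall fun τ => ?_)
    simp only
    rw [← integral_mul_const]
    refine integral_congr_ae (Filter.Eventually.of_forall fun v => ?_)
    simp only
    rw [mul_assoc, ← hkf_ex_add]
    congr 2
    ring
  · have h1 : Integrable (fun p : ℝ × ℝ => H p.1) (volume.prod (volume.restrict (Ioc (-b) b))) :=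
      hH.comp_fst _
    refine Integrable.mono h1 ?_ (Filter.Eventually.of_forall fun p => ?_)
    · refine h1.aestronglyMeasurable.mul (Continuous.aestronglyMeasurable ?_)
      exact hkf_cont_ex.comp (by fun_prop)
    · simp only [Function.uncurry, norm_mul, hkf_norm_ex, mul_one, le_refl]

theorem hd1_bes {S : Set ℝ} {F : ℝ → ℂ} (hF : Integrable F (volume.restrict S)) :
    ∫⁻ κ : ℝ, ‖∫ τ in S, F τ * ex (-(τ * κ))‖ₑ ^ (2:ℝ) ≤ ∫⁻ τ in S, ‖F τ‖ₑ ^ (2:ℝ) := by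
  have h := bessel (volume.restrict S) (V := ℝ) (fun τ => -τ) measurable_neg 1 ENNReal.one_ne_top
    (by
      intro φ hφ
      rw [one_mul]
      refine (setLIntegral_le_lintegral _ _).trans (le_of_eq ?_)
      exact (Measure.measurePreserving_neg (volume : Measure ℝ)).lintegral_comp hφ) F hF
  rw [one_mul] at h
  refine le_trans (le_of_eq ?_) h
  refine lintegral_congr fun κ => ?_
  congr 2
  refine integral_congr_ae (Filter.Eventually.of_forall fun τ => ?_)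
  simp only [ex, Real.inner_apply]
  congr 4
  ring

theorem hd1_bes2 {H : ℝ → ℂ} (hH : Integrable H) :
    ∫⁻ τ : ℝ, ‖hd1_F H τ‖ₑ ^ (2:ℝ) ≤ ∫⁻ v, ‖H v‖ₑ ^ (2:ℝ) := by
  have h := bessel (volume : Measure ℝ) (V := ℝ) (fun τ => τ) measurable_id 1 ENNReal.one_ne_top
    (by
      intro φ _
      rw [one_mul]) H hH
  rw [one_mul] at h
  refine le_trans (le_of_eq ?_) h
  rfl

theorem hd1_contr {H : ℝ → ℂ} (hH : Integrable H) {b : ℝ} (hb : 0 ≤ b) :
    ∫⁻ κ : ℝ, ‖hd1_T b H κ‖ₑ ^ (2:ℝ) ≤ ∫⁻ v, ‖H v‖ₑ ^ (2:ℝ) := by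
  simp only [hd1_fub hH hb]
  refine (hd1_bes (hd1_F_int hH (by simp))).trans ?_
  exact (setLIntegral_le_lintegral _ _).trans (hd1_bes2 hH)

theorem hd1_schw (φ : SchwartzMap ℝ ℂ) :
    Filter.Tendsto (fun N : ℕ => ∫⁻ κ : ℝ, ‖hd1_T ((2:ℝ) ^ N) φ κ - φ κ‖ₑ ^ (2:ℝ))
      Filter.atTop (nhds 0) := by
  have hF : ∀ τ, hd1_F φ τ = FourierTransform.fourier φ τ := by
    intro τ
    rw [SchwartzMap.fourier_coe, Real.fourier_real_eq_integral_exp_smul]
    unfold hd1_F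
    refine integral_congr_ae (Filter.Eventually.of_forall fun v => ?_)
    simp only [smul_eq_mul]
    rw [mul_comm, mul_comm τ v, hkf_ker]
  have hFi : Integrable (hd1_F φ) volume := by
    have : hd1_F φ = fun τ => FourierTransform.fourier φ τ := funext hF
    rw [this]
    exact (FourierTransform.fourier φ).integrable
  have hinv : ∀ κ, φ κ = ∫ τ, hd1_F φ τ * ex (-(τ * κ)) := by
    intro κ
    have h1 : φ κ = FourierTransformInv.fourierInv (FourierTransform.fourier φ) κ := by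
      rw [FourierTransform.fourierInv_fourier_eq]
    rw [h1, SchwartzMap.fourierInv_coe, Real.fourierInv_eq']
    refine integral_congr_ae (Filter.Eventually.of_forall fun τ => ?_)
    simp only [smul_eq_mul, hF, ex, Real.inner_apply]
    rw [mul_comm]
    congr 4
    ring
  have hinte : ∀ κ, Integrable (fun τ => hd1_F φ τ * ex (-(τ * κ))) volume := by
    intro κ
    refine Integrable.mono hFi ?_ (Filter.Eventually.of_forall fun τ => ?_)
    · refine hFi.aestronglyMeasurable.mul (Continuous.aestronglyMeasurable ?_)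
      exact hkf_cont_ex.comp (by fun_prop)
    · simp only [norm_mul, hkf_norm_ex, mul_one, le_refl]
  have hle : ∀ N : ℕ, ∫⁻ κ : ℝ, ‖hd1_T ((2:ℝ) ^ N) φ κ - φ κ‖ₑ ^ (2:ℝ) ≤
      ∫⁻ τ in (Ioc (-(2:ℝ) ^ N) ((2:ℝ) ^ N))ᶜ, ‖hd1_F φ τ‖ₑ ^ (2:ℝ) := by
    intro N
    refine le_trans (le_of_eq ?_) (hd1_bes hFi.integrableOn)
    refine lintegral_congr fun κ => ?_
    have h2 : φ κ = (∫ τ in Ioc (-(2:ℝ) ^ N) ((2:ℝ) ^ N), hd1_F φ τ * ex (-(τ * κ))) +
        ∫ τ in (Ioc (-(2:ℝ) ^ N) ((2:ℝ) ^ N))ᶜ, hd1_F φ τ * ex (-(τ * κ)) := by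
      rw [integral_add_compl measurableSet_Ioc (hinte κ)]
      exact hinv κ
    rw [hd1_fub φ.integrable (by positivity)]
    rw [h2]
    rw [sub_add_cancel_left, enorm_neg]
  have hfin : ∫⁻ τ, ‖hd1_F φ τ‖ₑ ^ (2:ℝ) ≠ ∞ := by
    refine ne_top_of_le_ne_top ?_ (hd1_bes2 φ.integrable)
    have h3 : MemLp φ 2 volume := φ.memLp 2
    have h4 := lintegral_rpow_enorm_lt_top_of_eLpNorm_lt_top (p := 2) (by norm_num) (by norm_num) h3.2
    simpa using h4.ne
  have hlim : Filter.Tendsto (fun N : ℕ => ∫⁻ τ in (Ioc (-(2:ℝ) ^ N) ((2:ℝ) ^ N))ᶜ,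
      ‖hd1_F φ τ‖ₑ ^ (2:ℝ)) Filter.atTop (nhds 0) := by
    have h5 : ∀ N : ℕ, ∫⁻ τ in (Ioc (-(2:ℝ) ^ N) ((2:ℝ) ^ N))ᶜ, ‖hd1_F φ τ‖ₑ ^ (2:ℝ) =
        ∫⁻ τ, ((Ioc (-(2:ℝ) ^ N) ((2:ℝ) ^ N))ᶜ).indicator (fun τ => ‖hd1_F φ τ‖ₑ ^ (2:ℝ)) τ := by
      intro N
      rw [lintegral_indicator measurableSet_Ioc.compl]
    simp only [h5]
    have h0 : (0 : ℝ≥0∞) = ∫⁻ _ : ℝ, 0 := by simp
    rw [h0]
    refine tendsto_lintegral_of_dominated_convergence' (fun τ => ‖hd1_F φ τ‖ₑ ^ (2:ℝ)) ?_ ?_ hfin ?_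
    · intro N
      exact (((hd1_F_meas φ.integrable).enorm).pow_const _).indicator measurableSet_Ioc.compl
    · intro N
      refine Filter.Eventually.of_forall fun τ => ?_
      exact indicator_le_self' (fun _ _ => zero_le) τ
    · refine Filter.Eventually.of_forall fun τ => ?_
      refine tendsto_const_nhds.congr' ?_
      have h6 : Filter.Tendsto (fun N : ℕ => (2:ℝ) ^ N) Filter.atTop Filter.atTop :=
        tendsto_pow_atTop_atTop_of_one_lt (by norm_num)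
      filter_upwards [h6.eventually_gt_atTop |τ|] with N hN
      rw [indicator_of_notMem]
      simp only [mem_compl_iff, not_not, mem_Ioc]
      exact ⟨by linarith [neg_abs_le τ], by linarith [le_abs_self τ]⟩
  exact tendsto_of_tendsto_of_tendsto_of_le_of_le tendsto_const_nhds hlim (fun _ => zero_le) hle

theorem hd1_two (x y : ℂ) : ‖x + y‖ₑ ^ (2:ℝ) ≤ 2 * (‖x‖ₑ ^ (2:ℝ) + ‖y‖ₑ ^ (2:ℝ)) := by
  have h1 : ‖x + y‖ₑ ≤ ‖x‖ₑ + ‖y‖ₑ := enorm_add_le x y
  have h2 := ENNReal.rpow_add_le_mul_rpow_add_rpow ‖x‖ₑ ‖y‖ₑ (p := 2) (by norm_num)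
  refine (ENNReal.rpow_le_rpow h1 (by norm_num)).trans (h2.trans (le_of_eq ?_))
  norm_num

/-
ROW D1 (1.5 h). Convergence of the partial Fourier integrals. T_N H κ := ∫ v, H v * ps (-2^N) (2^N) (v - κ). Fubini: for H integrable T_N H κ =
∫ τ in -2^N..2^N, Ĥ τ * ex (-(τ κ)), Ĥ τ = ∫ v, H v * ex (τ v).
(1) contraction: ∫⁻ ‖T_N H‖² ≤ ∫⁻ ‖H‖² for H ∈ L¹ ∩ L²: `bessel` twice (first Ω = [-2^N, 2^N], F = Ĥ bounded, Ψ τ = -τ; then Ω = ℝ, F = H, Ψ = id).
(2) for a Schwartz function φ: T_N φ - φ = -∫_{|τ| > 2^N} φ̂ τ ex (-(τ κ)) (Fourier inversion, φ̂ integrable), so by `bessel` its L² norm squared is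
≤ ∫_{|τ| > 2^N} ‖φ̂‖² → 0.
(3) approximate H (bounded with bounded support, so in L²) in L² by Schwartz (or smooth compactly supported) functions: ‖T_N H - H‖₂ ≤ 2 ‖H - φ‖₂ + ‖T_N φ - φ‖₂
(MemLp.exists_hasCompactSupport_eLpNorm_sub_le + ContDiffBump convolution, or `MeasureTheory.MemLp` density of Schwartz functions SchwartzMap.denseRange_toLpCLM;
alternatively use Mathlib's L² Fourier transform (Plancherel) directly).
-/
theorem dirichlet_L2 (H : ℝ → ℂ) (hH : Measurable H) (C V : ℝ) (hb : ∀ v, ‖H v‖ ≤ C)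
    (hs : ∀ v, V < |v| → H v = 0) :
    Filter.Tendsto (fun N : ℕ => ∫⁻ κ : ℝ, ‖(∫ v, H v * ps (-(2:ℝ) ^ N) ((2:ℝ) ^ N) (v - κ)) -
      H κ‖ₑ ^ (2:ℝ)) Filter.atTop (nhds 0) := by
  change Filter.Tendsto (fun N : ℕ => ∫⁻ κ : ℝ, ‖hd1_T ((2:ℝ) ^ N) H κ - H κ‖ₑ ^ (2:ℝ))
    Filter.atTop (nhds 0)
  have hC : 0 ≤ C := (norm_nonneg _).trans (hb 0)
  have hsupp : Function.support H ⊆ Icc (-|V|) |V| := by
    intro v hv
    by_contra hcon
    apply hv
    apply hs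
    rw [mem_Icc, ← abs_le, not_le] at hcon
    exact (le_abs_self V).trans_lt hcon
  have hmem : ∀ p : ℝ≥0∞, MemLp H p volume := by
    intro p
    have h1 : MemLp H p (volume.restrict (Icc (-|V|) |V|)) :=
      MemLp.of_bound hH.aestronglyMeasurable C (Filter.Eventually.of_forall hb)
    have h2 := (memLp_indicator_iff_restrict (f := H) (p := p) (μ := (volume : Measure ℝ))
      (measurableSet_Icc (a := -|V|) (b := |V|))).2 h1
    rwa [indicator_eq_self.2 hsupp] at h2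
  have hHi : Integrable H := memLp_one_iff_integrable.1 (hmem 1)
  rw [ENNReal.tendsto_nhds_zero]
  intro ε hε
  by_cases hεt : ε = ∞
  · simp [hεt]
  -- choice of the approximation
  have hε0 : 0 < ε.toReal := ENNReal.toReal_pos hε.ne' hεt
  set δ : ℝ := √(ε.toReal / 16) with hδ
  have hδ0 : 0 < δ := Real.sqrt_pos.2 (by positivity)
  obtain ⟨g, hg1, hg2, hg3⟩ := MemLp.exist_eLpNorm_sub_le (p := 2) (by norm_num) (by norm_num)
    (hmem 2) hδ0
  set φ : SchwartzMap ℝ ℂ := hg1.toSchwartzMap hg2 with hφ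
  have hφg : ∀ v, φ v = g v := fun v => rfl
  have hgi : Integrable (fun v => H v - φ v) := hHi.sub φ.integrable
  have hsmall : ∫⁻ v, ‖H v - φ v‖ₑ ^ (2:ℝ) ≤ ε / 16 := by
    have h3 := hg3
    rw [eLpNorm_eq_lintegral_rpow_enorm_toReal (by norm_num) (by norm_num)] at h3
    have h4 := ENNReal.rpow_le_rpow h3 (z := 2) (by norm_num)
    rw [← ENNReal.rpow_mul] at h4
    norm_num at h4
    have h5 : (ENNReal.ofReal δ) ^ 2 = ε / 16 := by
      rw [← ENNReal.ofReal_pow hδ0.le, hδ, Real.sq_sqrt (by positivity),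
        ENNReal.ofReal_div_of_pos (by norm_num), ENNReal.ofReal_toReal hεt]
      norm_num
    rw [h5] at h4
    simpa [hφg] using h4
  have hsch := hd1_schw φ
  rw [ENNReal.tendsto_nhds_zero] at hsch
  have hε4 : 0 < ε / 4 := ENNReal.div_pos hε.ne' (by norm_num)
  filter_upwards [hsch (ε / 4) hε4] with N hN
  have hTadd : ∀ κ, hd1_T ((2:ℝ) ^ N) H κ - H κ =
      (hd1_T ((2:ℝ) ^ N) (fun v => H v - φ v) κ + (-(H κ - φ κ))) +
        (hd1_T ((2:ℝ) ^ N) φ κ - φ κ) := by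
    intro κ
    have h6 : hd1_T ((2:ℝ) ^ N) (fun v => H v - φ v) κ =
        hd1_T ((2:ℝ) ^ N) H κ - hd1_T ((2:ℝ) ^ N) φ κ := by
      unfold hd1_T
      have hi : ∀ G : ℝ → ℂ, Integrable G →
          Integrable (fun v => G v * ps (-(2:ℝ) ^ N) ((2:ℝ) ^ N) (v - κ)) := by
        intro G hG
        refine Integrable.mono (hG.mul_const (((|(2:ℝ) ^ N - -(2:ℝ) ^ N| : ℝ) : ℂ))) ?_
          (Filter.Eventually.of_forall fun v => ?_)
        · refine hG.aestronglyMeasurable.mul (Continuous.aestronglyMeasurable ?_)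
          exact (continuous_ps _ _).comp (by fun_prop)
        · rw [norm_mul, norm_mul, Complex.norm_real, Real.norm_eq_abs, abs_abs]
          exact mul_le_mul_of_nonneg_left (norm_ps_le _ _ _) (norm_nonneg _)
      rw [← integral_sub (hi H hHi) (hi φ φ.integrable)]
      refine integral_congr_ae (Filter.Eventually.of_forall fun v => ?_)
      simp only [sub_mul]
    rw [h6]
    ring
  have hpt : ∀ κ, ‖hd1_T ((2:ℝ) ^ N) H κ - H κ‖ₑ ^ (2:ℝ) ≤
      4 * ‖hd1_T ((2:ℝ) ^ N) (fun v => H v - φ v) κ‖ₑ ^ (2:ℝ) +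
      (4 * ‖H κ - φ κ‖ₑ ^ (2:ℝ) + 2 * ‖hd1_T ((2:ℝ) ^ N) φ κ - φ κ‖ₑ ^ (2:ℝ)) := by
    intro κ
    rw [hTadd κ]
    refine (hd1_two _ _).trans ?_
    have h7 := hd1_two (hd1_T ((2:ℝ) ^ N) (fun v => H v - φ v) κ) (-(H κ - φ κ))
    rw [enorm_neg] at h7
    calc _ ≤ 2 * (2 * (‖hd1_T ((2:ℝ) ^ N) (fun v => H v - φ v) κ‖ₑ ^ (2:ℝ) +
        ‖H κ - φ κ‖ₑ ^ (2:ℝ)) + ‖hd1_T ((2:ℝ) ^ N) φ κ - φ κ‖ₑ ^ (2:ℝ)) := by gcongr
      _ = _ := by ring
  have hm1 : AEMeasurable (fun κ => 4 * ‖hd1_T ((2:ℝ) ^ N) (fun v => H v - φ v) κ‖ₑ ^ (2:ℝ))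
      volume := (((hd1_T_meas hgi _).enorm).pow_const _).const_mul _
  have hm2 : AEMeasurable (fun κ => 4 * ‖H κ - φ κ‖ₑ ^ (2:ℝ)) volume :=
    ((hgi.aestronglyMeasurable.enorm).pow_const _).const_mul _
  calc ∫⁻ κ : ℝ, ‖hd1_T ((2:ℝ) ^ N) H κ - H κ‖ₑ ^ (2:ℝ) ≤ _ := lintegral_mono hpt
    _ = 4 * (∫⁻ κ, ‖hd1_T ((2:ℝ) ^ N) (fun v => H v - φ v) κ‖ₑ ^ (2:ℝ)) +
        (4 * (∫⁻ κ, ‖H κ - φ κ‖ₑ ^ (2:ℝ)) +
          2 * (∫⁻ κ, ‖hd1_T ((2:ℝ) ^ N) φ κ - φ κ‖ₑ ^ (2:ℝ))) := by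
        rw [lintegral_add_left' hm1, lintegral_add_left' hm2,
          lintegral_const_mul' _ _ (by norm_num), lintegral_const_mul' _ _ (by norm_num),
          lintegral_const_mul' _ _ (by norm_num)]
    _ ≤ 4 * (ε / 16) + (4 * (ε / 16) + 2 * (ε / 4)) := by
        gcongr
        exact (hd1_contr hgi (by positivity)).trans hsmall
    _ = ε := by
        have e : ε = ENNReal.ofReal ε.toReal := (ENNReal.ofReal_toReal hεt).symm
        have e4 : ε / 4 = ENNReal.ofReal (ε.toReal / 4) := by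
          rw [ENNReal.ofReal_div_of_pos (by norm_num), ← e]; norm_num
        have e16 : ε / 16 = ENNReal.ofReal (ε.toReal / 16) := by
          rw [ENNReal.ofReal_div_of_pos (by norm_num), ← e]; norm_num
        rw [e4, e16]
        have f4 : (4 : ℝ≥0∞) = ENNReal.ofReal 4 := by norm_num
        have f2 : (2 : ℝ≥0∞) = ENNReal.ofReal 2 := by norm_num
        rw [f4, f2, ← ENNReal.ofReal_mul (by norm_num), ← ENNReal.ofReal_mul (by norm_num),
          ← ENNReal.ofReal_add (by positivity) (by positivity),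
          ← ENNReal.ofReal_add (by positivity) (by positivity)]
        nth_rewrite 4 [e]
        congr 1
        ring

end Pool.Agent.AEL
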