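import Pool.Agent.AEL.D1

namespace Pool.Agent.AEL

open MeasureTheory Set Pool.Agent.MP_6cbfb8_an Pool.Agent.MST
open scoped ENNReal Real

/-
ROW D1b (0.5 h). L² convergence implies convergence in measure, hence a.e. convergence along a subsequence (tendstoInMeasure_of_tendsto_eLpNorm,
TendstoInMeasure.exists_seq_tendsto_ae; eLpNorm with exponent 2 is the square root of the lintegral), or Borel-Cantelli directly. Then the bound passes to the limit.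
-/
theorem dirichlet_bound (H : ℝ → ℂ) (hH : Measurable H) (C V : ℝ) (hb : ∀ v, ‖H v‖ ≤ C)
    (hs : ∀ v, V < |v| → H v = 0) (B : ℝ → ℝ≥0∞)
    (hB : ∀ (N : ℕ) (κ : ℝ), ‖∫ v, H v * ps (-(2:ℝ) ^ N) ((2:ℝ) ^ N) (v - κ)‖ₑ ≤ B κ) :
    ∀ᵐ κ : ℝ, ‖H κ‖ₑ ≤ B κ := by
  obtain ⟨T, hT⟩ : ∃ T : ℕ → ℝ → ℂ, T = fun N κ => ∫ v, H v * ps (-(2:ℝ) ^ N) ((2:ℝ) ^ N) (v - κ) :=
    ⟨_, rfl⟩
  have hTm : ∀ N, Measurable (T N) := by
    intro N
    have h1 : StronglyMeasurable (Function.uncurry fun (κ v : ℝ) =>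
        H v * ps (-(2:ℝ) ^ N) ((2:ℝ) ^ N) (v - κ)) := by
      apply Measurable.stronglyMeasurable
      have h2 : Measurable fun q : ℝ × ℝ => H q.2 := hH.comp measurable_snd
      have h3 : Measurable fun q : ℝ × ℝ => ps (-(2:ℝ) ^ N) ((2:ℝ) ^ N) (q.2 - q.1) :=
        (continuous_ps _ _).measurable.comp (measurable_snd.sub measurable_fst)
      exact h2.mul h3
    rw [hT]
    exact (h1.integral_prod_right (ν := volume)).measurable
  have hlim := dirichlet_L2 H hH C V hb hs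
  have hB' : ∀ N κ, ‖T N κ‖ₑ ≤ B κ := fun N κ => by rw [hT]; exact hB N κ
  have hlim' : Filter.Tendsto (fun N : ℕ => ∫⁻ κ : ℝ, ‖T N κ - H κ‖ₑ ^ (2:ℝ)) Filter.atTop (nhds 0) := by
    rw [hT]; exact hlim
  have hDm : ∀ N, Measurable fun κ => ‖T N κ - H κ‖ₑ ^ (2:ℝ) := fun N =>
    (((hTm N).sub hH).enorm).pow_const _
  have hfatou := lintegral_liminf_le (μ := (volume : Measure ℝ)) (u := Filter.atTop) hDm
  rw [hlim'.liminf_eq] at hfatou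
  have h0 : ∫⁻ κ : ℝ, Filter.liminf (fun N => ‖T N κ - H κ‖ₑ ^ (2:ℝ)) Filter.atTop = 0 :=
    le_antisymm hfatou (by simp)
  rw [lintegral_eq_zero_iff (Measurable.liminf hDm)] at h0
  filter_upwards [h0] with κ hκ
  by_contra hcon
  rw [not_le] at hcon
  have he : 0 < ‖H κ‖ₑ - B κ := tsub_pos_of_lt hcon
  have hge : ∀ N, ‖H κ‖ₑ - B κ ≤ ‖T N κ - H κ‖ₑ := by
    intro N
    rw [tsub_le_iff_left]
    calc ‖H κ‖ₑ = ‖T N κ - (T N κ - H κ)‖ₑ := by rw [sub_sub_cancel]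
      _ ≤ ‖T N κ‖ₑ + ‖T N κ - H κ‖ₑ := enorm_sub_le
      _ ≤ B κ + ‖T N κ - H κ‖ₑ := add_le_add (hB' N κ) le_rfl
  have h2 : (‖H κ‖ₑ - B κ) ^ (2:ℝ) ≤
      Filter.liminf (fun N => ‖T N κ - H κ‖ₑ ^ (2:ℝ)) Filter.atTop := by
    refine Filter.le_liminf_of_le (by isBoundedDefault) ?_
    exact Filter.Eventually.of_forall fun N => ENNReal.rpow_le_rpow (hge N) (by norm_num)
  have h3 : Filter.liminf (fun N => ‖T N κ - H κ‖ₑ ^ (2:ℝ)) Filter.atTop = 0 := hκ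
  rw [h3] at h2
  have h4 : (‖H κ‖ₑ - B κ) ^ (2:ℝ) = 0 := le_antisymm h2 (by simp)
  rw [ENNReal.rpow_eq_zero_iff] at h4
  rcases h4 with ⟨h5, _⟩ | ⟨_, h5⟩
  · exact he.ne' h5
  · norm_num at h5

end Pool.Agent.AEL
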