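import Pool.Agent.AEL.Defs
import Pool.Agent.MST.O2
import Pool.Agent.MST.KF

namespace Pool.Agent.AEL

open MeasureTheory Set Pool.Agent.MP_6cbfb8_an Pool.Agent.MST
open scoped ENNReal Real

theorem hd2_mv_add {n : ℕ} (A : Mat n) (x y : E n) : mv A (x + y) = mv A x + mv A y := by
  ext i
  simp [mv, mul_add, Finset.sum_add_distrib]

theorem hd2_mv_smul {n : ℕ} (A : Mat n) (c : ℝ) (x : E n) : mv A (c • x) = c • mv A x := by
  ext i
  simp only [mv, PiLp.smul_apply, smul_eq_mul, Finset.mul_sum]
  exact Finset.sum_congr rfl fun j _ => by ring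

/-- The linear equivalence given by a pair of inverse matrices. -/
noncomputable def hd2_equiv {n : ℕ} (A X : Mat n) (h1 : ∀ y, mv A (mv X y) = y)
    (h2 : ∀ y, mv X (mv A y) = y) : E n ≃ₗ[ℝ] E n where
  toFun := mv A
  map_add' := hd2_mv_add A
  map_smul' := hd2_mv_smul A
  invFun := mv X
  left_inv := h2
  right_inv := h1

/-
ROW D2 (1.2 h). lin_change: y ↦ mv A y is an invertible linear map of E n (inverse mv X); MeasureTheory.Measure.addHaar_preimage_linearMap /
map_linearMap_addHaar_eq_smul_addHaar (or LinearEquiv/ContinuousLinearEquiv versions): D = |det A|. The statement for Bochner integrals is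
integral_map + integral_smul_measure (no measurability of h needed if one uses a measurable equivalence: MeasurableEmbedding.integral_map).
-/
theorem lin_change {n : ℕ} (A X : Mat n) (h1 : ∀ y, mv A (mv X y) = y)
    (h2 : ∀ y, mv X (mv A y) = y) : ∃ D : ℝ, 0 < D ∧
    (∀ φ : E n → ℝ≥0∞, Measurable φ → ∫⁻ w, φ w = ENNReal.ofReal D * ∫⁻ u, φ (mv A u)) ∧
    (∀ h : E n → ℂ, ∫ w, h w = (D : ℂ) * ∫ u, h (mv A u)) := by
  set e := hd2_equiv A X h1 h2 with he
  have hdet : LinearMap.det (e : E n →ₗ[ℝ] E n) ≠ 0 := (LinearEquiv.isUnit_det' e).ne_zero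
  have hemb : MeasurableEmbedding (fun u : E n => mv A u) := by
    have h3 : (fun u : E n => mv A u) = e.toContinuousLinearEquiv.toHomeomorph := rfl
    rw [h3]
    exact e.toContinuousLinearEquiv.toHomeomorph.measurableEmbedding
  have hmap : Measure.map (fun u : E n => mv A u) (volume : Measure (E n))
      = ENNReal.ofReal |(LinearMap.det (e : E n →ₗ[ℝ] E n))⁻¹| • (volume : Measure (E n)) :=
    Measure.map_linearMap_addHaar_eq_smul_addHaar (volume : Measure (E n)) hdet
  have hpos : 0 < |LinearMap.det (e : E n →ₗ[ℝ] E n)| := abs_pos.mpr hdet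
  refine ⟨|LinearMap.det (e : E n →ₗ[ℝ] E n)|, hpos, ?_, ?_⟩
  · intro φ hφ
    rw [← lintegral_map hφ hemb.measurable, hmap, lintegral_smul_measure, smul_eq_mul, ← mul_assoc,
      ← ENNReal.ofReal_mul hpos.le, abs_inv, mul_inv_cancel₀ hpos.ne', ENNReal.ofReal_one, one_mul]
  · intro h
    rw [← hemb.integral_map, hmap, integral_smul_measure,
      ENNReal.toReal_ofReal (abs_nonneg _), abs_inv, Complex.real_smul, ← mul_assoc,
      ← Complex.ofReal_mul, mul_inv_cancel₀ hpos.ne', Complex.ofReal_one, one_mul]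

end Pool.Agent.AEL
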