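import Pool.Agent.AEL.D2

namespace Pool.Agent.AEL

open MeasureTheory Set Pool.Agent.MP_6cbfb8_an Pool.Agent.MST
open scoped ENNReal Real


lemma hd3_polar (n : ℕ) (hn : 1 ≤ n) (f : E n → ℂ) (hf : Integrable f) :
    ∫ x, f x = ∫ ρ in Ioi (0:ℝ), ((ρ ^ (n - 1) : ℝ) : ℂ) *
      ∫ ω : S n, f (ρ • (ω : E n)) ∂(sm n) := by
  have : Nontrivial (E n) := by
    have : Nonempty (Fin n) := ⟨⟨0, by omega⟩⟩
    infer_instance
  have h1 := Measure.measurePreserving_homeomorphUnitSphereProd (volume : Measure (E n))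
  have hd : Module.finrank ℝ (E n) - 1 = n - 1 := by simp
  rw [hd] at h1
  set g : S n × Ioi (0:ℝ) → ℂ := fun q => f ((q.2 : ℝ) • (q.1 : E n)) with hg
  have e3 : g ∘ (homeomorphUnitSphereProd (E n)) = f ∘ ((↑) : ({0}ᶜ : Set (E n)) → E n) := by
    funext x
    have := homeomorphUnitSphereProd_symm_apply_coe (E n) ((homeomorphUnitSphereProd (E n)) x)
    rw [Homeomorph.symm_apply_apply] at this
    simp only [hg, Function.comp_apply]
    rw [← this]
  have hem := (homeomorphUnitSphereProd (E n)).measurableEmbedding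
  have hi : Integrable g ((sm n).prod (Measure.volumeIoiPow (n - 1))) := by
    rw [← h1.integrable_comp_emb hem, e3,
      ← integrableOn_iff_comap_subtypeVal (measurableSet_singleton _).compl]
    exact hf.integrableOn
  calc ∫ x, f x = ∫ x : ({0}ᶜ : Set (E n)), f x ∂((volume : Measure (E n)).comap (↑)) := by
        rw [integral_subtype_comap (measurableSet_singleton _).compl f, restrict_compl_singleton]
    _ = ∫ q, g q ∂((sm n).prod (Measure.volumeIoiPow (n - 1))) := by
        rw [← h1.integral_comp hem]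
        refine integral_congr_ae (ae_of_all _ fun x => ?_)
        exact (congrFun e3 x).symm
    _ = ∫ ρ : Ioi (0:ℝ), (∫ ω : S n, f ((ρ : ℝ) • (ω : E n)) ∂(sm n))
          ∂(Measure.volumeIoiPow (n - 1)) := integral_prod_symm g hi
    _ = _ := by
        simp only [Measure.volumeIoiPow, ENNReal.ofReal]
        rw [integral_withDensity_eq_integral_smul, integral_subtype_comap measurableSet_Ioi
          fun a => Real.toNNReal (a ^ (n - 1)) • ∫ ω : S n, f (a • (ω : E n)) ∂(sm n)]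
        · refine setIntegral_congr_fun measurableSet_Ioi fun x hx => ?_
          rw [NNReal.smul_def, Real.coe_toNNReal _ (pow_nonneg (le_of_lt hx) _)]
          simp
        · exact (measurable_subtype_coe.pow_const _).real_toNNReal

lemma hd3_bound {n : ℕ} (X : Mat n) : ∃ K : ℝ, 0 ≤ K ∧ ∀ y, ‖mv X y‖ ≤ K * ‖y‖ := by
  let L : E n →ₗ[ℝ] E n := {
    toFun := mv X
    map_add' := fun x y => by
      ext i
      simp [mv, mul_add, Finset.sum_add_distrib]
    map_smul' := fun c x => by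
      ext i
      simp only [mv, PiLp.smul_apply, smul_eq_mul, RingHom.id_apply, Finset.mul_sum]
      exact Finset.sum_congr rfl fun j _ => by ring }
  refine ⟨‖L.toContinuousLinearMap‖, norm_nonneg _, fun y => ?_⟩
  exact L.toContinuousLinearMap.le_opNorm y

lemma hd3_cont {n : ℕ} (A : Mat n) : Continuous fun q : ℝ × S n => mv A (√q.1 • (q.2 : E n)) := by
  have h := continuous_mv (m := n)
  have h2 : Continuous fun q : ℝ × S n => ((A, √q.1 • (q.2 : E n)) : Mat n × E n) := by
    fun_prop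
  exact h.comp h2

lemma hd3_contA {n : ℕ} (A : Mat n) : Continuous fun u : E n => mv A u := by
  have h := continuous_mv (m := n)
  have h2 : Continuous fun u : E n => ((A, u) : Mat n × E n) := by
    fun_prop
  exact h.comp h2

lemma hd3_int {n : ℕ} (A X : Mat n) (h2 : ∀ y, mv X (mv A y) = y) (h : E n → ℂ) (ψ : ℝ → ℂ)
    (R C C' : ℝ) (hh : Measurable h) (hψ : Measurable ψ) (hb : ∀ w, ‖h w‖ ≤ C)
    (hs : ∀ w, R < ‖w‖ → h w = 0) (hb' : ∀ v, ‖ψ v‖ ≤ C') :
    Integrable fun u : E n => h (mv A u) * ψ (‖u‖ ^ 2) := by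
  obtain ⟨K, hK, hX⟩ := hd3_bound X
  have hC : 0 ≤ C := (norm_nonneg _).trans (hb 0)
  have hm : Measurable fun u : E n => h (mv A u) * ψ (‖u‖ ^ 2) := by
    refine (hh.comp (hd3_contA A).measurable).mul (hψ.comp ?_)
    fun_prop
  have hsup : Function.support (fun u : E n => h (mv A u) * ψ (‖u‖ ^ 2)) ⊆
      Metric.closedBall 0 (K * |R|) := by
    intro u hu
    rw [mem_closedBall_zero_iff]
    by_contra hc
    push Not at hc
    apply hu
    have h3 : R < ‖mv A u‖ := by
      by_contra h4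
      push Not at h4
      have h5 := hX (mv A u)
      rw [h2 u] at h5
      have h6 : K * ‖mv A u‖ ≤ K * |R| := by
        apply mul_le_mul_of_nonneg_left _ hK
        exact h4.trans (le_abs_self R)
      linarith
    simp only [hs _ h3, zero_mul]
  rw [← integrableOn_iff_integrable_of_support_subset hsup]
  refine Measure.integrableOn_of_bounded (M := C * C') ?_ hm.aestronglyMeasurable ?_
  · exact (isCompact_closedBall _ _).measure_lt_top.ne
  · refine ae_of_all _ fun u => ?_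
    rw [norm_mul]
    exact mul_le_mul (hb _) (hb' _) (norm_nonneg _) hC

/-
ROW D3 (1.3 h). Polar coordinates for complex functions. push: w = mv A u (`lin_change`, constant D1), ‖mv X w‖ = ‖u‖; then with f u = h (mv A u) ψ(‖u‖²)
(bounded, measurable, bounded support: ‖u‖ = ‖mv X (mv A u)‖ ≤ C ‖mv A u‖) polar coordinates
∫ f = ∫ ω ∫ ρ>0 f(ρ ω) ρ^(n-1) (n = j+1; Measure.measurePreserving_homeomorphUnitSphereProd as in lintegral_polar of Sphere.lean, or
`integral_fun_norm_addHaar`-style lemmas; or deduce it from lintegral_polar by splitting real and imaginary, positive and negative parts), Fubini (n ≥ 3) and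
ρ = √v: ρ^(n-1) dρ = (1/2) v^((n-2)/2) dv (integral_comp_rpow_Ioi or MeasureTheory.integral_image_eq_integral_abs_deriv_smul). ‖ρ ω‖² = ρ² = v, so
ψ(v) comes out. D = D1/2.
HD_bdd: |h| ≤ C on the sphere, and h (mv A (√v ω)) = 0 if ‖mv A (√v ω)‖ > R; ‖√v ω‖ = ‖mv X (mv A (√v ω))‖ ≤ C_X ‖mv A (√v ω)‖, so HD v = 0 for
v > (C_X R)², and v^((n-2)/2) is bounded on [0, (C_X R)²] since n ≥ 2. Measurability: StronglyMeasurable.integral_prod_right.
-/
theorem push {n : ℕ} (hn : 3 ≤ n) (A X : Mat n) (h1 : ∀ y, mv A (mv X y) = y)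
    (h2 : ∀ y, mv X (mv A y) = y) : ∃ D : ℝ, 0 < D ∧ ∀ (h : E n → ℂ) (ψ : ℝ → ℂ) (R C C' : ℝ),
    Measurable h → Measurable ψ → (∀ w, ‖h w‖ ≤ C) → (∀ w, R < ‖w‖ → h w = 0) →
    (∀ v, ‖ψ v‖ ≤ C') →
    ∫ w, h w * ψ (‖mv X w‖ ^ 2) = ∫ v, HD A D h v * ψ v := by
  obtain ⟨D, hD, -, hch⟩ := lin_change A X h1 h2
  refine ⟨D / 2, by positivity, fun h ψ R C C' hh hψ hb hs hb' => ?_⟩
  rw [hch]
  simp only [h2]
  rw [hd3_polar n (by omega) _ (hd3_int A X h2 h ψ R C C' hh hψ hb hs hb')]
  have e1 : ∀ ρ ∈ Ioi (0:ℝ), ((ρ ^ (n - 1) : ℝ) : ℂ) * ∫ ω : S n,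
      h (mv A (ρ • (ω : E n))) * ψ (‖ρ • (ω : E n)‖ ^ 2) ∂(sm n) =
      ((ρ ^ (n - 1) : ℝ) : ℂ) * ((∫ ω : S n, h (mv A (ρ • (ω : E n))) ∂(sm n)) * ψ (ρ ^ 2)) := by
    intro ρ hρ
    have e2 : ∀ ω : S n, ‖ρ • (ω : E n)‖ ^ 2 = ρ ^ 2 := by
      intro ω
      rw [norm_smul]
      simp
    simp only [e2]
    rw [integral_mul_const]
  rw [setIntegral_congr_fun measurableSet_Ioi e1]
  rw [← integral_comp_rpow_Ioi_of_pos (p := 1 / 2) (by norm_num)]
  rw [← integral_const_mul, ← integral_indicator measurableSet_Ioi]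
  refine integral_congr_ae (ae_of_all _ fun v => ?_)
  simp only [indicator, mem_Ioi, HD]
  split_ifs with hv
  · have a1 : v ^ (1 / 2 : ℝ) = √v := (Real.sqrt_eq_rpow v).symm
    rw [a1, Real.sq_sqrt hv.le]
    have a2 : (1 / 2 : ℝ) * v ^ ((1 / 2 : ℝ) - 1) * √v ^ (n - 1) =
        1 / 2 * v ^ (((n : ℝ) - 2) / 2) := by
      rw [Real.sqrt_eq_rpow, ← Real.rpow_natCast, ← Real.rpow_mul hv.le, mul_assoc,
        ← Real.rpow_add hv]
      congr 2
      rw [Nat.cast_sub (by omega)]
      push_cast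
      ring
    have a3 : D / 2 * v ^ (((n : ℝ) - 2) / 2) = D * ((1 / 2 : ℝ) * v ^ ((1 / 2 : ℝ) - 1) * √v ^ (n - 1)) := by
      rw [a2]
      ring
    rw [a3]
    rw [Complex.real_smul]
    push_cast
    ring
  · simp

theorem HD_measurable {n : ℕ} (A : Mat n) (D : ℝ) (h : E n → ℂ) (hh : Measurable h) :
    Measurable (HD A D h) := by
  unfold HD
  refine Measurable.ite (measurableSet_lt measurable_const measurable_id) ?_ measurable_const
  refine Measurable.mul ?_ ?_
  · exact Complex.measurable_ofReal.comp (measurable_const.mul (measurable_id.pow_const _))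
  · have h1 : Measurable fun q : ℝ × S n => h (mv A (√q.1 • (q.2 : E n))) :=
      hh.comp (hd3_cont A).measurable
    exact (h1.stronglyMeasurable.integral_prod_right' (ν := sm n)).measurable

theorem HD_bdd {n : ℕ} (hn : 3 ≤ n) (A X : Mat n) (h1 : ∀ y, mv A (mv X y) = y)
    (h2 : ∀ y, mv X (mv A y) = y) (D : ℝ) (h : E n → ℂ) (R C : ℝ) (hb : ∀ w, ‖h w‖ ≤ C)
    (hs : ∀ w, R < ‖w‖ → h w = 0) :
    ∃ C' V : ℝ, (∀ v, ‖HD A D h v‖ ≤ C') ∧ ∀ v, V < |v| → HD A D h v = 0 := by
  obtain ⟨K, hK, hX⟩ := hd3_bound X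
  have hC : 0 ≤ C := (norm_nonneg _).trans (hb 0)
  have hz : ∀ v, (K * |R|) ^ 2 < |v| → HD A D h v = 0 := by
    intro v hv
    unfold HD
    split_ifs with h0
    · rw [abs_of_pos h0] at hv
      have e : ∀ ω : S n, h (mv A (√v • (ω : E n))) = 0 := by
        intro ω
        apply hs
        by_contra h4
        push Not at h4
        have h5 := hX (mv A (√v • (ω : E n)))
        rw [h2] at h5
        have h7 : ‖√v • (ω : E n)‖ = √v := by
          rw [norm_smul]
          simp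
        rw [h7] at h5
        have h6 : K * ‖mv A (√v • (ω : E n))‖ ≤ K * |R| := by
          apply mul_le_mul_of_nonneg_left _ hK
          exact h4.trans (le_abs_self R)
        have h8 : √v ≤ K * |R| := h5.trans h6
        have h9 : v ≤ (K * |R|) ^ 2 := by
          rw [← Real.sq_sqrt h0.le]
          exact pow_le_pow_left₀ (Real.sqrt_nonneg _) h8 2
        linarith
      simp [e]
    · rfl
  refine ⟨|D| * ((K * |R|) ^ 2) ^ (((n : ℝ) - 2) / 2) * (C * (sm n).real univ),
    (K * |R|) ^ 2, fun v => ?_, hz⟩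
  by_cases hv : (K * |R|) ^ 2 < |v|
  · rw [hz v hv, norm_zero]
    positivity
  · push Not at hv
    unfold HD
    split_ifs with h0
    · rw [abs_of_pos h0] at hv
      rw [norm_mul, Complex.norm_real, norm_mul, Real.norm_eq_abs, Real.norm_eq_abs,
        abs_of_nonneg (Real.rpow_nonneg h0.le _)]
      have hn' : (3:ℝ) ≤ n := by exact_mod_cast hn
      have b1 : v ^ (((n : ℝ) - 2) / 2) ≤ ((K * |R|) ^ 2) ^ (((n : ℝ) - 2) / 2) :=
        Real.rpow_le_rpow h0.le hv (by linarith)
      have b2 : ‖∫ ω : S n, h (mv A (√v • (ω : E n))) ∂(sm n)‖ ≤ C * (sm n).real univ := by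
        refine norm_integral_le_of_norm_le_const (ae_of_all _ fun ω => hb _)
      gcongr
    · rw [norm_zero]
      positivity

end Pool.Agent.AEL
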