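import Pool.Agent.AEL.BA

namespace Pool.Agent.AEL

open MeasureTheory Set Pool.Agent.MP_6cbfb8_an Pool.Agent.MST
open scoped ENNReal Real

theorem htl_norm_ex (a : ℝ) : ‖ex a‖ = 1 := by
  unfold ex
  exact Complex.norm_exp_ofReal_mul_I _

theorem htl_cont_ex : Continuous ex := by
  unfold ex
  fun_prop

theorem htl_meas_am {n : ℕ} (R0 a b : ℝ) (l : Mat n × ℝ) :
    Measurable fun w : E n => am R0 a b l w := by
  exact (measurable_am (n := n) R0 a b).of_uncurry_left (x := l)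

theorem htl_int {n : ℕ} (R0 a b : ℝ) (l : Mat n × ℝ) (G : E n → ℂ) (hG : Measurable G)
    (hb : ∀ w, ‖G w‖ ≤ 1) (x : E n) :
    Integrable fun w : E n => G w * am R0 a b l w * ex (inner ℝ w x) := by
  have hm : Measurable fun w : E n => G w * am R0 a b l w * ex (inner ℝ w x) := by
    refine (hG.mul (htl_meas_am R0 a b l)).mul (htl_cont_ex.measurable.comp ?_)
    fun_prop
  rw [← integrableOn_iff_integrable_of_support_subset (s := Metric.closedBall (0 : E n) R0)]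
  · refine Measure.integrableOn_of_bounded (M := |b - a|) measure_closedBall_lt_top.ne
      hm.aestronglyMeasurable (Filter.Eventually.of_forall fun w => ?_)
    rw [norm_mul, norm_mul, htl_norm_ex, mul_one]
    calc ‖G w‖ * ‖am R0 a b l w‖ ≤ 1 * |b - a| :=
          mul_le_mul (hb w) (norm_am_le _ _ _ _ _) (norm_nonneg _) zero_le_one
      _ = |b - a| := one_mul _
  · intro w hw
    rw [Metric.mem_closedBall, dist_zero_right]
    by_contra hlt
    push Not at hlt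
    apply hw
    show G w * am R0 a b l w * ex (inner ℝ w x) = 0
    rw [am_zero R0 a b l w hlt, mul_zero, zero_mul]

theorem htl_am_add {n : ℕ} (R0 a b c : ℝ) (l : Mat n × ℝ) (y : E n) :
    am R0 a b l y + am R0 b c l y = am R0 a c l y := by
  unfold am
  split_ifs
  · exact ps_add a b c _
  · exact add_zero 0

theorem htl_op_add {n : ℕ} (R0 a b c : ℝ) (l : Mat n × ℝ) (G : E n → ℂ) (hG : Measurable G)
    (hb : ∀ w, ‖G w‖ ≤ 1) (x : E n) :
    op R0 a b l G x + op R0 b c l G x = op R0 a c l G x := by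
  unfold op
  rw [← integral_add (htl_int R0 a b l G hG hb x) (htl_int R0 b c l G hG hb x)]
  congr 1
  funext w
  rw [← htl_am_add R0 a b c l w]
  ring

/-
ROW TL (0.6 h). Telescoping. By ps_add: ps (-2^(N+1)) (2^(N+1)) = ps (-(2·2^N)) (-2^N) + ps (-2^N) (2^N) + ps (2^N) (2·2^N); the amplitudes and (integrals of
bounded measurable functions with bounded support: integral_add) the operators add in the same way. Induction on N: ‖op(-2^N,2^N)‖ₑ ≤ low + Σ_{k<N} (f_k + g_k)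
≤ Phi (ENNReal.sum_le_tsum). N = 0: 2^0 = 1, op R0 (-1) 1.
-/
theorem op_le_Phi {n : ℕ} (R0 : ℝ) (l : Mat n × ℝ) (G : E n → ℂ) (hG : Measurable G)
    (hb : ∀ w, ‖G w‖ ≤ 1) (N : ℕ) (x : E n) :
    ‖op R0 (-(2:ℝ) ^ N) ((2:ℝ) ^ N) l G x‖ₑ ≤ Phi R0 l G x := by
  have key : ‖op R0 (-(2:ℝ) ^ N) ((2:ℝ) ^ N) l G x‖ₑ ≤
      ‖op R0 (-1) 1 l G x‖ₑ + ∑ k ∈ Finset.range N, (‖op R0 ((2:ℝ) ^ k) (2 * (2:ℝ) ^ k) l G x‖ₑ +
        ‖op R0 (-(2 * (2:ℝ) ^ k)) (-((2:ℝ) ^ k)) l G x‖ₑ) := by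
    induction N with
    | zero => simp
    | succ N ih =>
      have e1 : (2:ℝ) ^ (N + 1) = 2 * (2:ℝ) ^ N := by ring
      have h1 : op R0 (-(2:ℝ) ^ (N + 1)) ((2:ℝ) ^ (N + 1)) l G x =
          op R0 (-(2:ℝ) ^ N) ((2:ℝ) ^ N) l G x + (op R0 ((2:ℝ) ^ N) (2 * (2:ℝ) ^ N) l G x +
            op R0 (-(2 * (2:ℝ) ^ N)) (-((2:ℝ) ^ N)) l G x) := by
        rw [e1, ← htl_op_add R0 (-(2 * (2:ℝ) ^ N)) (-(2:ℝ) ^ N) (2 * (2:ℝ) ^ N) l G hG hb x,
          ← htl_op_add R0 (-(2:ℝ) ^ N) ((2:ℝ) ^ N) (2 * (2:ℝ) ^ N) l G hG hb x]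
        ring
      rw [h1, Finset.sum_range_succ]
      refine ((enorm_add_le _ _).trans (add_le_add ih (enorm_add_le _ _))).trans ?_
      rw [add_assoc]
  refine key.trans ?_
  unfold Phi
  gcongr
  exact ENNReal.sum_le_tsum _

end Pool.Agent.AEL
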