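import Pool.Agent.AEL.D3
import Pool.Agent.AEL.D1b
import Pool.Agent.AEL.TL

namespace Pool.Agent.AEL

open MeasureTheory Set Pool.Agent.MP_6cbfb8_an Pool.Agent.MST
open scoped ENNReal Real

theorem hd4_measurable_cutG {n : ℕ} (R0 : ℝ) (G : E n → ℂ) (hG : Measurable G) :
    Measurable (cutG R0 G) := by
  unfold cutG
  exact Measurable.ite (measurableSet_le measurable_norm measurable_const) hG measurable_const

theorem hd4_norm_cutG {n : ℕ} (R0 : ℝ) (G : E n → ℂ) (hb : ∀ w, ‖G w‖ ≤ 1) (w : E n) :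
    ‖cutG R0 G w‖ ≤ 1 := by
  unfold cutG
  split_ifs
  · exact hb w
  · simp

theorem hd4_inner {n : ℕ} (A : Mat n) (x ξ : E n) :
    inner ℝ (mv A x) ξ = inner ℝ x (mv (tm A) ξ) := by
  simp only [PiLp.inner_apply, mv, tm, RCLike.inner_apply, conj_trivial]
  simp_rw [Finset.mul_sum, Finset.sum_mul]
  rw [Finset.sum_comm]
  refine Finset.sum_congr rfl fun i _ => Finset.sum_congr rfl fun j _ => ?_
  ring

/-- the operator as a one-dimensional integral -/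
theorem hd4_op {n : ℕ} (M A X : Mat n) (hq : ∀ y, qf M y = ‖mv X y‖ ^ 2) (D : ℝ)
    (hpush : ∀ (h : E n → ℂ) (ψ : ℝ → ℂ) (R C C' : ℝ),
      Measurable h → Measurable ψ → (∀ w, ‖h w‖ ≤ C) → (∀ w, R < ‖w‖ → h w = 0) →
      (∀ v, ‖ψ v‖ ≤ C') →
      ∫ w, h w * ψ (‖mv X w‖ ^ 2) = ∫ v, HD A D h v * ψ v)
    (R0 : ℝ) (G : E n → ℂ) (ξ : E n) (h : E n → ℂ)
    (hh : h = fun w => cutG R0 G w * ex (inner ℝ w ξ)) (hm : Measurable h)
    (hb : ∀ w, ‖h w‖ ≤ 1) (hz : ∀ w, R0 < ‖w‖ → h w = 0) (a b κ : ℝ) :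
    op R0 a b (M, -κ) G ξ = ∫ v, HD A D h v * ps a b (v - κ) := by
  have h1 := hpush h (fun v => ps a b (v - κ)) R0 1 |b - a| hm
    ((continuous_ps a b).comp (continuous_id.sub continuous_const)).measurable hb hz
    (fun v => norm_ps_le a b _)
  rw [← h1]
  unfold op
  congr 1
  funext w
  rw [hh]
  simp only [am, cutG, hq w]
  split_ifs
  · rw [sub_eq_add_neg]
    ring
  · simp

theorem dom {n : ℕ} (hn : 3 ≤ n) (M A X : Mat n) (hq : ∀ y, qf M y = ‖mv X y‖ ^ 2)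
    (h1 : ∀ y, mv A (mv X y) = y) (h2 : ∀ y, mv X (mv A y) = y) : ∃ D : ℝ, 0 < D ∧
    ∀ (R0 : ℝ) (G : E n → ℂ), Measurable G → (∀ w, ‖G w‖ ≤ 1) → ∀ ξ : E n, ∀ᵐ κ : ℝ, 0 < κ →
      ENNReal.ofReal (D * κ ^ (((n : ℝ) - 2) / 2)) *
        ‖extn (fun x => cutG R0 G (mv A (√κ • x))) (√κ • mv (tm A) ξ)‖ₑ ≤
        Phi R0 (M, -κ) G ξ := by
  obtain ⟨D, hD, hpush⟩ := push hn A X h1 h2
  refine ⟨D, hD, fun R0 G hG hb ξ => ?_⟩
  obtain ⟨h, hh⟩ : ∃ h : E n → ℂ, h = fun w => cutG R0 G w * ex (inner ℝ w ξ) := ⟨_, rfl⟩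
  have hm : Measurable h := by
    rw [hh]
    refine (hd4_measurable_cutG R0 G hG).mul ?_
    exact (hkf_cont_ex.comp (continuous_id.inner continuous_const)).measurable
  have hb1 : ∀ w, ‖h w‖ ≤ 1 := by
    intro w
    rw [hh]
    simp only [norm_mul, hkf_norm_ex, mul_one]
    exact hd4_norm_cutG R0 G hb w
  have hz : ∀ w, R0 < ‖w‖ → h w = 0 := by
    intro w hw
    rw [hh]
    simp only [cutG]
    rw [if_neg (not_le.mpr hw), zero_mul]
  have hop := fun a b κ => hd4_op M A X hq D hpush R0 G ξ h hh hm hb1 hz a b κ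
  obtain ⟨C', V, hC', hV⟩ := HD_bdd hn A X h1 h2 D h R0 1 hb1 hz
  have key := dirichlet_bound (HD A D h) (HD_measurable A D h hm) C' V hC' hV
    (fun κ => Phi R0 (M, -κ) G ξ) (by
      intro N κ
      rw [← hop]
      exact op_le_Phi R0 (M, -κ) G hG hb N ξ)
  filter_upwards [key] with κ hκ hκ0
  refine le_trans (le_of_eq ?_) hκ
  have hn2 : (0:ℝ) ≤ D * κ ^ (((n : ℝ) - 2) / 2) :=
    mul_nonneg hD.le (Real.rpow_nonneg hκ0.le _)
  unfold HD
  rw [if_pos hκ0, enorm_mul]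
  congr 1
  · rw [← ofReal_norm, Complex.norm_real, Real.norm_of_nonneg hn2]
  · congr 1
    unfold extn
    congr 1
    funext ω
    rw [hh]
    simp only
    congr 1
    rw [hd4_inner, inner_smul_left, inner_smul_right]
    simp only [conj_trivial, ex]

end Pool.Agent.AEL
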