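import Pool.Agent.MST.LP
import Pool.Agent.MST.Defs2

/-!
Definitions for the restriction theorem for almost every linear image (all of `R^n`).
-/

namespace Pool.Agent.AEL

open MeasureTheory Set Pool.Agent.MP_6cbfb8_an Pool.Agent.MST
open scoped ENNReal Real

/-- The quadratic form `⟨M y, y⟩`. -/
noncomputable def qf {n : ℕ} (M : Mat n) (y : E n) : ℝ := ∑ i, ∑ j, M i j * (y i * y j)

/-- Gaussian weight on pairs (matrix, number). -/
noncomputable def gw {n : ℕ} (l : Mat n × ℝ) : ℝ :=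
  Real.exp (-(π * ((∑ i, ∑ j, l.1 i j ^ 2) + l.2 ^ 2)))

/-- The Gaussian measure on pairs (matrix, number). -/
noncomputable def mu (n : ℕ) : Measure (Mat n × ℝ) :=
  (volume : Measure (Mat n × ℝ)).withDensity fun l => ENNReal.ofReal (gw l)

/-- The integral of `exp (-2 π i τ s)` over `a ≤ τ ≤ b`. -/
noncomputable def ps (a b s : ℝ) : ℂ := ∫ τ in a..b, ex (τ * s)

/-- The amplitude: a frequency-localised delta function of the quadric `⟨M y, y⟩ + c = 0`, cut off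
to the ball of radius `R0`. -/
noncomputable def am {n : ℕ} (R0 a b : ℝ) (l : Mat n × ℝ) (y : E n) : ℂ :=
  if ‖y‖ ≤ R0 then ps a b (qf l.1 y + l.2) else 0

/-- The Fourier transform of `G` times the amplitude. -/
noncomputable def op {n : ℕ} (R0 a b : ℝ) (l : Mat n × ℝ) (G : E n → ℂ) (x : E n) : ℂ :=
  ∫ w : E n, G w * am R0 a b l w * ex (inner ℝ w x)

/-- The sum of the absolute values of the dyadic pieces. -/
noncomputable def Phi {n : ℕ} (R0 : ℝ) (l : Mat n × ℝ) (G : E n → ℂ) (x : E n) : ℝ≥0∞ :=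
  ‖op R0 (-1) 1 l G x‖ₑ + ∑' k : ℕ, (‖op R0 ((2:ℝ) ^ k) (2 * (2:ℝ) ^ k) l G x‖ₑ +
    ‖op R0 (-(2 * (2:ℝ) ^ k)) (-((2:ℝ) ^ k)) l G x‖ₑ)

/-- The square of the norm of `∑ ± t_i (y_i y_iᵀ, 1)` for the parallelogram
`w, w - y - z` (sign `+`), `w - y, w - z` (sign `-`). -/
noncomputable def VV {n : ℕ} (w y z : E n) (t : Fin 4 → ℝ) : ℝ :=
  (∑ i, ∑ j, (t 0 * (w i * w j) + t 1 * ((w - y - z) i * (w - y - z) j) -
    t 2 * ((w - y) i * (w - y) j) - t 3 * ((w - z) i * (w - z) j)) ^ 2) +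
  (t 0 + t 1 - t 2 - t 3) ^ 2

/-- The box `[R, 2R]^4`. -/
def Box (R : ℝ) : Set (Fin 4 → ℝ) := {t | ∀ i, R ≤ t i ∧ t i ≤ 2 * R}

/-- The exponent after rotation and linear change of variables. -/
noncomputable def QQ {d : ℕ} (A P Q y0 z0 : ℝ) (y z : E d) : ℝ :=
  (2 * P * y0 + 2 * Q * z0 - A * (y0 * z0)) ^ 2 + (∑ b, (P * y b + Q * z b) ^ 2) +
    ∑ b, (A * (y b * z b)) ^ 2

/-- The cube of side `2 C0`. -/
def cube (d : ℕ) (C0 : ℝ) : Set (E d) := {y | ∀ b, |y b| ≤ C0}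

/-- The master volume integral. -/
noncomputable def MI (d : ℕ) (c C0 K0 R : ℝ) : ℝ≥0∞ :=
  ∫⁻ A in Icc (2 * R) (4 * R), ∫⁻ s : ℝ, ∫⁻ P in Icc (-(K0 * R)) (K0 * R),
    ∫⁻ Q in Icc (-(K0 * R)) (K0 * R), ∫⁻ y in cube d C0, ∫⁻ z in cube d C0,
      ∫⁻ y0 in Icc (-C0) C0, ∫⁻ z0 in Icc (-C0) C0,
        ENNReal.ofReal (Real.exp (-(c * (s ^ 2 + QQ A P Q y0 z0 y z))))

/-- The function cut off to a ball. -/
noncomputable def cutG {n : ℕ} (R0 : ℝ) (G : E n → ℂ) (w : E n) : ℂ := if ‖w‖ ≤ R0 then G w else 0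

/-- The transposed matrix. -/
def tm {n : ℕ} (A : Mat n) : Mat n := fun i j => A j i

/-- The product of two matrices. -/
def mm {n : ℕ} (A B : Mat n) : Mat n := fun i j => ∑ k, A i k * B k j

/-- The density with respect to `v = ‖u‖²` (`u = A⁻¹ w`) of the measure `h w dw`. -/
noncomputable def HD {n : ℕ} (A : Mat n) (D : ℝ) (h : E n → ℂ) (v : ℝ) : ℂ :=
  if 0 < v then ((D * v ^ (((n : ℝ) - 2) / 2) : ℝ) : ℂ) *
    ∫ ω : S n, h (mv A (√v • (ω : E n))) ∂(sm n) else 0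

end Pool.Agent.AEL
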