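import Pool.Agent.AEL.BA

namespace Pool.Agent.AEL

open MeasureTheory Set Pool.Agent.MP_6cbfb8_an Pool.Agent.MST
open scoped ENNReal Real

/-- one variable: the Fourier transform of the Gaussian -/
theorem hgi_one (y : ℝ) : ∫ x : ℝ, hkf_g x * ex (x * y) = hkf_g y := by
  have h := congrFun hkf_fourier_zero y
  rw [Real.fourier_real_eq_integral_exp_smul] at h
  rw [← h]
  refine integral_congr_ae (Filter.Eventually.of_forall fun x => ?_)
  simp only
  rw [hkf_ker, smul_eq_mul, mul_comm]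

theorem hgi_ex_zero : ex 0 = 1 := by
  unfold ex
  simp

theorem hgi_ex_sum {ι : Type*} (s : Finset ι) (f : ι → ℝ) : ex (∑ i ∈ s, f i) = ∏ i ∈ s, ex (f i) := by
  classical
  induction s using Finset.induction_on with
  | empty => rw [Finset.sum_empty, Finset.prod_empty, hgi_ex_zero]
  | insert a s ha ih => rw [Finset.sum_insert ha, Finset.prod_insert ha, hkf_ex_add, ih]

theorem hgi_gw {n : ℕ} (l : Mat n × ℝ) :
    ((gw l : ℝ) : ℂ) = (∏ i, ∏ j, hkf_g (l.1 i j)) * hkf_g l.2 := by
  simp only [hkf_g_eq]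
  rw [gw, mul_add, neg_add, Real.exp_add, Complex.ofReal_mul]
  congr 1
  rw [Finset.mul_sum, ← Finset.sum_neg_distrib, Real.exp_sum, Complex.ofReal_prod]
  refine Finset.prod_congr rfl fun i _ => ?_
  rw [Finset.mul_sum, ← Finset.sum_neg_distrib, Real.exp_sum, Complex.ofReal_prod]

/-
ROW GI (1 h). The Fourier transform of the Gaussian. ∫ over l ∂(mu n) = ∫ gw l • ... (integral_withDensity_eq_integral_smul, real density), and the
integrand is a product of one-variable functions: ∏_ij exp(-π M_ij²) ex(M_ij Y_ij) * exp(-π c²) ex(c s). Iterated integral_fintype_prod_eq_prod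
(MeasureTheory.integral_fintype_prod_eq_prod for Fin n → ..., twice) and integral_prod_mul; one variable: ∫ exp(-π x²) ex(x y) dx = exp(-π y²)
(Mathlib: fourier transform of the Gaussian, `fourier_gaussian_pi`/`Complex`..., see also hkf_fourier_zero and hkf_inner in Pool.Agent.MST.KF,
or gk_fourier in Pool.Agent.MP_6cbfb8_an.Bessel). Alternatively transport to the inner product space EuclideanSpace ℝ (Fin n × Fin n ⊕ Unit) and use
`fourier_gaussian_innerProductSpace`.
-/
theorem gauss_int {n : ℕ} (Y : Mat n) (s : ℝ) :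
    ∫ l : Mat n × ℝ, ex ((∑ i, ∑ j, l.1 i j * Y i j) + l.2 * s) ∂(mu n) =
      ((Real.exp (-(π * ((∑ i, ∑ j, Y i j ^ 2) + s ^ 2))) : ℝ) : ℂ) := by
  have hmeas : Measurable fun l : Mat n × ℝ => ENNReal.ofReal (gw l) := by
    unfold gw
    fun_prop
  unfold mu
  rw [integral_withDensity_eq_integral_toReal_smul hmeas
    (Filter.Eventually.of_forall fun _ => ENNReal.ofReal_lt_top)]
  have h1 : ∀ l : Mat n × ℝ, (ENNReal.ofReal (gw l)).toReal •
      ex ((∑ i, ∑ j, l.1 i j * Y i j) + l.2 * s) =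
      (∏ i, ∏ j, (hkf_g (l.1 i j) * ex (l.1 i j * Y i j))) * (hkf_g l.2 * ex (l.2 * s)) := by
    intro l
    have h0 : 0 ≤ gw l := (Real.exp_pos _).le
    rw [ENNReal.toReal_ofReal h0, Complex.real_smul, hgi_gw, hkf_ex_add, hgi_ex_sum]
    simp only [hgi_ex_sum, Finset.prod_mul_distrib]
    ring
  simp only [h1]
  rw [Measure.volume_eq_prod, integral_prod_mul
    (f := fun M : Mat n => ∏ i, ∏ j, (hkf_g (M i j) * ex (M i j * Y i j)))
    (g := fun c : ℝ => hkf_g c * ex (c * s)), hgi_one]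
  rw [integral_fintype_prod_volume_eq_prod
    (f := fun (i : Fin n) (v : Fin n → ℝ) => ∏ j, (hkf_g (v j) * ex (v j * Y i j)))]
  have h2 : ∀ i : Fin n, ∫ v : Fin n → ℝ, ∏ j, (hkf_g (v j) * ex (v j * Y i j)) =
      ∏ j, hkf_g (Y i j) := by
    intro i
    rw [integral_fintype_prod_volume_eq_prod
      (f := fun (j : Fin n) (x : ℝ) => hkf_g x * ex (x * Y i j))]
    exact Finset.prod_congr rfl fun j _ => hgi_one _
  simp only [h2]
  have h3 := hgi_gw (n := n) (Y, s)
  rw [gw] at h3
  exact h3.symm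

end Pool.Agent.AEL
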