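import Pool.Agent.AEL.BA

namespace Pool.Agent.AEL

open MeasureTheory Set Pool.Agent.MP_6cbfb8_an Pool.Agent.MST
open scoped ENNReal Real

/-
ROW L2 (1 h). op_bounds: |op| ≤ ∫ |am| ≤ |b - a| vol(ball R0); `bessel` (Ψ = id, Ω = V = E n, A = 1) for F w = G w * am R0 a b l w (bounded, measurable, bounded
support) gives ∫⁻ x ‖op‖² ≤ ∫⁻ w ‖F w‖² ≤ |b-a|² vol(ball R0).
L2_bound: by `bessel` ∫⁻ x ‖op‖² ≤ ∫⁻ w in closedBall 0 R0, ‖ps R (2R) (qf l.1 w + l.2)‖². Integrate over l = (M, c) with density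
gw = exp(-π Σ M²) exp(-π c²) ≤ exp(-π Σ M²): Tonelli; for fixed M and w the c-integral is ≤ ∫⁻ c ‖ps R (2R) (qf M w + c)‖² = ∫⁻ v ‖ps R (2R) v‖² ≤ R
(translation; `bessel` with Ω = ℝ, μ = volume.restrict (Ioc R (2R)), V = ℝ, Ψ = id, F = 1; inner on ℝ is the product), and ∫_M exp(-π Σ M²) < ∞.
-/
theorem hl2_norm {n : ℕ} (R0 a b : ℝ) (l : Mat n × ℝ) (G : E n → ℂ) (hG : ∀ w, ‖G w‖ ≤ 1) (w : E n) :
    ‖G w * am R0 a b l w‖ ≤ (Metric.closedBall (0 : E n) R0).indicator (fun _ => |b - a|) w := by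
  by_cases hw : ‖w‖ ≤ R0
  · rw [indicator_of_mem (mem_closedBall_zero_iff.2 hw), norm_mul]
    calc ‖G w‖ * ‖am R0 a b l w‖ ≤ 1 * |b - a| :=
          mul_le_mul (hG w) (norm_am_le _ _ _ _ _) (norm_nonneg _) zero_le_one
      _ = |b - a| := one_mul _
  · rw [am_zero R0 a b l w (not_le.1 hw), mul_zero, norm_zero]
    exact indicator_nonneg (fun _ _ => abs_nonneg _) w

theorem hl2_ind {n : ℕ} (R0 A : ℝ) :
    Integrable ((Metric.closedBall (0 : E n) R0).indicator (fun _ => A)) :=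
  (integrable_indicator_iff measurableSet_closedBall).2
    (integrableOn_const measure_closedBall_lt_top.ne)

theorem hl2_int {n : ℕ} (R0 a b : ℝ) (l : Mat n × ℝ) (G : E n → ℂ) (hGm : Measurable G)
    (hG : ∀ w, ‖G w‖ ≤ 1) : Integrable fun w : E n => G w * am R0 a b l w := by
  have hm : Measurable fun w : E n => am R0 a b l w :=
    (measurable_am R0 a b).of_uncurry_left (x := l)
  exact (hl2_ind R0 |b - a|).mono' ((hGm.mul hm).aestronglyMeasurable)
    (Filter.Eventually.of_forall fun w => hl2_norm R0 a b l G hG w)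

theorem hl2_bessel {n : ℕ} (R0 a b : ℝ) (l : Mat n × ℝ) (G : E n → ℂ) (hGm : Measurable G)
    (hG : ∀ w, ‖G w‖ ≤ 1) : ∫⁻ x, ‖op R0 a b l G x‖ₑ ^ (2:ℝ) ≤
      ∫⁻ w : E n, ‖G w * am R0 a b l w‖ₑ ^ (2:ℝ) := by
  have hB := bessel (volume : Measure (E n)) (fun w : E n => w) measurable_id 1
    ENNReal.one_ne_top (fun φ _ => by simp) (fun w : E n => G w * am R0 a b l w)
    (hl2_int R0 a b l G hGm hG)
  rw [one_mul] at hB
  exact hB

theorem hl2_ex (b : ℝ) : ‖ex b‖ = 1 := by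
  unfold ex
  rw [Complex.norm_exp_ofReal_mul_I]

theorem op_bounds (n : ℕ) (R0 a b : ℝ) : ∃ C : ℝ, 0 < C ∧ ∀ (l : Mat n × ℝ) (G : E n → ℂ),
    Measurable G → (∀ w, ‖G w‖ ≤ 1) →
    (∀ x, ‖op R0 a b l G x‖ ≤ C) ∧ ∫⁻ x, ‖op R0 a b l G x‖ₑ ^ (2:ℝ) ≤ ENNReal.ofReal C := by
  have hBm : MeasurableSet (Metric.closedBall (0 : E n) R0) := measurableSet_closedBall
  have hfin : volume (Metric.closedBall (0 : E n) R0) ≠ ∞ := measure_closedBall_lt_top.ne
  obtain ⟨A, hA⟩ : ∃ A : ℝ, A = |b - a| := ⟨_, rfl⟩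
  have hA0 : 0 ≤ A := by rw [hA]; exact abs_nonneg _
  set V : ℝ := volume.real (Metric.closedBall (0 : E n) R0) with hV
  have hV0 : 0 ≤ V := measureReal_nonneg
  refine ⟨A * V + A ^ 2 * V + 1, by positivity, fun l G hGm hG => ?_⟩
  have hn := hl2_norm R0 a b l G hG
  rw [← hA] at hn
  constructor
  · intro x
    unfold op
    refine (norm_integral_le_of_norm_le (hl2_ind R0 A) (Filter.Eventually.of_forall fun w => ?_)).trans ?_
    · rw [norm_mul, hl2_ex, mul_one]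
      exact hn w
    · rw [integral_indicator hBm, setIntegral_const, smul_eq_mul]
      have : 0 ≤ A ^ 2 * V := by positivity
      rw [← hV]
      linarith [mul_comm A V]
  · refine (hl2_bessel R0 a b l G hGm hG).trans ?_
    calc ∫⁻ w : E n, ‖G w * am R0 a b l w‖ₑ ^ (2:ℝ)
        ≤ ∫⁻ w : E n, (Metric.closedBall (0 : E n) R0).indicator
            (fun _ => ENNReal.ofReal (A ^ 2)) w := by
          refine lintegral_mono fun w => ?_
          have hnw := hn w
          by_cases hw : w ∈ Metric.closedBall (0 : E n) R0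
          · rw [indicator_of_mem hw] at hnw
            simp only [indicator_of_mem hw]
            rw [ENNReal.ofReal_pow hA0, ← ENNReal.rpow_natCast]
            simp only [Nat.cast_ofNat]
            refine ENNReal.rpow_le_rpow ?_ (by norm_num)
            rw [← ofReal_norm]
            exact ENNReal.ofReal_le_ofReal hnw
          · rw [indicator_of_notMem hw] at hnw
            simp only [indicator_of_notMem hw]
            have h0' : G w * am R0 a b l w = 0 := by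
              rw [← norm_le_zero_iff]
              exact hnw
            rw [h0']
            simp
      _ = ENNReal.ofReal (A ^ 2) * volume (Metric.closedBall (0 : E n) R0) := by
          rw [lintegral_indicator hBm, setLIntegral_const]
      _ = ENNReal.ofReal (A ^ 2 * V) := by
          rw [ENNReal.ofReal_mul (by positivity), hV, ofReal_measureReal hfin]
      _ ≤ ENNReal.ofReal (A * V + A ^ 2 * V + 1) := by
          apply ENNReal.ofReal_le_ofReal
          have : 0 ≤ A * V := by positivity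
          linarith

/-- Plancherel for the truncated delta function -/
theorem hl2_ps (R : ℝ) (hR : 0 ≤ R) : ∫⁻ v : ℝ, ‖ps R (2 * R) v‖ₑ ^ (2:ℝ) ≤ ENNReal.ofReal R := by
  have hB := bessel ((volume : Measure ℝ).restrict (Ioc R (2 * R))) (fun w : ℝ => w) measurable_id 1
    ENNReal.one_ne_top (fun φ _ => by rw [one_mul]; exact setLIntegral_le_lintegral _ _)
    (fun _ : ℝ => (1 : ℂ)) (integrableOn_const measure_Ioc_lt_top.ne)
  have h1 : ∀ ξ : ℝ, ∫ w in Ioc R (2 * R), (1 : ℂ) *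
      Complex.exp (((-(2 * π * inner ℝ w ξ) : ℝ) : ℂ) * Complex.I) = ps R (2 * R) ξ := by
    intro ξ
    unfold ps
    rw [intervalIntegral.integral_of_le (by linarith)]
    refine integral_congr_ae (Filter.Eventually.of_forall fun w => ?_)
    simp only [one_mul]
    unfold ex
    have h2 : inner ℝ w ξ = w * ξ := by
      rw [real_inner_comm]
      rfl
    rw [h2]
  simp only [h1] at hB
  refine hB.trans (le_of_eq ?_)
  rw [one_mul, enorm_one, ENNReal.one_rpow, setLIntegral_const, one_mul, Real.volume_Ioc]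
  congr 1
  ring

theorem hl2_H {n : ℕ} (R0 R : ℝ) (l : Mat n × ℝ) (G : E n → ℂ) (hGm : Measurable G)
    (hG : ∀ w, ‖G w‖ ≤ 1) : ∫⁻ x, ‖op R0 R (2 * R) l G x‖ₑ ^ (2:ℝ) ≤
      ∫⁻ w in Metric.closedBall (0 : E n) R0, ‖ps R (2 * R) (qf l.1 w + l.2)‖ₑ ^ (2:ℝ) := by
  refine (hl2_bessel R0 R (2 * R) l G hGm hG).trans ?_
  rw [← lintegral_indicator measurableSet_closedBall]
  refine lintegral_mono fun w => ?_
  by_cases hw : ‖w‖ ≤ R0
  · rw [indicator_of_mem (mem_closedBall_zero_iff.2 hw), enorm_mul]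
    have h1 : ‖G w‖ₑ ≤ 1 := by
      rw [← ofReal_norm, ← ENNReal.ofReal_one]
      exact ENNReal.ofReal_le_ofReal (hG w)
    have h2 : am R0 R (2 * R) l w = ps R (2 * R) (qf l.1 w + l.2) := by
      unfold am
      rw [if_pos hw]
    rw [h2]
    refine ENNReal.rpow_le_rpow ?_ (by norm_num)
    calc ‖G w‖ₑ * ‖ps R (2 * R) (qf l.1 w + l.2)‖ₑ ≤ 1 * ‖ps R (2 * R) (qf l.1 w + l.2)‖ₑ := by
          gcongr
      _ = _ := one_mul _
  · rw [am_zero R0 R (2 * R) l w (not_le.1 hw), mul_zero, enorm_zero,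
      ENNReal.zero_rpow_of_pos (by norm_num)]
    exact zero_le

theorem hl2_gint (n : ℕ) :
    ∫⁻ M : Mat n, ENNReal.ofReal (Real.exp (-(π * (∑ i, ∑ j, M i j ^ 2)))) < ∞ := by
  have h1 : Integrable fun v : ℝ => Real.exp (-(π * v ^ 2)) := by
    have h := integrable_exp_neg_mul_sq Real.pi_pos
    simpa only [neg_mul] using h
  have h2 : Integrable fun x : Fin n → ℝ => ∏ j, Real.exp (-(π * x j ^ 2)) :=
    Integrable.fintype_prod (fun _ => h1)
  have h3 : Integrable fun M : Mat n => ∏ i, (fun x : Fin n → ℝ => ∏ j, Real.exp (-(π * x j ^ 2))) (M i) :=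
    Integrable.fintype_prod (fun _ => h2)
  have h4 : (fun M : Mat n => ∏ i, (fun x : Fin n → ℝ => ∏ j, Real.exp (-(π * x j ^ 2))) (M i)) =
      fun M : Mat n => Real.exp (-(π * (∑ i, ∑ j, M i j ^ 2))) := by
    funext M
    simp only [← Real.exp_sum, Finset.sum_neg_distrib, Finset.mul_sum]
  rw [h4] at h3
  have h5 := h3.2
  rw [hasFiniteIntegral_iff_ofReal (Filter.Eventually.of_forall fun M => (Real.exp_pos _).le)] at h5
  exact h5

theorem hl2_meas (n : ℕ) (R : ℝ) : Measurable fun q : (Mat n × ℝ) × E n =>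
    ‖ps R (2 * R) (qf q.1.1 q.2 + q.1.2)‖ₑ ^ (2:ℝ) := by
  have h1 : Continuous fun q : (Mat n × ℝ) × E n => qf q.1.1 q.2 :=
    continuous_qf.comp ((continuous_fst.comp continuous_fst).prodMk continuous_snd)
  have h2 : Continuous fun q : (Mat n × ℝ) × E n => ps R (2 * R) (qf q.1.1 q.2 + q.1.2) :=
    (continuous_ps R (2 * R)).comp (h1.add (continuous_snd.comp continuous_fst))
  exact h2.measurable.enorm.pow_const _

theorem hl2_c {n : ℕ} (R0 R : ℝ) (hR : 0 ≤ R) (M : Mat n) :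
    ∫⁻ c : ℝ, ∫⁻ w in Metric.closedBall (0 : E n) R0, ‖ps R (2 * R) (qf M w + c)‖ₑ ^ (2:ℝ) ≤
      ENNReal.ofReal R * volume (Metric.closedBall (0 : E n) R0) := by
  have hm : Measurable (Function.uncurry fun (c : ℝ) (w : E n) =>
      ‖ps R (2 * R) (qf M w + c)‖ₑ ^ (2:ℝ)) := by
    have hf : Measurable fun p : ℝ × E n => (((M, p.1), p.2) : (Mat n × ℝ) × E n) := by fun_prop
    have h := Measurable.comp (g := fun q : (Mat n × ℝ) × E n =>
      ‖ps R (2 * R) (qf q.1.1 q.2 + q.1.2)‖ₑ ^ (2:ℝ)) (hl2_meas n R) hf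
    exact h
  rw [lintegral_lintegral_swap hm.aemeasurable]
  calc ∫⁻ w in Metric.closedBall (0 : E n) R0, ∫⁻ c : ℝ, ‖ps R (2 * R) (qf M w + c)‖ₑ ^ (2:ℝ)
      ≤ ∫⁻ _w in Metric.closedBall (0 : E n) R0, ENNReal.ofReal R := by
        refine lintegral_mono fun w => ?_
        rw [lintegral_add_left_eq_self (fun v : ℝ => ‖ps R (2 * R) v‖ₑ ^ (2:ℝ)) (qf M w)]
        exact hl2_ps R hR
    _ = ENNReal.ofReal R * volume (Metric.closedBall (0 : E n) R0) := by
        rw [setLIntegral_const]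

theorem L2_bound (n : ℕ) (R0 : ℝ) : ∃ C : ℝ, 0 < C ∧ ∀ R : ℝ, 1 ≤ R →
    ∀ G : E n → ℂ, Measurable G → (∀ w, ‖G w‖ ≤ 1) →
    ∫⁻ l, (∫⁻ x : E n, ‖op R0 R (2 * R) l G x‖ₑ ^ (2:ℝ)) ∂(mu n) ≤ ENNReal.ofReal (C * R) := by
  have hfin : volume (Metric.closedBall (0 : E n) R0) ≠ ∞ := measure_closedBall_lt_top.ne
  obtain ⟨K, hK⟩ : ∃ K : ℝ≥0∞, K = (∫⁻ M : Mat n,
      ENNReal.ofReal (Real.exp (-(π * (∑ i, ∑ j, M i j ^ 2))))) *
        volume (Metric.closedBall (0 : E n) R0) := ⟨_, rfl⟩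
  have hKt : K ≠ ∞ := by
    rw [hK]
    exact ENNReal.mul_ne_top (hl2_gint n).ne hfin
  refine ⟨K.toReal + 1, by positivity, ?_⟩
  intro R hR G hGm hG
  have hR0 : 0 ≤ R := by linarith
  have hHm : Measurable fun l : Mat n × ℝ =>
      ∫⁻ w in Metric.closedBall (0 : E n) R0, ‖ps R (2 * R) (qf l.1 w + l.2)‖ₑ ^ (2:ℝ) :=
    (hl2_meas n R).lintegral_prod_right'
  have hgm : Measurable fun l : Mat n × ℝ => ENNReal.ofReal (gw l) := by
    unfold gw
    fun_prop
  calc ∫⁻ l, (∫⁻ x : E n, ‖op R0 R (2 * R) l G x‖ₑ ^ (2:ℝ)) ∂(mu n)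
      ≤ ∫⁻ l, (∫⁻ w in Metric.closedBall (0 : E n) R0,
          ‖ps R (2 * R) (qf l.1 w + l.2)‖ₑ ^ (2:ℝ)) ∂(mu n) :=
        lintegral_mono fun l => hl2_H R0 R l G hGm hG
    _ = ∫⁻ l : Mat n × ℝ, ENNReal.ofReal (gw l) * (∫⁻ w in Metric.closedBall (0 : E n) R0,
          ‖ps R (2 * R) (qf l.1 w + l.2)‖ₑ ^ (2:ℝ)) := by
        unfold mu
        rw [lintegral_withDensity_eq_lintegral_mul _ hgm hHm]
        rfl
    _ = ∫⁻ M : Mat n, ∫⁻ c : ℝ, ENNReal.ofReal (gw (M, c)) *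
          (∫⁻ w in Metric.closedBall (0 : E n) R0, ‖ps R (2 * R) (qf M w + c)‖ₑ ^ (2:ℝ)) := by
        rw [Measure.volume_eq_prod]
        exact lintegral_prod (fun q : Mat n × ℝ => ENNReal.ofReal (gw q) *
          (∫⁻ w in Metric.closedBall (0 : E n) R0, ‖ps R (2 * R) (qf q.1 w + q.2)‖ₑ ^ (2:ℝ)))
          (hgm.mul hHm).aemeasurable
    _ ≤ ∫⁻ M : Mat n, ENNReal.ofReal (Real.exp (-(π * (∑ i, ∑ j, M i j ^ 2)))) *
          (ENNReal.ofReal R * volume (Metric.closedBall (0 : E n) R0)) := by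
        refine lintegral_mono fun M => ?_
        calc ∫⁻ c : ℝ, ENNReal.ofReal (gw (M, c)) *
              (∫⁻ w in Metric.closedBall (0 : E n) R0, ‖ps R (2 * R) (qf M w + c)‖ₑ ^ (2:ℝ))
            ≤ ∫⁻ c : ℝ, ENNReal.ofReal (Real.exp (-(π * (∑ i, ∑ j, M i j ^ 2)))) *
              (∫⁻ w in Metric.closedBall (0 : E n) R0, ‖ps R (2 * R) (qf M w + c)‖ₑ ^ (2:ℝ)) := by
              refine lintegral_mono fun c => mul_le_mul_left ?_ _
              apply ENNReal.ofReal_le_ofReal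
              apply Real.exp_le_exp.2
              have : 0 ≤ π * c ^ 2 := by positivity
              simp only
              linarith
          _ = ENNReal.ofReal (Real.exp (-(π * (∑ i, ∑ j, M i j ^ 2)))) *
              ∫⁻ c : ℝ, ∫⁻ w in Metric.closedBall (0 : E n) R0,
                ‖ps R (2 * R) (qf M w + c)‖ₑ ^ (2:ℝ) := by
              rw [lintegral_const_mul' _ _ ENNReal.ofReal_ne_top]
          _ ≤ _ := by
              gcongr
              exact hl2_c R0 R hR0 M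
    _ = K * ENNReal.ofReal R := by
        rw [lintegral_mul_const' _ _ (ENNReal.mul_ne_top ENNReal.ofReal_ne_top hfin), hK]
        ring
    _ = ENNReal.ofReal (K.toReal * R) := by
        rw [ENNReal.ofReal_mul ENNReal.toReal_nonneg, ENNReal.ofReal_toReal hKt]
    _ ≤ ENNReal.ofReal ((K.toReal + 1) * R) := by
        apply ENNReal.ofReal_le_ofReal
        nlinarith

end Pool.Agent.AEL
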