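import Pool.Agent.AEL.AM
import Pool.Agent.AEL.L2

namespace Pool.Agent.AEL

open MeasureTheory Set Pool.Agent.MP_6cbfb8_an Pool.Agent.MST
open scoped ENNReal Real

theorem hip_log (m δ : ℝ) (hm : 0 < m) (hδ : 0 < δ) : ∃ K : ℝ, 0 < K ∧ ∀ R : ℝ, 1 ≤ R →
    (1 + Real.log R) ^ m ≤ K * R ^ δ := by
  have hε : 0 < δ / m := div_pos hδ hm
  refine ⟨(1 + 1 / (δ / m)) ^ m, by positivity, fun R hR => ?_⟩
  have hR0 : 0 < R := lt_of_lt_of_le one_pos hR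
  have h1 : Real.log R ≤ R ^ (δ / m) / (δ / m) := Real.log_le_rpow_div hR0.le hε
  have h2 : (1 : ℝ) ≤ R ^ (δ / m) := Real.one_le_rpow hR hε.le
  have h3 : 1 + Real.log R ≤ (1 + 1 / (δ / m)) * R ^ (δ / m) := by
    have e : (1 + 1 / (δ / m)) * R ^ (δ / m) = R ^ (δ / m) + R ^ (δ / m) / (δ / m) := by
      field_simp
    rw [e]
    linarith
  have h4 : 0 ≤ 1 + Real.log R := by
    have := Real.log_nonneg hR
    linarith
  calc (1 + Real.log R) ^ m ≤ ((1 + 1 / (δ / m)) * R ^ (δ / m)) ^ m :=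
        Real.rpow_le_rpow h4 h3 hm.le
    _ = (1 + 1 / (δ / m)) ^ m * (R ^ (δ / m)) ^ m := by
        rw [Real.mul_rpow (by positivity) (by positivity)]
    _ = (1 + 1 / (δ / m)) ^ m * R ^ δ := by
        rw [← Real.rpow_mul hR0.le, div_mul_cancel₀ _ hm.ne']

theorem hip_meas {n : ℕ} (R0 a b : ℝ) (G : E n → ℂ) (hG : Measurable G) :
    Measurable fun q : (Mat n × ℝ) × E n => ‖op R0 a b q.1 G q.2‖ₑ := by
  have h1 := measurable_op (Y := Unit) R0 a b (fun _ => G) (hG.comp measurable_snd)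
  have h2 : Measurable fun q : (Mat n × ℝ) × E n => (q.1, ((), q.2)) :=
    measurable_fst.prodMk (measurable_const.prodMk measurable_snd)
  exact (h1.comp h2).enorm

/-
ROW IP (0.8 h). `lintegral_interp` (Tools.lean, q = 4, a = (4-p)/2 ∈ (0,1)) on the product measure (mu n).prod volume (lintegral_prod) for
f (l, x) = ‖op R0 R (2R) l G x‖ₑ (measurable_op with Y = Unit): ≤ (C R)^a (C' (1 + log R)^n R^(2-n))^(1-a). The exponent of R is
a + (2-n)(1-a) = n - (n-1) p/2 =: -2δ < 0, and (1 + log R)^(n(1-a)) ≤ C'' R^δ.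
-/
theorem interp (n : ℕ) (hn : 3 ≤ n) (R0 : ℝ) (hR0 : 1 ≤ R0) (p : ℝ)
    (hp : 2 * (n : ℝ) / (n - 1) < p) (hp4 : p < 4) : ∃ C δ : ℝ, 0 < C ∧ 0 < δ ∧
    ∀ R : ℝ, 1 ≤ R → ∀ G : E n → ℂ, Measurable G → (∀ w, ‖G w‖ ≤ 1) →
    ∫⁻ l, (∫⁻ x : E n, ‖op R0 R (2 * R) l G x‖ₑ ^ p) ∂(mu n) ≤
      ENNReal.ofReal (C * R ^ (-δ)) := by
  obtain ⟨C1, hC1, hL2⟩ := L2_bound n R0
  obtain ⟨C2, hC2, hL4⟩ := L4_bound n hn R0 hR0
  have hn3 : (3 : ℝ) ≤ n := by exact_mod_cast hn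
  have hn1 : (0 : ℝ) < (n : ℝ) - 1 := by linarith
  have hpn : 2 * (n : ℝ) < p * (n - 1) := by
    rwa [div_lt_iff₀ hn1] at hp
  have hp2 : 2 < p := by
    by_contra hle
    have : p * ((n : ℝ) - 1) ≤ 2 * (n - 1) := mul_le_mul_of_nonneg_right (not_lt.1 hle) hn1.le
    linarith
  set a : ℝ := (4 - p) / 2 with ha
  set b : ℝ := 1 - a with hb
  have ha0 : 0 < a := by rw [ha]; linarith
  have ha1 : a < 1 := by rw [ha]; linarith
  have hb0 : 0 < b := by rw [hb]; linarith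
  set δ : ℝ := ((n - 1) * p / 2 - n) / 2 with hδd
  have hδ : 0 < δ := by
    rw [hδd]
    linarith
  obtain ⟨K, hK, hlog⟩ := hip_log ((n : ℝ) * b) δ (by positivity) hδ
  refine ⟨C1 ^ a * C2 ^ b * K, δ, by positivity, hδ, fun R hR G hG hGb => ?_⟩
  have hR0' : 0 < R := lt_of_lt_of_le one_pos hR
  have hL : 0 ≤ 1 + Real.log R := by
    have := Real.log_nonneg hR
    linarith
  have : IsFiniteMeasure (mu n) := finite_mu n
  set f : (Mat n × ℝ) × E n → ℝ≥0∞ := fun q => ‖op R0 R (2 * R) q.1 G q.2‖ₑ with hf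
  have hfm : Measurable f := hip_meas R0 R (2 * R) G hG
  have hprod : ∀ s : ℝ, ∫⁻ q, f q ^ s ∂((mu n).prod volume) =
      ∫⁻ l, (∫⁻ x : E n, ‖op R0 R (2 * R) l G x‖ₑ ^ s) ∂(mu n) := fun s =>
    lintegral_prod _ (hfm.pow_const s).aemeasurable
  have h1 := lintegral_interp (μ := (mu n).prod volume) f hfm (p := p) (q := 4) (a := a) ha0.le
    ha1.le (by norm_num) (by rw [ha]; ring)
  rw [hprod p, hprod 2, hprod 4] at h1
  refine h1.trans ?_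
  have h2 := ENNReal.rpow_le_rpow (hL2 R hR G hG hGb) ha0.le
  have h3 := ENNReal.rpow_le_rpow (hL4 R hR G hG hGb) hb0.le
  refine (mul_le_mul' h2 h3).trans ?_
  have hnn : (0 : ℝ) ≤ C2 * (1 + Real.log R) ^ n / R ^ (n - 2) := by positivity
  rw [ENNReal.ofReal_rpow_of_nonneg (by positivity) ha0.le,
    ENNReal.ofReal_rpow_of_nonneg hnn hb0.le, ← ENNReal.ofReal_mul (by positivity)]
  refine ENNReal.ofReal_le_ofReal ?_
  have e1 : (C1 * R) ^ a = C1 ^ a * R ^ a := Real.mul_rpow hC1.le hR0'.le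
  have e2 : (C2 * (1 + Real.log R) ^ n / R ^ (n - 2)) ^ b =
      C2 ^ b * (1 + Real.log R) ^ ((n : ℝ) * b) * R ^ (-(((n : ℝ) - 2) * b)) := by
    rw [Real.div_rpow (by positivity) (by positivity), Real.mul_rpow hC2.le (by positivity),
      ← Real.rpow_natCast (1 + Real.log R) n, ← Real.rpow_mul hL, ← Real.rpow_natCast R (n - 2),
      ← Real.rpow_mul hR0'.le, Real.rpow_neg hR0'.le, div_eq_mul_inv, Nat.cast_sub (by omega)]
    norm_num
  rw [e1, e2]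
  have e3 : R ^ δ * R ^ a * R ^ (-(((n : ℝ) - 2) * b)) = R ^ (-δ) := by
    rw [← Real.rpow_add hR0', ← Real.rpow_add hR0']
    congr 1
    rw [hb, hδd, ha]
    ring
  calc C1 ^ a * R ^ a * (C2 ^ b * (1 + Real.log R) ^ ((n : ℝ) * b) * R ^ (-(((n : ℝ) - 2) * b)))
      = (C1 ^ a * C2 ^ b) * (1 + Real.log R) ^ ((n : ℝ) * b) *
        (R ^ a * R ^ (-(((n : ℝ) - 2) * b))) := by ring
    _ ≤ (C1 ^ a * C2 ^ b) * (K * R ^ δ) * (R ^ a * R ^ (-(((n : ℝ) - 2) * b))) := by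
        have := hlog R hR
        gcongr
    _ = C1 ^ a * C2 ^ b * K * (R ^ δ * R ^ a * R ^ (-(((n : ℝ) - 2) * b))) := by ring
    _ = C1 ^ a * C2 ^ b * K * R ^ (-δ) := by rw [e3]

end Pool.Agent.AEL
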