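import Pool.Agent.AEL.GI

namespace Pool.Agent.AEL

open MeasureTheory Set Pool.Agent.MP_6cbfb8_an Pool.Agent.MST
open scoped ENNReal Real

/-- the signed values of the four quadratic forms -/
noncomputable def hkr_q {n : ℕ} (w y z : E n) (l : Mat n × ℝ) (k : Fin 4) : ℝ :=
  ![qf l.1 w + l.2, qf l.1 (w - y - z) + l.2, -(qf l.1 (w - y) + l.2), -(qf l.1 (w - z) + l.2)] k

theorem hkr_ps (R : ℝ) (hR : 0 ≤ R) (s : ℝ) :
    ps R (2 * R) s = ∫ τ, ex (τ * s) ∂(volume.restrict (Icc R (2 * R))) := by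
  unfold ps
  rw [intervalIntegral.integral_of_le (by linarith), integral_Icc_eq_integral_Ioc]

theorem hkr_ps_conj (R : ℝ) (hR : 0 ≤ R) (s : ℝ) :
    (starRingEnd ℂ) (ps R (2 * R) s) = ∫ τ, ex (τ * -s) ∂(volume.restrict (Icc R (2 * R))) := by
  rw [hkr_ps R hR, ← integral_conj]
  refine integral_congr_ae (Filter.Eventually.of_forall fun τ => ?_)
  show (starRingEnd ℂ) (ex (τ * s)) = ex (τ * -s)
  rw [hkf_conj_ex, mul_neg]

theorem hkr_box (R : ℝ) : Box R = Set.univ.pi fun _ : Fin 4 => Icc R (2 * R) := by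
  ext t
  rw [Set.mem_univ_pi]
  rfl

theorem hkr_meas (R : ℝ) : (volume : Measure (Fin 4 → ℝ)).restrict (Box R) =
    Measure.pi fun _ : Fin 4 => (volume : Measure ℝ).restrict (Icc R (2 * R)) := by
  rw [hkr_box, volume_pi, Measure.restrict_pi_pi]

theorem hkr_prod {n : ℕ} (R : ℝ) (hR : 0 ≤ R) (w y z : E n) (l : Mat n × ℝ) :
    ps R (2 * R) (qf l.1 w + l.2) * ps R (2 * R) (qf l.1 (w - y - z) + l.2) *
      (starRingEnd ℂ) (ps R (2 * R) (qf l.1 (w - y) + l.2)) *
      (starRingEnd ℂ) (ps R (2 * R) (qf l.1 (w - z) + l.2)) =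
    ∫ t in Box R, ex (∑ k, t k * hkr_q w y z l k) := by
  have h1 : ∀ t : Fin 4 → ℝ, ex (∑ k, t k * hkr_q w y z l k) = ∏ k, ex (t k * hkr_q w y z l k) := by
    intro t
    rw [Fin.sum_univ_four, Fin.prod_univ_four, hkf_ex_add, hkf_ex_add, hkf_ex_add]
  rw [hkr_meas]
  simp only [h1]
  rw [integral_fintype_prod_eq_prod (fun k (τ : ℝ) => ex (τ * hkr_q w y z l k)), Fin.prod_univ_four,
    hkr_ps R hR, hkr_ps R hR, hkr_ps_conj R hR, hkr_ps_conj R hR]
  rfl

theorem hkr_q_meas {n : ℕ} (w y z : E n) (k : Fin 4) :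
    Continuous fun l : Mat n × ℝ => hkr_q w y z l k := by
  have h1 : ∀ x : E n, Continuous fun l : Mat n × ℝ => qf l.1 x := by
    intro x
    unfold qf
    fun_prop
  fin_cases k
  · exact (h1 _).add continuous_snd
  · exact (h1 _).add continuous_snd
  · exact ((h1 _).add continuous_snd).neg
  · exact ((h1 _).add continuous_snd).neg

theorem hkr_phase {n : ℕ} (w y z : E n) (l : Mat n × ℝ) (t : Fin 4 → ℝ) :
    ∑ k, t k * hkr_q w y z l k =
      (∑ i, ∑ j, l.1 i j * (t 0 * (w i * w j) + t 1 * ((w - y - z) i * (w - y - z) j) -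
        t 2 * ((w - y) i * (w - y) j) - t 3 * ((w - z) i * (w - z) j))) +
      l.2 * (t 0 + t 1 - t 2 - t 3) := by
  have h1 : ∑ k, t k * hkr_q w y z l k = t 0 * (qf l.1 w + l.2) + t 1 * (qf l.1 (w - y - z) + l.2) +
      t 2 * -(qf l.1 (w - y) + l.2) + t 3 * -(qf l.1 (w - z) + l.2) := by
    rw [Fin.sum_univ_four]
    rfl
  have h2 : (∑ i, ∑ j, l.1 i j * (t 0 * (w i * w j) + t 1 * ((w - y - z) i * (w - y - z) j) -
        t 2 * ((w - y) i * (w - y) j) - t 3 * ((w - z) i * (w - z) j))) =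
      t 0 * qf l.1 w + t 1 * qf l.1 (w - y - z) - t 2 * qf l.1 (w - y) - t 3 * qf l.1 (w - z) := by
    unfold qf
    simp only [Finset.mul_sum, ← Finset.sum_add_distrib, ← Finset.sum_sub_distrib]
    refine Finset.sum_congr rfl fun i _ => Finset.sum_congr rfl fun j _ => ?_
    ring
  rw [h1, h2]
  ring

/-
ROW KR (1.2 h). The averaged four-linear kernel. If one of the four points is outside the ball the product is 0. Otherwise write every ps as an integral
over τ_i ∈ [R, 2R] (0 ≤ R, so it is the set integral over Icc/Ioc), conj ex a = ex (-a), and exchange: Fubini for the finite measures mu n and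
volume restricted to Box R (bounded integrand; Box R = Set.pi univ (fun _ => Icc R (2R)), the product of four one-variable integrals is the integral over
the box: MeasureTheory.integral_fintype_prod_eq_prod with restricted measures, Measure.restrict_pi_pi, volume_pi). For fixed t the phase is
t0 (qf M w + c) + t1 (qf M (w-y-z) + c) - t2 (qf M (w-y) + c) - t3 (qf M (w-z) + c) = Σ_ij M_ij Y_ij + c s with Y, s as in VV, and gauss_int.
-/
theorem kernel {n : ℕ} (R0 R : ℝ) (hR : 0 ≤ R) (w y z : E n) :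
    ∫ l, am R0 R (2 * R) l w * am R0 R (2 * R) l (w - y - z) *
      (starRingEnd ℂ) (am R0 R (2 * R) l (w - y)) *
      (starRingEnd ℂ) (am R0 R (2 * R) l (w - z)) ∂(mu n) =
    if ‖w‖ ≤ R0 ∧ ‖w - y - z‖ ≤ R0 ∧ ‖w - y‖ ≤ R0 ∧ ‖w - z‖ ≤ R0 then
      ((∫ t in Box R, Real.exp (-(π * VV w y z t)) : ℝ) : ℂ) else 0 := by
  by_cases h : ‖w‖ ≤ R0 ∧ ‖w - y - z‖ ≤ R0 ∧ ‖w - y‖ ≤ R0 ∧ ‖w - z‖ ≤ R0
  · rw [if_pos h]
    obtain ⟨h1, h2, h3, h4⟩ := h
    have := finite_mu n
    have hfin : IsFiniteMeasure ((volume : Measure (Fin 4 → ℝ)).restrict (Box R)) := by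
      rw [hkr_meas]
      infer_instance
    have e1 : ∀ l : Mat n × ℝ, am R0 R (2 * R) l w * am R0 R (2 * R) l (w - y - z) *
        (starRingEnd ℂ) (am R0 R (2 * R) l (w - y)) * (starRingEnd ℂ) (am R0 R (2 * R) l (w - z)) =
        ∫ t in Box R, ex (∑ k, t k * hkr_q w y z l k) := by
      intro l
      rw [← hkr_prod R hR]
      unfold am
      rw [if_pos h1, if_pos h2, if_pos h3, if_pos h4]
    simp only [e1]
    rw [integral_integral_swap]
    · refine Eq.trans ?_ (integral_ofReal (𝕜 := ℂ) (f := fun t => Real.exp (-(π * VV w y z t))))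
      refine integral_congr_ae (Filter.Eventually.of_forall fun t => ?_)
      show ∫ l, ex (∑ k, t k * hkr_q w y z l k) ∂(mu n) = _
      simp only [hkr_phase]
      rw [gauss_int (fun i j => t 0 * (w i * w j) + t 1 * ((w - y - z) i * (w - y - z) j) -
        t 2 * ((w - y) i * (w - y) j) - t 3 * ((w - z) i * (w - z) j)) (t 0 + t 1 - t 2 - t 3)]
      rfl
    · refine Integrable.of_bound (C := 1) ?_ (Filter.Eventually.of_forall fun q => ?_)
      · refine Continuous.aestronglyMeasurable ?_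
        refine hkf_cont_ex.comp (continuous_finsetSum _ fun k _ => ?_)
        exact ((continuous_apply k).comp continuous_snd).mul ((hkr_q_meas w y z k).comp continuous_fst)
      · show ‖ex _‖ ≤ 1
        rw [hkf_norm_ex]
  · rw [if_neg h]
    have e1 : ∀ l : Mat n × ℝ, am R0 R (2 * R) l w * am R0 R (2 * R) l (w - y - z) *
        (starRingEnd ℂ) (am R0 R (2 * R) l (w - y)) * (starRingEnd ℂ) (am R0 R (2 * R) l (w - z)) =
        0 := by
      intro l
      unfold am
      by_cases h1 : ‖w‖ ≤ R0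
      · by_cases h2 : ‖w - y - z‖ ≤ R0
        · by_cases h3 : ‖w - y‖ ≤ R0
          · by_cases h4 : ‖w - z‖ ≤ R0
            · exact absurd ⟨h1, h2, h3, h4⟩ h
            · rw [if_neg h4, map_zero, mul_zero]
          · rw [if_neg h3, map_zero, mul_zero, zero_mul]
        · rw [if_neg h2, mul_zero, zero_mul, zero_mul]
      · rw [if_neg h1, zero_mul, zero_mul, zero_mul]
    simp only [e1, integral_zero]

end Pool.Agent.AEL
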