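import Pool.Agent.MST.KF
import Pool.Agent.AEL.L2

namespace Pool.Agent.AEL

open MeasureTheory Set Pool.Agent.MP_6cbfb8_an Pool.Agent.MST
open scoped ENNReal Real

/-
ROW NG (0.6 h). op_neg: am R0 (-(2R)) (-R) = conj (am R0 R (2R)) (ps_conj), ex ⟨w, x⟩ = conj (ex ⟨w, -x⟩), integral_conj.
op_neg_norm: from op_neg and x ↦ -x (lintegral_neg_eq_self or Measure.measurePreserving_neg).
low: with the constants of op_bounds (a = -1, b = 1), lintegral_rpow_le_sup (Tools.lean, p' = 2) gives ∫⁻ x ‖op‖^p ≤ C^(p-2) C for every l, and mu n is finite.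
-/
theorem op_neg {n : ℕ} (R0 a b : ℝ) (l : Mat n × ℝ) (G : E n → ℂ) (x : E n) :
    op R0 (-b) (-a) l G x =
      (starRingEnd ℂ) (op R0 a b l (fun w => (starRingEnd ℂ) (G w)) (-x)) := by
  unfold op
  rw [← integral_conj]
  refine integral_congr_ae (Filter.Eventually.of_forall fun w => ?_)
  have h1 : (starRingEnd ℂ) (am R0 a b l w) = am R0 (-b) (-a) l w := by
    unfold am
    split_ifs
    · exact ps_conj a b _
    · exact map_zero _
  show G w * am R0 (-b) (-a) l w * ex (inner ℝ w x) =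
    (starRingEnd ℂ) ((starRingEnd ℂ) (G w) * am R0 a b l w * ex (inner ℝ w (-x)))
  rw [map_mul, map_mul, Complex.conj_conj, h1, hkf_conj_ex, inner_neg_right, neg_neg]

theorem op_neg_norm {n : ℕ} (R0 a b p : ℝ) (l : Mat n × ℝ) (G : E n → ℂ) :
    ∫⁻ x, ‖op R0 (-b) (-a) l G x‖ₑ ^ p =
      ∫⁻ x, ‖op R0 a b l (fun w => (starRingEnd ℂ) (G w)) x‖ₑ ^ p := by
  have h1 : ∀ x, ‖op R0 (-b) (-a) l G x‖ₑ ^ p =
      ‖op R0 a b l (fun w => (starRingEnd ℂ) (G w)) (-x)‖ₑ ^ p := by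
    intro x
    rw [op_neg]
    congr 1
    rw [← ofReal_norm, ← ofReal_norm, RCLike.norm_conj]
  simp only [h1]
  exact lintegral_neg_eq_self (fun x => ‖op R0 a b l (fun w => (starRingEnd ℂ) (G w)) x‖ₑ ^ p)

theorem low (n : ℕ) (R0 p : ℝ) (hp : 2 ≤ p) (G : E n → ℂ) (hG : Measurable G)
    (hb : ∀ w, ‖G w‖ ≤ 1) :
    ∫⁻ l, (∫⁻ x : E n, ‖op R0 (-1) 1 l G x‖ₑ ^ p) ∂(mu n) < ∞ := by
  obtain ⟨C, hC, hop⟩ := op_bounds n R0 (-1) 1
  have : IsFiniteMeasure (mu n) := finite_mu n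
  have h1 : ∀ l : Mat n × ℝ, ∫⁻ x : E n, ‖op R0 (-1) 1 l G x‖ₑ ^ p ≤
      ENNReal.ofReal C ^ (p - 2) * ENNReal.ofReal C := by
    intro l
    have hm : Measurable fun x : E n => ‖op R0 (-1) 1 l G x‖ₑ := by
      have h1 := measurable_op (Y := Unit) R0 (-1) 1 (fun _ => G) (hG.comp measurable_snd)
      have h2 : Measurable fun x : E n => (l, ((), x)) :=
        measurable_const.prodMk (measurable_const.prodMk measurable_id)
      exact (h1.comp h2).enorm
    refine (lintegral_rpow_le_sup _ hm (by norm_num : (0 : ℝ) ≤ 2) hp (ENNReal.ofReal C) ?_).trans ?_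
    · intro x
      rw [← ofReal_norm]
      exact ENNReal.ofReal_le_ofReal ((hop l G hG hb).1 x)
    · exact mul_le_mul_right (hop l G hG hb).2 _
  refine (lintegral_mono h1).trans_lt ?_
  rw [lintegral_const]
  refine ENNReal.mul_lt_top (ENNReal.mul_lt_top ?_ ENNReal.ofReal_lt_top) (measure_lt_top _ _)
  exact ENNReal.rpow_lt_top_of_nonneg (by linarith) ENNReal.ofReal_ne_top

end Pool.Agent.AEL
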