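import Pool.Agent.AEL.Defs

namespace Pool.Agent.AEL

open MeasureTheory Set Pool.Agent.MP_6cbfb8_an Pool.Agent.MST
open scoped ENNReal Real

section hpxsec

open scoped MatrixOrder Matrix.Norms.L2Operator

theorem hpx_factor {n : ℕ} (S : Matrix (Fin n) (Fin n) ℝ) (h : S.PosDef) :
    ∃ B : Matrix (Fin n) (Fin n) ℝ, S = B.transpose * B := by
  obtain ⟨B, hB⟩ := CStarAlgebra.nonneg_iff_eq_star_mul_self.mp h.posSemidef.nonneg
  refine ⟨B, ?_⟩
  rw [hB, Matrix.star_eq_conjTranspose, Matrix.conjTranspose_eq_transpose_of_trivial]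

end hpxsec

theorem hpx_norm_sq {n : ℕ} (y : E n) : ‖y‖ ^ 2 = ∑ i, y i ^ 2 := by
  rw [EuclideanSpace.real_norm_sq_eq]

/-- lower bound for the quadratic form -/
theorem hpx_lower {n : ℕ} (hn : 1 ≤ n) (M : Mat n)
    (hM : ∀ i j, |M i j - (if i = j then 1 else 0)| < 1 / (2 * (n : ℝ))) (y : Fin n → ℝ) :
    (∑ i, y i ^ 2) / 2 ≤ ∑ i, ∑ j, M i j * (y i * y j) := by
  have hn0 : (0:ℝ) < n := by exact_mod_cast hn
  have h1 : ∑ i, ∑ j, (if i = j then (1:ℝ) else 0) * (y i * y j) = ∑ i, y i ^ 2 := by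
    refine Finset.sum_congr rfl fun i _ => ?_
    simp [sq]
  have h2 : ∀ i j, (if i = j then (1:ℝ) else 0) * (y i * y j) -
      1 / (2 * (n : ℝ)) * (|y i| * |y j|) ≤ M i j * (y i * y j) := by
    intro i j
    have h3 : |(M i j - (if i = j then 1 else 0)) * (y i * y j)| ≤
        1 / (2 * (n : ℝ)) * (|y i| * |y j|) := by
      rw [abs_mul, abs_mul (y i)]
      exact mul_le_mul_of_nonneg_right (hM i j).le (by positivity)
    have h4 := (abs_le.mp h3).1
    nlinarith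
  have h3 : ∑ i, ∑ j, 1 / (2 * (n : ℝ)) * (|y i| * |y j|) =
      1 / (2 * (n : ℝ)) * (∑ i, |y i|) ^ 2 := by
    rw [sq, Finset.sum_mul_sum, Finset.mul_sum]
    refine Finset.sum_congr rfl fun i _ => ?_
    rw [Finset.mul_sum]
  have h4 : (∑ i, |y i|) ^ 2 ≤ n * ∑ i, y i ^ 2 := by
    have := sq_sum_le_card_mul_sum_sq (s := (Finset.univ : Finset (Fin n))) (f := fun i => |y i|)
    simpa using this
  have h5 : ∑ i, ∑ j, ((if i = j then (1:ℝ) else 0) * (y i * y j) -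
      1 / (2 * (n : ℝ)) * (|y i| * |y j|)) ≤ ∑ i, ∑ j, M i j * (y i * y j) :=
    Finset.sum_le_sum fun i _ => Finset.sum_le_sum fun j _ => h2 i j
  simp only [Finset.sum_sub_distrib] at h5
  rw [h1, h3] at h5
  have h6 : 1 / (2 * (n : ℝ)) * (∑ i, |y i|) ^ 2 ≤ (∑ i, y i ^ 2) / 2 := by
    have h7 : 1 / (2 * (n : ℝ)) * (∑ i, |y i|) ^ 2 ≤
        1 / (2 * (n : ℝ)) * (n * ∑ i, y i ^ 2) :=
      mul_le_mul_of_nonneg_left h4 (by positivity)
    have h8 : 1 / (2 * (n : ℝ)) * (n * ∑ i, y i ^ 2) = (∑ i, y i ^ 2) / 2 := by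
      field_simp
    linarith
  linarith

theorem exists_factor (n : ℕ) (hn : 1 ≤ n) : ∃ ε : ℝ, 0 < ε ∧ ∀ M : Mat n,
    (∀ i j, |M i j - (if i = j then 1 else 0)| < ε) →
    ∃ A X : Mat n, (∀ y, qf M y = ‖mv X y‖ ^ 2) ∧ (∀ y, mv A (mv X y) = y) ∧
      ∀ y, mv X (mv A y) = y := by
  have hn0 : (0:ℝ) < n := by exact_mod_cast hn
  refine ⟨1 / (2 * (n : ℝ)), by positivity, fun M hM => ?_⟩
  set S : Matrix (Fin n) (Fin n) ℝ := fun i j => (M i j + M j i) / 2 with hS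
  have hSq : ∀ y : Fin n → ℝ, ∑ i, ∑ j, S i j * (y i * y j) =
      ∑ i, ∑ j, M i j * (y i * y j) := by
    intro y
    have h1 : ∑ i, ∑ j, M j i * (y i * y j) = ∑ i, ∑ j, M i j * (y i * y j) := by
      rw [Finset.sum_comm]
      refine Finset.sum_congr rfl fun i _ => Finset.sum_congr rfl fun j _ => ?_
      ring
    have h2 : ∑ i, ∑ j, S i j * (y i * y j) = (∑ i, ∑ j, M i j * (y i * y j)) / 2 +
        (∑ i, ∑ j, M j i * (y i * y j)) / 2 := by
      rw [Finset.sum_div, Finset.sum_div, ← Finset.sum_add_distrib]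
      refine Finset.sum_congr rfl fun i _ => ?_
      rw [Finset.sum_div, Finset.sum_div, ← Finset.sum_add_distrib]
      refine Finset.sum_congr rfl fun j _ => ?_
      simp only [hS]
      ring
    rw [h2, h1]
    ring
  have hdot : ∀ (T : Matrix (Fin n) (Fin n) ℝ) (y : Fin n → ℝ),
      y ⬝ᵥ (T.mulVec y) = ∑ i, ∑ j, T i j * (y i * y j) := by
    intro T y
    simp only [dotProduct, Matrix.mulVec]
    refine Finset.sum_congr rfl fun i _ => ?_
    rw [Finset.mul_sum]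
    refine Finset.sum_congr rfl fun j _ => ?_
    ring
  have hpd : S.PosDef := by
    refine Matrix.PosDef.of_dotProduct_mulVec_pos ?_ ?_
    · ext i j
      rw [Matrix.conjTranspose_apply, star_trivial]
      simp only [hS]
      ring
    · intro y hy
      rw [star_trivial, hdot, hSq]
      have h1 := hpx_lower hn M hM y
      have h2 : 0 < ∑ i, y i ^ 2 := by
        obtain ⟨i, hi⟩ := Function.ne_iff.mp hy
        have hi' : y i ≠ 0 := by simpa using hi
        exact Finset.sum_pos' (fun j _ => sq_nonneg _) ⟨i, Finset.mem_univ i, by positivity⟩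
      linarith
  obtain ⟨B, hB⟩ := hpx_factor S hpd
  have hdet : B.det ≠ 0 := by
    have h1 : 0 < S.det := hpd.det_pos
    rw [hB, Matrix.det_mul, Matrix.det_transpose] at h1
    intro h
    rw [h] at h1
    simp at h1
  have hunit : IsUnit B.det := isUnit_iff_ne_zero.mpr hdet
  have hmv : ∀ (T : Matrix (Fin n) (Fin n) ℝ) (y : E n),
      mv (T : Mat n) y = WithLp.toLp 2 (T.mulVec (WithLp.ofLp y)) := by
    intro T y
    rfl
  refine ⟨(B⁻¹ : Matrix (Fin n) (Fin n) ℝ), B, ?_, ?_, ?_⟩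
  · intro y
    rw [hpx_norm_sq]
    have h1 : ∑ i, (mv B y) i ^ 2 = (B.mulVec (WithLp.ofLp y)) ⬝ᵥ (B.mulVec (WithLp.ofLp y)) := by
      simp only [dotProduct, hmv, sq]
    rw [h1, Matrix.dotProduct_mulVec, Matrix.vecMul_mulVec, ← Matrix.dotProduct_mulVec]
    rw [← hB, hdot, hSq]
    rfl
  · intro y
    rw [hmv, hmv]
    simp [Matrix.nonsing_inv_mul _ hunit]
  · intro y
    rw [hmv, hmv]
    simp [Matrix.mul_nonsing_inv _ hunit]

end Pool.Agent.AEL
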