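import Pool.Agent.AEL.Defs

namespace Pool.Agent.AEL

open MeasureTheory Set Pool.Agent.MP_6cbfb8_an Pool.Agent.MST
open scoped ENNReal Real

/-
ROW TS (0.4 h). f k ≤ 2^(-εk) · S^(1/p), S = Σ_j (2^(εj) f j)^p (single term ≤ sum, then rpow (1/p)); sum over k (ENNReal.tsum_mul_right) and raise to the power p.
The geometric series Σ 2^(-εk) is finite for ε > 0 (ENNReal.tsum_geometric, ratio 2^(-ε) < 1).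
-/
theorem tsum_rpow_le (f : ℕ → ℝ≥0∞) (p ε : ℝ) (hp : 0 < p) :
    (∑' k, f k) ^ p ≤ (∑' k : ℕ, (2:ℝ≥0∞) ^ (-(ε * (k:ℝ)))) ^ p *
      ∑' k : ℕ, ((2:ℝ≥0∞) ^ (ε * (k:ℝ)) * f k) ^ p := by
  have h2 : (2:ℝ≥0∞) ≠ 0 := by norm_num
  have h2t : (2:ℝ≥0∞) ≠ ∞ := by norm_num
  set S : ℝ≥0∞ := ∑' k : ℕ, ((2:ℝ≥0∞) ^ (ε * (k:ℝ)) * f k) ^ p with hS
  have key : ∀ k, f k ≤ (2:ℝ≥0∞) ^ (-(ε * (k:ℝ))) * S ^ (1 / p) := by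
    intro k
    have h1 : ((2:ℝ≥0∞) ^ (ε * (k:ℝ)) * f k) ^ p ≤ S :=
      ENNReal.le_tsum (f := fun k : ℕ => ((2:ℝ≥0∞) ^ (ε * (k:ℝ)) * f k) ^ p) k
    have h3 : (2:ℝ≥0∞) ^ (ε * (k:ℝ)) * f k ≤ S ^ (1 / p) := by
      rw [one_div]
      exact (ENNReal.le_rpow_inv_iff hp).2 h1
    have h4 : f k = (2:ℝ≥0∞) ^ (-(ε * (k:ℝ))) * ((2:ℝ≥0∞) ^ (ε * (k:ℝ)) * f k) := by
      rw [← mul_assoc, ← ENNReal.rpow_add _ _ h2 h2t]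
      simp
    rw [h4]
    exact mul_le_mul_right h3 _
  have h5 : (∑' k, f k) ≤ (∑' k : ℕ, (2:ℝ≥0∞) ^ (-(ε * (k:ℝ)))) * S ^ (1 / p) := by
    rw [← ENNReal.tsum_mul_right]
    exact ENNReal.tsum_le_tsum key
  calc (∑' k, f k) ^ p ≤ ((∑' k : ℕ, (2:ℝ≥0∞) ^ (-(ε * (k:ℝ)))) * S ^ (1 / p)) ^ p :=
        ENNReal.rpow_le_rpow h5 hp.le
    _ = (∑' k : ℕ, (2:ℝ≥0∞) ^ (-(ε * (k:ℝ)))) ^ p * S := by
        rw [ENNReal.mul_rpow_of_nonneg _ _ hp.le, ← ENNReal.rpow_mul, one_div,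
          inv_mul_cancel₀ hp.ne', ENNReal.rpow_one]

theorem geom_fin (ε : ℝ) (hε : 0 < ε) : (∑' k : ℕ, (2:ℝ≥0∞) ^ (-(ε * (k:ℝ)))) < ∞ := by
  have h1 : ∀ k : ℕ, (2:ℝ≥0∞) ^ (-(ε * (k:ℝ))) = ((2:ℝ≥0∞) ^ (-ε)) ^ k := by
    intro k
    rw [← ENNReal.rpow_natCast, ← ENNReal.rpow_mul]
    congr 1
    ring
  simp_rw [h1]
  rw [ENNReal.tsum_geometric]
  refine ENNReal.inv_lt_top.2 ?_
  refine tsub_pos_of_lt ?_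
  exact ENNReal.rpow_lt_one_of_one_lt_of_neg (by norm_num) (by linarith)

end Pool.Agent.AEL
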