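import Pool.Agent.AEL.IP
import Pool.Agent.AEL.NG
import Pool.Agent.AEL.TS

namespace Pool.Agent.AEL

open MeasureTheory Set Pool.Agent.MP_6cbfb8_an Pool.Agent.MST
open scoped ENNReal Real

theorem hsm_meas {n : ℕ} (R0 a b : ℝ) (G : E n → ℂ) (hG : Measurable G) :
    Measurable fun q : (Mat n × ℝ) × E n => ‖op R0 a b q.1 G q.2‖ₑ := by
  have h1 := measurable_op (Y := Unit) R0 a b (fun _ => G) (hG.comp measurable_snd)
  have h2 : Measurable fun q : (Mat n × ℝ) × E n => (q.1, ((), q.2)) :=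
    measurable_fst.prodMk (measurable_const.prodMk measurable_snd)
  exact (h1.comp h2).enorm

theorem hsm_measx {n : ℕ} (R0 a b : ℝ) (G : E n → ℂ) (hG : Measurable G) (l : Mat n × ℝ) :
    Measurable fun x : E n => ‖op R0 a b l G x‖ₑ := by
  have h1 := measurable_op (Y := Unit) R0 a b (fun _ => G) (hG.comp measurable_snd)
  have h2 : Measurable fun x : E n => (l, ((), x)) :=
    measurable_const.prodMk (measurable_const.prodMk measurable_id)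
  exact (h1.comp h2).enorm

theorem hsm_measl {n : ℕ} (R0 a b p : ℝ) (G : E n → ℂ) (hG : Measurable G) :
    Measurable fun l : Mat n × ℝ => ∫⁻ x : E n, ‖op R0 a b l G x‖ₑ ^ p :=
  Measurable.lintegral_prod_right' (f := fun q : (Mat n × ℝ) × E n => ‖op R0 a b q.1 G q.2‖ₑ ^ p)
    ((hsm_meas R0 a b G hG).pow_const p)

theorem hsm_measPhi {n : ℕ} (R0 : ℝ) (G : E n → ℂ) (hG : Measurable G) :
    Measurable fun q : (Mat n × ℝ) × E n => Phi R0 q.1 G q.2 := by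
  have h1 := measurable_Phi (Y := Unit) R0 (fun _ => G) (hG.comp measurable_snd)
  have h2 : Measurable fun q : (Mat n × ℝ) × E n => (q.1, ((), q.2)) :=
    measurable_fst.prodMk (measurable_const.prodMk measurable_id |>.comp measurable_snd)
  have h3 := h1.comp h2
  simp only [Function.comp_def] at h3
  exact h3

theorem hsm_measPhil {n : ℕ} (R0 p : ℝ) (G : E n → ℂ) (hG : Measurable G) :
    Measurable fun l : Mat n × ℝ => ∫⁻ x : E n, Phi R0 l G x ^ p := by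
  have h1 := Measurable.lintegral_prod_right' (ν := (volume : Measure (E n)))
    ((hsm_measPhi R0 G hG).pow_const p)
  exact h1

/-- the integral of the bound -/
theorem hsm_int {α : Type*} [MeasurableSpace α] (μ : Measure α) (A : α → ℝ≥0∞)
    (f g : ℕ → α → ℝ≥0∞) (c1 c2 : ℝ≥0∞) (w : ℕ → ℝ≥0∞) (hA : Measurable A)
    (hf : ∀ k, Measurable (f k)) (hg : ∀ k, Measurable (g k)) :
    ∫⁻ x, c1 * (A x + c2 * ∑' k, w k * (c1 * (f k x + g k x))) ∂μ =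
      c1 * ((∫⁻ x, A x ∂μ) + c2 * ∑' k, w k * (c1 * ((∫⁻ x, f k x ∂μ) + ∫⁻ x, g k x ∂μ))) := by
  have m0 : ∀ k : ℕ, Measurable fun x => f k x + g k x := fun k => (hf k).add (hg k)
  have m1 : ∀ k : ℕ, Measurable fun x => c1 * (f k x + g k x) := fun k => (m0 k).const_mul _
  have m2 : ∀ k : ℕ, Measurable fun x => w k * (c1 * (f k x + g k x)) := fun k =>
    (m1 k).const_mul _
  have m3 : Measurable fun x => ∑' k : ℕ, w k * (c1 * (f k x + g k x)) := Measurable.tsum m2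
  have m4 : Measurable fun x => c2 * ∑' k : ℕ, w k * (c1 * (f k x + g k x)) := m3.const_mul _
  have m5 : Measurable fun x => A x + c2 * ∑' k : ℕ, w k * (c1 * (f k x + g k x)) := hA.add m4
  rw [lintegral_const_mul _ m5, lintegral_add_left hA, lintegral_const_mul _ m3,
    lintegral_tsum fun k => (m2 k).aemeasurable]
  have e : ∀ k, ∫⁻ x, w k * (c1 * (f k x + g k x)) ∂μ =
      w k * (c1 * ((∫⁻ x, f k x ∂μ) + ∫⁻ x, g k x ∂μ)) := fun k => by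
    rw [lintegral_const_mul _ (m1 k), lintegral_const_mul _ (m0 k), lintegral_add_left (hf k)]
  simp only [e]

/-- the pointwise bound -/
theorem hsm_pt (A : ℝ≥0∞) (f g : ℕ → ℝ≥0∞) (p ε : ℝ) (hp : 1 ≤ p) :
    (A + ∑' k, (f k + g k)) ^ p ≤ 2 ^ (p - 1) * (A ^ p +
      (∑' k : ℕ, (2:ℝ≥0∞) ^ (-(ε * (k:ℝ)))) ^ p *
        ∑' k : ℕ, (2:ℝ≥0∞) ^ (ε * p * (k:ℝ)) * (2 ^ (p - 1) * (f k ^ p + g k ^ p))) := by
  have hp0 : 0 < p := lt_of_lt_of_le one_pos hp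
  refine (ENNReal.rpow_add_le_mul_rpow_add_rpow _ _ hp).trans ?_
  gcongr
  refine (Pool.Agent.AEL.tsum_rpow_le _ p ε hp0).trans ?_
  gcongr with k
  rw [ENNReal.mul_rpow_of_nonneg _ _ hp0.le, ← ENNReal.rpow_mul]
  have e : ε * (k : ℝ) * p = ε * p * k := by ring
  rw [e]
  gcongr
  exact ENNReal.rpow_add_le_mul_rpow_add_rpow _ _ hp

theorem hsm_ofReal (C δ : ℝ) (hC : 0 < C) (k : ℕ) :
    ENNReal.ofReal (C * ((2 : ℝ) ^ k) ^ (-δ)) = ENNReal.ofReal C * (2 : ℝ≥0∞) ^ (-(δ * (k : ℝ))) := by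
  rw [ENNReal.ofReal_mul hC.le]
  congr 1
  have h1 : ((2 : ℝ) ^ k) ^ (-δ) = (2 : ℝ) ^ (-(δ * (k : ℝ))) := by
    rw [← Real.rpow_natCast 2 k, ← Real.rpow_mul (by norm_num)]
    congr 1
    ring
  rw [h1, ← ENNReal.ofReal_rpow_of_pos (by norm_num)]
  norm_num

/-
ROW SM (0.8 h). Phi = low + Σ_k (f_k + g_k). p > 2n/(n-1) > 2 ≥ 1. Phi^p ≤ 2^p (low^p + (Σ_k h_k)^p), h_k = f_k + g_k,
(Σ h_k)^p ≤ S^p Σ_k (2^(εk) h_k)^p (tsum_rpow_le, geom_fin), h_k^p ≤ 2^p (f_k^p + g_k^p), with ε = δ/(2p): integrate over l and x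
(lintegral_tsum, measurable_op with Y = Unit): Σ_k 2^(εkp) · 2 C 2^(-δk) < ∞ (`interp` with R = 2^k; g_k by op_neg_norm and `interp` for conj ∘ G).
So ∫⁻ l ∫⁻ x Phi^p ∂(mu n) < ∞, hence (ae_lt_top', measurable_Phi) the inner integral is finite for mu-a.e. l, and `ae_of_mu`.
-/
theorem Phi_fin (n : ℕ) (hn : 3 ≤ n) (R0 : ℝ) (hR0 : 1 ≤ R0) (p : ℝ)
    (hp : 2 * (n : ℝ) / (n - 1) < p) (hp4 : p < 4) (G : E n → ℂ) (hG : Measurable G)
    (hb : ∀ w, ‖G w‖ ≤ 1) : ∀ᵐ l : Mat n × ℝ, ∫⁻ x, Phi R0 l G x ^ p < ∞ := by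
  have : IsFiniteMeasure (mu n) := finite_mu n
  have hn3 : (3 : ℝ) ≤ n := by exact_mod_cast hn
  have hn1 : (0 : ℝ) < (n : ℝ) - 1 := by linarith
  have hp2 : 2 < p := by
    have hpn : 2 * (n : ℝ) < p * (n - 1) := by
      rwa [div_lt_iff₀ hn1] at hp
    by_contra hle
    have : p * ((n : ℝ) - 1) ≤ 2 * (n - 1) := mul_le_mul_of_nonneg_right (not_lt.1 hle) hn1.le
    linarith
  have hp1 : 1 ≤ p := by linarith
  have hp0 : 0 < p := by linarith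
  obtain ⟨C, δ, hC, hδ, hint⟩ := interp n hn R0 hR0 p hp hp4
  set ε : ℝ := δ / (2 * p) with hε
  have hε0 : 0 < ε := by positivity
  set G' : E n → ℂ := fun w => (starRingEnd ℂ) (G w) with hG'
  have hG'm : Measurable G' := Complex.continuous_conj.measurable.comp hG
  have hG'b : ∀ w, ‖G' w‖ ≤ 1 := fun w => by
    rw [hG']
    simp only [RCLike.norm_conj]
    exact hb w
  set S0 : ℝ≥0∞ := ∑' k : ℕ, (2:ℝ≥0∞) ^ (-(ε * (k:ℝ))) with hS0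
  have hS0f : S0 < ∞ := geom_fin ε hε0
  set A : Mat n × ℝ → E n → ℝ≥0∞ := fun l x => ‖op R0 (-1) 1 l G x‖ₑ with hA
  set f : ℕ → Mat n × ℝ → E n → ℝ≥0∞ := fun k l x =>
    ‖op R0 ((2:ℝ) ^ k) (2 * (2:ℝ) ^ k) l G x‖ₑ with hf
  set g : ℕ → Mat n × ℝ → E n → ℝ≥0∞ := fun k l x =>
    ‖op R0 (-(2 * (2:ℝ) ^ k)) (-((2:ℝ) ^ k)) l G x‖ₑ with hg
  have hPhi : ∀ l x, Phi R0 l G x = A l x + ∑' k, (f k l x + g k l x) := fun l x => rfl
  have hfl : ∀ k, ∫⁻ l, (∫⁻ x, f k l x ^ p) ∂(mu n) ≤ ENNReal.ofReal C * (2 : ℝ≥0∞) ^ (-(δ * (k : ℝ))) := by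
    intro k
    rw [← hsm_ofReal C δ hC k]
    exact hint ((2 : ℝ) ^ k) (one_le_pow₀ (by norm_num)) G hG hb
  have hgl : ∀ k, ∫⁻ l, (∫⁻ x, g k l x ^ p) ∂(mu n) ≤ ENNReal.ofReal C * (2 : ℝ≥0∞) ^ (-(δ * (k : ℝ))) := by
    intro k
    rw [← hsm_ofReal C δ hC k]
    have h1 : ∀ l : Mat n × ℝ, ∫⁻ x, g k l x ^ p =
        ∫⁻ x, ‖op R0 ((2:ℝ) ^ k) (2 * (2:ℝ) ^ k) l G' x‖ₑ ^ p := fun l =>
      op_neg_norm R0 ((2:ℝ) ^ k) (2 * (2:ℝ) ^ k) p l G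
    simp only [h1]
    exact hint ((2 : ℝ) ^ k) (one_le_pow₀ (by norm_num)) G' hG'm hG'b
  have hAm : ∀ l, Measurable (A l) := fun l => hsm_measx R0 (-1) 1 G hG l
  have hfm : ∀ k l, Measurable (f k l) := fun k l => hsm_measx R0 _ _ G hG l
  have hgm : ∀ k l, Measurable (g k l) := fun k l => hsm_measx R0 _ _ G hG l
  have hAml : Measurable fun l => ∫⁻ x, A l x ^ p := hsm_measl R0 (-1) 1 p G hG
  have hfml : ∀ k, Measurable fun l => ∫⁻ x, f k l x ^ p := fun k => hsm_measl R0 _ _ p G hG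
  have hgml : ∀ k, Measurable fun l => ∫⁻ x, g k l x ^ p := fun k => hsm_measl R0 _ _ p G hG
  -- the bound for fixed l
  have hl : ∀ l, ∫⁻ x, Phi R0 l G x ^ p ≤ 2 ^ (p - 1) * ((∫⁻ x, A l x ^ p) + S0 ^ p *
      ∑' k : ℕ, (2:ℝ≥0∞) ^ (ε * p * (k:ℝ)) * (2 ^ (p - 1) *
        ((∫⁻ x, f k l x ^ p) + ∫⁻ x, g k l x ^ p))) := by
    intro l
    calc ∫⁻ x, Phi R0 l G x ^ p ≤ ∫⁻ x, 2 ^ (p - 1) * (A l x ^ p + S0 ^ p *
          ∑' k : ℕ, (2:ℝ≥0∞) ^ (ε * p * (k:ℝ)) * (2 ^ (p - 1) * (f k l x ^ p + g k l x ^ p))) := by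
          refine lintegral_mono fun x => ?_
          rw [hPhi]
          exact hsm_pt _ _ _ p ε hp1
      _ = _ := hsm_int volume (fun x => A l x ^ p) (fun k x => f k l x ^ p) (fun k x => g k l x ^ p)
          (2 ^ (p - 1)) (S0 ^ p) (fun k => (2:ℝ≥0∞) ^ (ε * p * (k:ℝ))) ((hAm l).pow_const p)
          (fun k => (hfm k l).pow_const p) (fun k => (hgm k l).pow_const p)
  -- integrate over l
  have hfin : ∫⁻ l, (∫⁻ x, Phi R0 l G x ^ p) ∂(mu n) < ∞ := by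
    refine (lintegral_mono hl).trans_lt ?_
    have hI := hsm_int (mu n) (fun l => ∫⁻ x, A l x ^ p) (fun k l => ∫⁻ x, f k l x ^ p)
      (fun k l => ∫⁻ x, g k l x ^ p) (2 ^ (p - 1)) (S0 ^ p) (fun k => (2:ℝ≥0∞) ^ (ε * p * (k:ℝ)))
      hAml hfml hgml
    rw [hI]
    have hsum : ∑' k : ℕ, (2:ℝ≥0∞) ^ (ε * p * (k:ℝ)) * (2 ^ (p - 1) *
        ((∫⁻ l, (∫⁻ x, f k l x ^ p) ∂(mu n)) + ∫⁻ l, (∫⁻ x, g k l x ^ p) ∂(mu n))) < ∞ := by
      have hle : ∀ k : ℕ, (2:ℝ≥0∞) ^ (ε * p * (k:ℝ)) * (2 ^ (p - 1) *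
          ((∫⁻ l, (∫⁻ x, f k l x ^ p) ∂(mu n)) + ∫⁻ l, (∫⁻ x, g k l x ^ p) ∂(mu n))) ≤
          (2 ^ (p - 1) * (2 * ENNReal.ofReal C)) * (2 : ℝ≥0∞) ^ (-(δ / 2 * (k : ℝ))) := by
        intro k
        have a1 := hfl k
        have a2 := hgl k
        calc (2:ℝ≥0∞) ^ (ε * p * (k:ℝ)) * (2 ^ (p - 1) *
              ((∫⁻ l, (∫⁻ x, f k l x ^ p) ∂(mu n)) + ∫⁻ l, (∫⁻ x, g k l x ^ p) ∂(mu n)))
            ≤ (2:ℝ≥0∞) ^ (ε * p * (k:ℝ)) * (2 ^ (p - 1) *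
              (ENNReal.ofReal C * (2 : ℝ≥0∞) ^ (-(δ * (k : ℝ))) +
                ENNReal.ofReal C * (2 : ℝ≥0∞) ^ (-(δ * (k : ℝ))))) :=
              mul_le_mul_right (mul_le_mul_right (add_le_add a1 a2) _) _
          _ = (2 ^ (p - 1) * (2 * ENNReal.ofReal C)) *
              ((2:ℝ≥0∞) ^ (ε * p * (k:ℝ)) * (2 : ℝ≥0∞) ^ (-(δ * (k : ℝ)))) := by ring
          _ = (2 ^ (p - 1) * (2 * ENNReal.ofReal C)) * (2 : ℝ≥0∞) ^ (-(δ / 2 * (k : ℝ))) := by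
              rw [← ENNReal.rpow_add _ _ (by norm_num) (by norm_num)]
              congr 2
              rw [hε]
              field_simp
              ring
      refine (ENNReal.tsum_le_tsum hle).trans_lt ?_
      rw [ENNReal.tsum_mul_left]
      refine ENNReal.mul_lt_top (ENNReal.mul_lt_top ?_ (ENNReal.mul_lt_top (by norm_num)
        ENNReal.ofReal_lt_top)) (geom_fin (δ / 2) (by positivity))
      exact ENNReal.rpow_lt_top_of_nonneg (by linarith) (by norm_num)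
    refine ENNReal.mul_lt_top (ENNReal.rpow_lt_top_of_nonneg (by linarith) (by norm_num)) ?_
    refine ENNReal.add_lt_top.2 ⟨low n R0 p hp2.le G hG hb, ENNReal.mul_lt_top ?_ hsum⟩
    exact ENNReal.rpow_lt_top_of_nonneg hp0.le hS0f.ne
  exact ae_of_mu (ae_lt_top (hsm_measPhil R0 p G hG) hfin.ne)

end Pool.Agent.AEL
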