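import Pool.Agent.AEL.SM
import Pool.Agent.AEL.PX

namespace Pool.Agent.AEL

open MeasureTheory Set Pool.Agent.MP_6cbfb8_an Pool.Agent.MST
open scoped ENNReal Real

theorem ht1_measurable {n : ℕ} (p : ℝ) (R0 : ℝ) (G : E n → ℂ) (hG : Measurable G) :
    Measurable fun q : (Mat n × ℝ) × Mat n =>
      ∫⁻ x, Phi R0 q.1 (fun w => G (mv q.2 w)) x ^ p := by
  have h1 : Measurable fun q : (Mat n × ℝ) × Mat n × E n =>
      Phi R0 q.1 ((fun (B : Mat n) (w : E n) => G (mv B w)) q.2.1) q.2.2 := by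
    refine measurable_Phi (Y := Mat n) R0 (fun (B : Mat n) (w : E n) => G (mv B w)) ?_
    exact hG.comp continuous_mv.measurable
  have h2 : Measurable fun q : ((Mat n × ℝ) × Mat n) × E n => (q.1.1, (q.1.2, q.2)) :=
    (measurable_fst.comp measurable_fst).prodMk
      ((measurable_snd.comp measurable_fst).prodMk measurable_snd)
  have h3 := (h1.comp h2).pow_const p
  simp only [Function.comp_def] at h3
  exact h3.lintegral_prod_right'

/-
ROW T1 (1 h). For every B apply `Phi_fin` to w ↦ G (mv B w) and every R0 = k ∈ ℕ, k ≥ 1 (ae_all_iff): for all B, a.e. l. The set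
{(B, l) : ∀ k ≥ 1, ∫⁻ x, Phi k l (G ∘ mv B) x ^ p < ∞} is measurable (measurable_Phi with Y = Mat n and G B w = G (mv B w), continuous_mv of Pool.Agent.MST.O2;
Measurable.lintegral_prod_right'), so for a.e. l = (M, c), for a.e. B it holds (Fubini). Mat n × ℝ has the product measure: for a.e. M, for a.e. c, for a.e. B
(Measure.ae_ae_of_ae_prod). The set of M with |M i j - δ_ij| < ε is open and nonempty, so it contains such an M (a nonempty open set has positive measure);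
`exists_factor`. Replace c by -κ (the measure is invariant under c ↦ -c: Measure.measurePreserving_neg, quasiMeasurePreserving ae).
-/
theorem pick (n : ℕ) (hn : 3 ≤ n) (p : ℝ) (hp : 2 * (n : ℝ) / (n - 1) < p) (hp4 : p < 4)
    (G : E n → ℂ) (hG : Measurable G) (hb : ∀ w, ‖G w‖ ≤ 1) :
    ∃ M A X : Mat n, (∀ y, qf M y = ‖mv X y‖ ^ 2) ∧ (∀ y, mv A (mv X y) = y) ∧
      (∀ y, mv X (mv A y) = y) ∧ ∀ᵐ κ : ℝ, ∀ᵐ B : Mat n, ∀ k : ℕ, 1 ≤ k →
        ∫⁻ x, Phi (k : ℝ) (M, -κ) (fun w => G (mv B w)) x ^ p < ∞ := by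
  have h1 : ∀ B : Mat n, ∀ᵐ l : Mat n × ℝ, ∀ k : ℕ, 1 ≤ k →
      ∫⁻ x, Phi (k : ℝ) l (fun w => G (mv B w)) x ^ p < ∞ := by
    intro B
    rw [ae_all_iff]
    intro k
    by_cases hk : 1 ≤ k
    · have hcont : Continuous (mv B) := continuous_mv.comp (continuous_const.prodMk continuous_id)
      have h2 := Phi_fin n hn (k : ℝ) (by exact_mod_cast hk) p hp hp4 (fun w => G (mv B w))
        (hG.comp hcont.measurable) (fun w => hb _)
      filter_upwards [h2] with l hl _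
      exact hl
    · exact Filter.Eventually.of_forall fun l hk' => absurd hk' hk
  have hmeas : MeasurableSet {q : (Mat n × ℝ) × Mat n | ∀ k : ℕ, 1 ≤ k →
      ∫⁻ x, Phi (k : ℝ) q.1 (fun w => G (mv q.2 w)) x ^ p < ∞} := by
    have h2 : {q : (Mat n × ℝ) × Mat n | ∀ k : ℕ, 1 ≤ k →
        ∫⁻ x, Phi (k : ℝ) q.1 (fun w => G (mv q.2 w)) x ^ p < ∞}
        = ⋂ k : ℕ, ⋂ _ : 1 ≤ k, {q : (Mat n × ℝ) × Mat n |
          ∫⁻ x, Phi (k : ℝ) q.1 (fun w => G (mv q.2 w)) x ^ p < ∞} := by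
      ext q
      simp only [mem_ofPred_eq, mem_iInter]
    rw [h2]
    refine MeasurableSet.iInter fun k => MeasurableSet.iInter fun _ => ?_
    exact measurableSet_lt (ht1_measurable p (k : ℝ) G hG) measurable_const
  have h3 : ∀ᵐ l : Mat n × ℝ, ∀ᵐ B : Mat n, ∀ k : ℕ, 1 ≤ k →
      ∫⁻ x, Phi (k : ℝ) l (fun w => G (mv B w)) x ^ p < ∞ :=
    (Measure.ae_ae_comm hmeas).mpr (Filter.Eventually.of_forall h1)
  have h4 : ∀ᵐ M : Mat n, ∀ᵐ c : ℝ, ∀ᵐ B : Mat n, ∀ k : ℕ, 1 ≤ k →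
      ∫⁻ x, Phi (k : ℝ) (M, c) (fun w => G (mv B w)) x ^ p < ∞ := by
    rw [Measure.volume_eq_prod] at h3
    exact Measure.ae_ae_of_ae_prod h3
  obtain ⟨ε, hε, hfac⟩ := exists_factor n (by omega)
  set I : Mat n := fun i j => if i = j then 1 else 0 with hI
  have hball : ∃ M ∈ Metric.ball I ε, ∀ᵐ c : ℝ, ∀ᵐ B : Mat n, ∀ k : ℕ, 1 ≤ k →
      ∫⁻ x, Phi (k : ℝ) (M, c) (fun w => G (mv B w)) x ^ p < ∞ := by
    by_contra hcon
    have h5 : Metric.ball I ε ⊆ {M : Mat n | ¬ ∀ᵐ c : ℝ, ∀ᵐ B : Mat n, ∀ k : ℕ, 1 ≤ k →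
        ∫⁻ x, Phi (k : ℝ) (M, c) (fun w => G (mv B w)) x ^ p < ∞} := fun M hM h6 =>
      hcon ⟨M, hM, h6⟩
    have h6 : volume (Metric.ball I ε) = 0 := measure_mono_null h5 (ae_iff.mp h4)
    have h7 := Metric.measure_ball_pos (volume : Measure (Mat n)) I hε
    exact h7.ne' h6
  obtain ⟨M, hM, hMc⟩ := hball
  obtain ⟨A, X, hq, hAX, hXA⟩ := hfac M (by
    intro i j
    have h8 : dist (M i j) (I i j) ≤ dist M I :=
      le_trans (dist_le_pi_dist (M i) (I i) j) (dist_le_pi_dist M I i)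
    rw [Real.dist_eq] at h8
    exact lt_of_le_of_lt h8 (Metric.mem_ball.mp hM))
  refine ⟨M, A, X, hq, hAX, hXA, ?_⟩
  exact (Measure.measurePreserving_neg (volume : Measure ℝ)).quasiMeasurePreserving.ae hMc

end Pool.Agent.AEL
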