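import Pool.Agent.AEL.T2

namespace Pool.Agent.AEL

open MeasureTheory Set Pool.Agent.MP_6cbfb8_an Pool.Agent.MST
open scoped ENNReal Real

theorem ht3_id {n : ℕ} {A X : Mat n} (h : ∀ y, mv A (mv X y) = y) (C : Mat n) :
    mm (mm C A) X = C := by
  have hone : (Matrix.of A * Matrix.of X : Matrix (Fin n) (Fin n) ℝ) = 1 := by
    ext i j
    have h1 := congrArg (fun v : E n => v i) (h (EuclideanSpace.single j (1:ℝ)))
    simp only [mv, Matrix.mul_apply, Matrix.of_apply] at h1 ⊢
    rw [Matrix.one_apply]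
    simp only [PiLp.single_apply, mul_ite, mul_one, mul_zero, Finset.sum_ite_eq',
      Finset.mem_univ, if_true] at h1
    exact h1
  have h2 : (Matrix.of C * Matrix.of A) * Matrix.of X = (Matrix.of C : Matrix (Fin n) (Fin n) ℝ) := by
    rw [Matrix.mul_assoc, hone, Matrix.mul_one]
  funext i j
  have h3 := congrFun (congrFun h2 i) j
  simpa only [mm, Matrix.mul_apply, Matrix.of_apply] using h3

/-- right multiplication as a linear equivalence -/
noncomputable def ht3_eqv {n : ℕ} (A X : Mat n) (h : ∀ y, mv A (mv X y) = y)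
    (h' : ∀ y, mv X (mv A y) = y) : Mat n ≃ₗ[ℝ] Mat n where
  toFun C := mm C X
  invFun C := mm C A
  map_add' C D := by
    funext i j
    simp only [mm, Pi.add_apply, add_mul, Finset.sum_add_distrib]
  map_smul' c C := by
    funext i j
    simp only [mm, Pi.smul_apply, smul_eq_mul, mul_assoc, Finset.mul_sum, RingHom.id_apply]
  left_inv C := ht3_id h' C
  right_inv C := ht3_id h C

/-
ROW T3 (0.8 h). The map C ↦ mm C X1 is a linear bijection of Mat n (inverse B ↦ mm B A1: mm A1 X1 = mm X1 A1 = identity matrix, from the hypotheses applied to the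
basis vectors), so it is quasi measure preserving (addHaar_preimage_linearMap: preimages of null sets are null). For a.e. C the statement of `one_side` holds for
B = mm C X1, and mm (mm C X1) A1 = C.
-/
theorem transfer (n : ℕ) (hn : 3 ≤ n) (p : ℝ) (hp : 2 * (n : ℝ) / (n - 1) < p) (hp4 : p < 4)
    (G : E n → ℂ) (hG : Measurable G) (hb : ∀ w, ‖G w‖ ≤ 1) :
    ∀ᵐ C : Mat n, ∫⁻ ξ, ‖extn (fun x => G (mv C x)) ξ‖ₑ ^ p < ∞ := by
  obtain ⟨A1, X1, h, h', hae⟩ := one_side n hn p hp hp4 G hG hb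
  have hdet : LinearMap.det (ht3_eqv A1 X1 h h' : Mat n →ₗ[ℝ] Mat n) ≠ 0 :=
    (LinearEquiv.isUnit_det' (ht3_eqv A1 X1 h h')).ne_zero
  have hq := Measure.LinearMap.quasiMeasurePreserving (volume : Measure (Mat n))
    (ht3_eqv A1 X1 h h' : Mat n →ₗ[ℝ] Mat n) hdet
  refine (hq.ae hae).mono fun C hC => ?_
  have e : mm ((ht3_eqv A1 X1 h h' : Mat n →ₗ[ℝ] Mat n) C) A1 = C := ht3_id h' C
  rw [e] at hC
  exact hC

end Pool.Agent.AEL
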