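import Pool.Agent.AEL.Defs

namespace Pool.Agent.AEL

open MeasureTheory Set Pool.Agent.MP_6cbfb8_an Pool.Agent.MST
open scoped ENNReal Real

/-
ROW V1 (1 h). Two one-dimensional estimates.
log_int: split at |z - r| = 1. On |z - r| > 1 the integrand is ≤ 1, total ≤ 2 C0. On |z - r| ≤ 1: ∫_{|u| ≤ 1} du/(1/R + |u|) = 2 (log(1/R + 1) - log(1/R)) =
2 log(1 + R) ≤ 2 (log 2 + log R). (lintegral_mono_set / union bound, translation lintegral_sub_right_eq_self, then
ofReal_integral_eq_lintegral_ofReal and the primitive log(1/R + u) on [0,1], the half [-1,0] by reflection.)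
slope: with K0 := the value, two bounds: ≤ 2K (exp ≤ 1, volume_Icc), and for a ≠ 0: ≤ ∫⁻ over ℝ = √(π/c)/|a| (affine change of variables; integral_gaussian).
If |a| ≤ 1/K use the first (2K ≤ C/(2/K) for C ≥ 4), else the second (1/|a| ≤ 2/(1/K+|a|)). C = 4 + 2√(π/c).
-/
theorem hv1_cont (R r : ℝ) (hR : 1 ≤ R) : Continuous fun z : ℝ => 1 / (1 / R + |z - r|) := by
  refine Continuous.div continuous_const
    (continuous_const.add ((continuous_id.sub continuous_const).abs)) fun z => ?_
  have h1 : 0 < 1 / R := by positivity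
  exact (add_pos_of_pos_of_nonneg h1 (abs_nonneg _)).ne'

theorem hv1_int (R r : ℝ) (hR : 1 ≤ R) :
    ∫ z in (r - 1)..(r + 1), 1 / (1 / R + |z - r|) = 2 * Real.log (1 + R) := by
  have hR0 : 0 < R := by linarith
  have h1 : 0 < 1 / R := by positivity
  have hc := hv1_cont R r hR
  have e1 : ∫ z in r..(r + 1), 1 / (1 / R + |z - r|) = Real.log (1 + R) := by
    have hd : ∀ z ∈ uIcc r (r + 1), HasDerivAt (fun z => Real.log (1 / R + (z - r)))
        (1 / (1 / R + |z - r|)) z := by
      intro z hz
      rw [uIcc_of_le (by linarith)] at hz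
      have h2 : |z - r| = z - r := abs_of_nonneg (by linarith [hz.1])
      rw [h2]
      have h3 : HasDerivAt (fun z => 1 / R + (z - r)) 1 z :=
        ((hasDerivAt_id z).sub_const r).const_add (1 / R)
      exact h3.log (by linarith [hz.1])
    rw [intervalIntegral.integral_eq_sub_of_hasDerivAt hd (hc.intervalIntegrable _ _)]
    rw [← Real.log_div (by linarith) (by linarith)]
    congr 1
    field_simp
    ring
  have e2 : ∫ z in (r - 1)..r, 1 / (1 / R + |z - r|) = Real.log (1 + R) := by
    have hd : ∀ z ∈ uIcc (r - 1) r, HasDerivAt (fun z => -Real.log (1 / R + (r - z)))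
        (1 / (1 / R + |z - r|)) z := by
      intro z hz
      rw [uIcc_of_le (by linarith)] at hz
      have h2 : |z - r| = r - z := by rw [abs_of_nonpos (by linarith [hz.2])]; ring
      rw [h2]
      have h3 : HasDerivAt (fun z => 1 / R + (r - z)) (-1) z :=
        ((hasDerivAt_id z).const_sub r).const_add (1 / R)
      have h4 := (h3.log (show 1 / R + (r - z) ≠ 0 by linarith [hz.2])).neg
      have h5 : -(-1 / (1 / R + (r - z))) = 1 / (1 / R + (r - z)) := by ring
      rwa [h5] at h4
    rw [intervalIntegral.integral_eq_sub_of_hasDerivAt hd (hc.intervalIntegrable _ _)]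
    rw [neg_sub_neg, ← Real.log_div (by linarith) (by linarith)]
    congr 1
    field_simp
    ring
  rw [← intervalIntegral.integral_add_adjacent_intervals (hc.intervalIntegrable (r - 1) r)
    (hc.intervalIntegrable r (r + 1)), e1, e2]
  ring

theorem log_int (C0 : ℝ) (hC0 : 1 ≤ C0) : ∃ C : ℝ, 0 < C ∧ ∀ R : ℝ, 1 ≤ R → ∀ r : ℝ,
    ∫⁻ z in Icc (-C0) C0, ENNReal.ofReal (1 / (1 / R + |z - r|)) ≤
      ENNReal.ofReal (C * (1 + Real.log R)) := by
  refine ⟨2 * C0 + 2, by linarith, fun R hR r => ?_⟩
  have hR0 : 0 < R := by linarith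
  have h1 : 0 < 1 / R := by positivity
  have hlog : 0 ≤ Real.log R := Real.log_nonneg hR
  have hpt : ∀ z : ℝ, ENNReal.ofReal (1 / (1 / R + |z - r|)) ≤
      1 + (Ioc (r - 1) (r + 1)).indicator
        (fun z => ENNReal.ofReal (1 / (1 / R + |z - r|))) z := by
    intro z
    by_cases hz : z ∈ Ioc (r - 1) (r + 1)
    · rw [indicator_of_mem hz]
      exact le_add_self
    · rw [indicator_of_notMem hz, add_zero]
      have h2 : 1 ≤ |z - r| := by
        rw [mem_Ioc, not_and_or] at hz
        rcases hz with hz | hz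
        · rw [le_abs]; right; linarith
        · rw [le_abs]; left; linarith
      rw [ENNReal.ofReal_le_one, div_le_one (by linarith)]
      linarith
  calc ∫⁻ z in Icc (-C0) C0, ENNReal.ofReal (1 / (1 / R + |z - r|))
      ≤ ∫⁻ z in Icc (-C0) C0, (1 + (Ioc (r - 1) (r + 1)).indicator
        (fun z => ENNReal.ofReal (1 / (1 / R + |z - r|))) z) := lintegral_mono hpt
    _ = (∫⁻ z in Icc (-C0) C0, 1) + ∫⁻ z in Icc (-C0) C0, (Ioc (r - 1) (r + 1)).indicator
        (fun z => ENNReal.ofReal (1 / (1 / R + |z - r|))) z :=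
        lintegral_add_left measurable_const _
    _ ≤ ENNReal.ofReal (2 * C0) + ENNReal.ofReal (2 * Real.log (1 + R)) := by
        gcongr
        · rw [setLIntegral_one, Real.volume_Icc]
          exact ENNReal.ofReal_le_ofReal (by linarith)
        · refine (setLIntegral_le_lintegral _ _).trans ?_
          rw [lintegral_indicator measurableSet_Ioc, ← hv1_int R r hR,
            intervalIntegral.integral_of_le (by linarith),
            ofReal_integral_eq_lintegral_ofReal]
          · exact ((hv1_cont R r hR).integrableOn_Icc).mono_set Ioc_subset_Icc_self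
          · exact Filter.Eventually.of_forall fun z => by positivity
    _ = ENNReal.ofReal (2 * C0 + 2 * Real.log (1 + R)) := by
        rw [← ENNReal.ofReal_add (by linarith)
          (mul_nonneg (by norm_num) (Real.log_nonneg (by linarith)))]
    _ ≤ ENNReal.ofReal ((2 * C0 + 2) * (1 + Real.log R)) := by
        apply ENNReal.ofReal_le_ofReal
        have h3 : Real.log (1 + R) ≤ 1 + Real.log R := by
          have h4 : Real.log (1 + R) ≤ Real.log (2 * R) :=
            Real.log_le_log (by linarith) (by linarith)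
          rw [Real.log_mul (by norm_num) (by linarith)] at h4
          have h5 := Real.log_two_lt_d9
          linarith
        nlinarith

theorem slope (c : ℝ) (hc : 0 < c) : ∃ C : ℝ, 0 < C ∧ ∀ K : ℝ, 0 < K → ∀ a b : ℝ,
    ∫⁻ x in Icc (-K) K, ENNReal.ofReal (Real.exp (-(c * (a * x + b) ^ 2))) ≤
      ENNReal.ofReal (C / (1 / K + |a|)) := by
  have hs : 0 ≤ √(π / c) := Real.sqrt_nonneg _
  refine ⟨4 + 2 * √(π / c), by positivity, fun K hK a b => ?_⟩
  have hK1 : 0 < 1 / K := by positivity
  have hden : 0 < 1 / K + |a| := by positivity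
  by_cases ha : |a| ≤ 1 / K
  · calc ∫⁻ x in Icc (-K) K, ENNReal.ofReal (Real.exp (-(c * (a * x + b) ^ 2)))
        ≤ ∫⁻ x in Icc (-K) K, 1 := lintegral_mono fun x => by
          rw [ENNReal.ofReal_le_one, Real.exp_le_one_iff]
          have : 0 ≤ c * (a * x + b) ^ 2 := by positivity
          linarith
      _ = ENNReal.ofReal (2 * K) := by
          rw [setLIntegral_one, Real.volume_Icc]
          congr 1; ring
      _ ≤ _ := by
          apply ENNReal.ofReal_le_ofReal
          rw [le_div_iff₀ hden]
          have h1 : K * (1 / K) = 1 := by field_simp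
          have h2 : K * |a| ≤ 1 := by
            calc K * |a| ≤ K * (1 / K) := mul_le_mul_of_nonneg_left ha hK.le
              _ = 1 := h1
          calc 2 * K * (1 / K + |a|) = 2 * (K * (1 / K)) + 2 * (K * |a|) := by ring
            _ ≤ 4 + 2 * √(π / c) := by rw [h1]; linarith
  · push Not at ha
    have ha0 : a ≠ 0 := by
      intro h0
      rw [h0, abs_zero] at ha
      linarith
    have hapos : 0 < |a| := abs_pos.2 ha0
    have hint0 : Integrable fun y : ℝ => Real.exp (-(c * (y + b) ^ 2)) := by
      have h := (integrable_exp_neg_mul_sq hc).comp_add_right b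
      simpa [neg_mul] using h
    have hint : Integrable fun x : ℝ => Real.exp (-(c * (a * x + b) ^ 2)) :=
      hint0.comp_mul_left' ha0
    have hval : ∫ x : ℝ, Real.exp (-(c * (a * x + b) ^ 2)) = |a|⁻¹ * √(π / c) := by
      rw [Measure.integral_comp_mul_left (fun y : ℝ => Real.exp (-(c * (y + b) ^ 2))) a,
        integral_add_right_eq_self (fun y : ℝ => Real.exp (-(c * y ^ 2))) b, smul_eq_mul,
        abs_inv]
      congr 1
      have h := integral_gaussian c
      simpa [neg_mul] using h
    calc ∫⁻ x in Icc (-K) K, ENNReal.ofReal (Real.exp (-(c * (a * x + b) ^ 2)))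
        ≤ ∫⁻ x, ENNReal.ofReal (Real.exp (-(c * (a * x + b) ^ 2))) :=
          setLIntegral_le_lintegral _ _
      _ = ENNReal.ofReal (|a|⁻¹ * √(π / c)) := by
          rw [← hval, ofReal_integral_eq_lintegral_ofReal hint
            (Filter.Eventually.of_forall fun x => (Real.exp_pos _).le)]
      _ ≤ _ := by
          apply ENNReal.ofReal_le_ofReal
          rw [le_div_iff₀ hden]
          have h1 : |a|⁻¹ * (1 / K + |a|) ≤ 2 := by
            rw [mul_add, inv_mul_cancel₀ hapos.ne']
            have : |a|⁻¹ * (1 / K) ≤ |a|⁻¹ * |a| :=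
              mul_le_mul_of_nonneg_left ha.le (by positivity)
            rw [inv_mul_cancel₀ hapos.ne'] at this
            linarith
          calc |a|⁻¹ * √(π / c) * (1 / K + |a|) = (|a|⁻¹ * (1 / K + |a|)) * √(π / c) := by ring
            _ ≤ 2 * √(π / c) := mul_le_mul_of_nonneg_right h1 hs
            _ ≤ 4 + 2 * √(π / c) := by linarith

end Pool.Agent.AEL
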