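import Pool.Agent.AEL.V1

namespace Pool.Agent.AEL

open MeasureTheory Set Pool.Agent.MP_6cbfb8_an Pool.Agent.MST
open scoped ENNReal Real

/-
ROW V2 (0.8 h). For fixed y the exponent is (a z + b)² with a = 2Q - A y, b = 2 P y. `slope` with K = C0: inner integral ≤ C/(1/C0 + |2Q - A y|) =
(C/A)/(1/(A C0) + |y - 2Q/A|) (A ≥ 2R > 0). Then `log_int` with R replaced by A C0 ≥ 1 and r = 2Q/A: ≤ (C/A) C' (1 + log (A C0)), and
1 + log(A C0) ≤ 1 + log (4 C0) + log R ≤ (1 + log(4C0)) (1 + log R), 1/A ≤ 1/(2R).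
-/
theorem hyp (c C0 : ℝ) (hc : 0 < c) (hC0 : 1 ≤ C0) : ∃ C : ℝ, 0 < C ∧ ∀ R : ℝ, 1 ≤ R →
    ∀ A ∈ Icc (2 * R) (4 * R), ∀ P Q : ℝ,
    ∫⁻ y in Icc (-C0) C0, ∫⁻ z in Icc (-C0) C0,
      ENNReal.ofReal (Real.exp (-(c * (2 * P * y + 2 * Q * z - A * (y * z)) ^ 2))) ≤
      ENNReal.ofReal (C * (1 + Real.log R) / R) := by
  obtain ⟨C1, hC1, h1⟩ := slope c hc
  obtain ⟨C2, hC2, h2⟩ := log_int C0 hC0
  have hL : 0 ≤ Real.log (4 * C0) := Real.log_nonneg (by linarith)
  have hC0' : 0 < C0 := by linarith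
  refine ⟨C1 * (C2 * (1 + Real.log (4 * C0))), by positivity, ?_⟩
  intro R hR A hA P Q
  have hR0 : 0 < R := by linarith
  have hA0 : 0 < A := by linarith [hA.1]
  have hlR : 0 ≤ Real.log R := Real.log_nonneg hR
  have hAC : 1 ≤ A * C0 := by nlinarith [hA.1]
  have e1 : ∀ y : ℝ, ∫⁻ z in Icc (-C0) C0,
      ENNReal.ofReal (Real.exp (-(c * (2 * P * y + 2 * Q * z - A * (y * z)) ^ 2))) ≤
      ENNReal.ofReal (C1 / A) * ENNReal.ofReal (1 / (1 / (A * C0) + |y - 2 * Q / A|)) := by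
    intro y
    have h3 := h1 C0 hC0' (2 * Q - A * y) (2 * P * y)
    have h4 : ∀ z : ℝ, (2 * Q - A * y) * z + 2 * P * y = 2 * P * y + 2 * Q * z - A * (y * z) := by
      intro z
      ring
    simp only [h4] at h3
    refine h3.trans (le_of_eq ?_)
    rw [← ENNReal.ofReal_mul (by positivity)]
    congr 1
    have h5 : |2 * Q - A * y| = A * |y - 2 * Q / A| := by
      have h6 : 2 * Q - A * y = -(A * (y - 2 * Q / A)) := by
        field_simp
        ring
      rw [h6, abs_neg, abs_mul, abs_of_pos hA0]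
    have h7 : (1 : ℝ) / C0 + |2 * Q - A * y| = A * (1 / (A * C0) + |y - 2 * Q / A|) := by
      rw [h5, mul_add]
      congr 1
      field_simp
    have h8 : (0 : ℝ) < 1 / (A * C0) + |y - 2 * Q / A| := by positivity
    rw [h7]
    have h9 := h8.ne'
    field_simp
  have e2 : ∫⁻ y in Icc (-C0) C0, ∫⁻ z in Icc (-C0) C0,
      ENNReal.ofReal (Real.exp (-(c * (2 * P * y + 2 * Q * z - A * (y * z)) ^ 2))) ≤
      ENNReal.ofReal (C1 / A) * ENNReal.ofReal (C2 * (1 + Real.log (A * C0))) := by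
    calc ∫⁻ y in Icc (-C0) C0, ∫⁻ z in Icc (-C0) C0,
        ENNReal.ofReal (Real.exp (-(c * (2 * P * y + 2 * Q * z - A * (y * z)) ^ 2)))
        ≤ ∫⁻ y in Icc (-C0) C0, ENNReal.ofReal (C1 / A) *
          ENNReal.ofReal (1 / (1 / (A * C0) + |y - 2 * Q / A|)) := lintegral_mono e1
      _ = ENNReal.ofReal (C1 / A) * ∫⁻ y in Icc (-C0) C0,
          ENNReal.ofReal (1 / (1 / (A * C0) + |y - 2 * Q / A|)) :=
        lintegral_const_mul' _ _ ENNReal.ofReal_ne_top
      _ ≤ _ := mul_le_mul_right (h2 (A * C0) hAC (2 * Q / A)) _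
  refine e2.trans ?_
  rw [← ENNReal.ofReal_mul (by positivity)]
  refine ENNReal.ofReal_le_ofReal ?_
  have h10 : Real.log (A * C0) ≤ Real.log (4 * C0) + Real.log R := by
    rw [← Real.log_mul (by positivity) hR0.ne']
    refine Real.log_le_log (by positivity) ?_
    nlinarith [hA.2]
  have h11 : 1 + Real.log (A * C0) ≤ (1 + Real.log (4 * C0)) * (1 + Real.log R) := by
    nlinarith [mul_nonneg hL hlR]
  have h12 : C1 / A ≤ C1 / R := by
    apply div_le_div_of_nonneg_left hC1.le hR0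
    linarith [hA.1]
  calc C1 / A * (C2 * (1 + Real.log (A * C0)))
      ≤ C1 / R * (C2 * ((1 + Real.log (4 * C0)) * (1 + Real.log R))) := by
        refine mul_le_mul h12 (mul_le_mul_of_nonneg_left h11 hC2.le) ?_ (by positivity)
        have : 0 ≤ Real.log (A * C0) := Real.log_nonneg hAC
        positivity
    _ = C1 * (C2 * (1 + Real.log (4 * C0))) * (1 + Real.log R) / R := by
        field_simp

end Pool.Agent.AEL
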