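import Pool.Agent.AEL.V1

namespace Pool.Agent.AEL

open MeasureTheory Set Pool.Agent.MP_6cbfb8_an Pool.Agent.MST
open scoped ENNReal Real

/-
ROW V2b (1 h). Enlarge the range of P to ℝ and exchange (Tonelli): ∫_{|Q| ≤ K0R} ∫_P. For fixed Q substitute u = P y1 + Q z1 (affine change of variables,
factor 1/|y1|): P y2 + Q z2 = u y2/y1 + Q (z2 - z1 y2/y1). Exchange again: (1/|y1|) ∫_u exp(-c u²) ∫_{|Q| ≤ K0 R} exp(-c (a Q + b)²), a = z2 - z1 y2/y1,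
b = u y2/y1; `slope` with K = K0 R: ≤ C/(1/(K0 R) + |a|) ≤ C K0/(1/R + |a|) (K0 ≥ 1), and ∫_u exp(-c u²) = √(π/c).
-/
theorem two_lin (c K0 : ℝ) (hc : 0 < c) (hK0 : 1 ≤ K0) : ∃ C : ℝ, 0 < C ∧ ∀ R : ℝ, 1 ≤ R →
    ∀ y1 z1 y2 z2 : ℝ, y1 ≠ 0 →
    ∫⁻ P in Icc (-(K0 * R)) (K0 * R), ∫⁻ Q in Icc (-(K0 * R)) (K0 * R),
      ENNReal.ofReal (Real.exp (-(c * ((P * y1 + Q * z1) ^ 2 + (P * y2 + Q * z2) ^ 2)))) ≤
      ENNReal.ofReal (C / |y1| * (1 / (1 / R + |z2 - z1 * y2 / y1|))) := by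
  obtain ⟨Cs, hCs, hs⟩ := slope c hc
  have hgpos : 0 < √(π / c) := Real.sqrt_pos.2 (div_pos Real.pi_pos hc)
  have hK0' : 0 < K0 := by linarith
  refine ⟨Cs * K0 * √(π / c), by positivity, ?_⟩
  intro R hR y1 z1 y2 z2 hy
  have hR0 : 0 < R := by linarith
  obtain ⟨a, ha⟩ : ∃ a, a = z2 - z1 * y2 / y1 := ⟨_, rfl⟩
  rw [← ha]
  -- the integrand in the variables `u`, `Q`
  have hmeas : Measurable (fun q : ℝ × ℝ =>
      ENNReal.ofReal (Real.exp (-(c * ((q.1 * y1 + q.2 * z1) ^ 2 + (q.1 * y2 + q.2 * z2) ^ 2))))) := by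
    fun_prop
  have hmeas2 : Measurable (fun q : ℝ × ℝ =>
      ENNReal.ofReal (Real.exp (-(c * q.2 ^ 2))) *
        ENNReal.ofReal (Real.exp (-(c * (a * q.1 + q.2 * y2 / y1) ^ 2)))) := by
    fun_prop
  have step1 : ∫⁻ P in Icc (-(K0 * R)) (K0 * R), ∫⁻ Q in Icc (-(K0 * R)) (K0 * R),
      ENNReal.ofReal (Real.exp (-(c * ((P * y1 + Q * z1) ^ 2 + (P * y2 + Q * z2) ^ 2)))) ≤
      ∫⁻ Q in Icc (-(K0 * R)) (K0 * R), ∫⁻ P,
      ENNReal.ofReal (Real.exp (-(c * ((P * y1 + Q * z1) ^ 2 + (P * y2 + Q * z2) ^ 2)))) := by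
    refine (setLIntegral_le_lintegral _ _).trans ?_
    exact (lintegral_lintegral_swap (μ := volume)
      (ν := volume.restrict (Icc (-(K0 * R)) (K0 * R))) hmeas.aemeasurable).le
  have step2 : ∀ Q : ℝ, ∫⁻ P,
      ENNReal.ofReal (Real.exp (-(c * ((P * y1 + Q * z1) ^ 2 + (P * y2 + Q * z2) ^ 2)))) =
      ENNReal.ofReal |y1⁻¹| * ∫⁻ u, ENNReal.ofReal (Real.exp (-(c * u ^ 2))) *
        ENNReal.ofReal (Real.exp (-(c * (a * Q + u * y2 / y1) ^ 2))) := by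
    intro Q
    obtain ⟨g, hg⟩ : ∃ g : ℝ → ℝ≥0∞, g = fun u => ENNReal.ofReal (Real.exp (-(c * u ^ 2))) *
        ENNReal.ofReal (Real.exp (-(c * (a * Q + u * y2 / y1) ^ 2))) := ⟨_, rfl⟩
    have hgm : Measurable g := by rw [hg]; fun_prop
    have h1 : ∀ P : ℝ, ENNReal.ofReal (Real.exp (-(c * ((P * y1 + Q * z1) ^ 2 +
        (P * y2 + Q * z2) ^ 2)))) = g (P * y1 + Q * z1) := by
      intro P
      rw [hg]
      show _ = ENNReal.ofReal (Real.exp (-(c * (P * y1 + Q * z1) ^ 2))) *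
        ENNReal.ofReal (Real.exp (-(c * (a * Q + (P * y1 + Q * z1) * y2 / y1) ^ 2)))
      rw [← ENNReal.ofReal_mul (Real.exp_nonneg _), ← Real.exp_add]
      have h2 : a * Q + (P * y1 + Q * z1) * y2 / y1 = P * y2 + Q * z2 := by
        rw [ha]
        field_simp
        ring
      rw [h2]
      congr 2
      ring
    simp_rw [h1]
    have h3 : ∫⁻ P, g (P * y1 + Q * z1) = ∫⁻ u, g (u + Q * z1) ∂(Measure.map (fun P => P * y1) volume) := by
      rw [lintegral_map (f := fun u => g (u + Q * z1)) (hgm.comp (measurable_add_const _))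
        (measurable_mul_const y1)]
    rw [h3, Real.map_volume_mul_right hy, lintegral_smul_measure, smul_eq_mul,
      lintegral_add_right_eq_self g (Q * z1), hg]
  have step3 : ∫⁻ Q in Icc (-(K0 * R)) (K0 * R), ∫⁻ u, ENNReal.ofReal (Real.exp (-(c * u ^ 2))) *
        ENNReal.ofReal (Real.exp (-(c * (a * Q + u * y2 / y1) ^ 2))) =
      ∫⁻ u, ∫⁻ Q in Icc (-(K0 * R)) (K0 * R), ENNReal.ofReal (Real.exp (-(c * u ^ 2))) *
        ENNReal.ofReal (Real.exp (-(c * (a * Q + u * y2 / y1) ^ 2))) :=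
    lintegral_lintegral_swap (μ := volume.restrict (Icc (-(K0 * R)) (K0 * R)))
      (ν := volume) hmeas2.aemeasurable
  have step4 : ∀ u : ℝ, ∫⁻ Q in Icc (-(K0 * R)) (K0 * R), ENNReal.ofReal (Real.exp (-(c * u ^ 2))) *
        ENNReal.ofReal (Real.exp (-(c * (a * Q + u * y2 / y1) ^ 2))) ≤
      ENNReal.ofReal (Real.exp (-(c * u ^ 2))) * ENNReal.ofReal (Cs / (1 / (K0 * R) + |a|)) := by
    intro u
    rw [lintegral_const_mul _ (by fun_prop)]
    gcongr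
    exact hs (K0 * R) (by positivity) a (u * y2 / y1)
  have step5 : ∫⁻ u : ℝ, ENNReal.ofReal (Real.exp (-(c * u ^ 2))) = ENNReal.ofReal (√(π / c)) := by
    have h1 : ∀ u : ℝ, Real.exp (-(c * u ^ 2)) = Real.exp (-c * u ^ 2) := fun u => by
      rw [neg_mul]
    simp_rw [h1]
    rw [← ofReal_integral_eq_lintegral_ofReal (integrable_exp_neg_mul_sq hc)
      (Filter.Eventually.of_forall fun u => Real.exp_nonneg _), integral_gaussian]
  have step6 : Cs / (1 / (K0 * R) + |a|) ≤ Cs * K0 * (1 / (1 / R + |a|)) := by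
    have h1 : 0 < 1 / R + |a| := by positivity
    have h2 : 0 < 1 / (K0 * R) + |a| := by positivity
    rw [mul_one_div, div_le_div_iff₀ h2 h1]
    have h3 : 1 / R + |a| ≤ K0 * (1 / (K0 * R) + |a|) := by
      have h4 : K0 * (1 / (K0 * R)) = 1 / R := by field_simp
      rw [mul_add, h4]
      nlinarith [abs_nonneg a]
    calc Cs * (1 / R + |a|) ≤ Cs * (K0 * (1 / (K0 * R) + |a|)) :=
          mul_le_mul_of_nonneg_left h3 hCs.le
      _ = Cs * K0 * (1 / (K0 * R) + |a|) := by ring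
  calc ∫⁻ P in Icc (-(K0 * R)) (K0 * R), ∫⁻ Q in Icc (-(K0 * R)) (K0 * R),
      ENNReal.ofReal (Real.exp (-(c * ((P * y1 + Q * z1) ^ 2 + (P * y2 + Q * z2) ^ 2))))
      ≤ ∫⁻ Q in Icc (-(K0 * R)) (K0 * R), ∫⁻ P,
      ENNReal.ofReal (Real.exp (-(c * ((P * y1 + Q * z1) ^ 2 + (P * y2 + Q * z2) ^ 2)))) := step1
    _ = ∫⁻ Q in Icc (-(K0 * R)) (K0 * R), ENNReal.ofReal |y1⁻¹| *
        ∫⁻ u, ENNReal.ofReal (Real.exp (-(c * u ^ 2))) *
        ENNReal.ofReal (Real.exp (-(c * (a * Q + u * y2 / y1) ^ 2))) := by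
        simp_rw [step2]
    _ = ENNReal.ofReal |y1⁻¹| * ∫⁻ Q in Icc (-(K0 * R)) (K0 * R),
        ∫⁻ u, ENNReal.ofReal (Real.exp (-(c * u ^ 2))) *
        ENNReal.ofReal (Real.exp (-(c * (a * Q + u * y2 / y1) ^ 2))) := by
        rw [lintegral_const_mul _ (Measurable.lintegral_prod_right' hmeas2)]
    _ ≤ ENNReal.ofReal |y1⁻¹| * ∫⁻ u, ENNReal.ofReal (Real.exp (-(c * u ^ 2))) *
        ENNReal.ofReal (Cs / (1 / (K0 * R) + |a|)) := by
        rw [step3]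
        gcongr with u
        exact step4 u
    _ = ENNReal.ofReal |y1⁻¹| * (ENNReal.ofReal (√(π / c)) *
        ENNReal.ofReal (Cs / (1 / (K0 * R) + |a|))) := by
        rw [lintegral_mul_const _ (by fun_prop), step5]
    _ ≤ ENNReal.ofReal |y1⁻¹| * (ENNReal.ofReal (√(π / c)) *
        ENNReal.ofReal (Cs * K0 * (1 / (1 / R + |a|)))) := by
        gcongr
    _ = ENNReal.ofReal (Cs * K0 * √(π / c) / |y1| * (1 / (1 / R + |a|))) := by
        rw [← ENNReal.ofReal_mul hgpos.le, ← ENNReal.ofReal_mul (abs_nonneg _), abs_inv]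
        congr 1
        ring

end Pool.Agent.AEL
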