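import Pool.Agent.AEL.V2
import Pool.Agent.AEL.V2b

namespace Pool.Agent.AEL

open MeasureTheory Set Pool.Agent.MP_6cbfb8_an Pool.Agent.MST
open scoped ENNReal Real

/-- The integrand. -/
noncomputable def hv3F (c A : ℝ) (p q : ℝ × ℝ) (P Q : ℝ) : ℝ≥0∞ :=
  ENNReal.ofReal (Real.exp (-(c * (((P * p.1 + Q * p.2) ^ 2 + (P * q.1 + Q * q.2) ^ 2) +
    ((A * (p.1 * p.2)) ^ 2 + (A * (q.1 * q.2)) ^ 2)))))

/-- The integral over the last two variables. -/
noncomputable def hv3G (c A : ℝ) (ν : Measure ℝ) (p q : ℝ × ℝ) : ℝ≥0∞ :=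
  ∫⁻ P, ∫⁻ Q, hv3F c A p q P Q ∂ν ∂ν

theorem hv3_symm (c A : ℝ) (ν : Measure ℝ) (p q : ℝ × ℝ) :
    hv3G c A ν p q = hv3G c A ν q p := by
  unfold hv3G hv3F
  refine lintegral_congr fun P => lintegral_congr fun Q => ?_
  congr 3
  ring

theorem hv3_meas (c A : ℝ) (ν : Measure ℝ) [SFinite ν] :
    Measurable fun x : (ℝ × ℝ) × (ℝ × ℝ) => hv3G c A ν x.1 x.2 := by
  unfold hv3G
  have h1 : Measurable fun x : (((ℝ × ℝ) × (ℝ × ℝ)) × ℝ) × ℝ =>
      hv3F c A x.1.1.1 x.1.1.2 x.1.2 x.2 := by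
    unfold hv3F
    fun_prop
  have h2 : Measurable fun x : ((ℝ × ℝ) × (ℝ × ℝ)) × ℝ =>
      ∫⁻ Q, hv3F c A x.1.1 x.1.2 x.2 Q ∂ν := h1.lintegral_prod_right'
  exact h2.lintegral_prod_right'

/-- The part where the second point has the smaller first coordinate. -/
noncomputable def hv3g (c A : ℝ) (ν : Measure ℝ) (p q : ℝ × ℝ) : ℝ≥0∞ :=
  if |q.1| ≤ |p.1| then hv3G c A ν p q else 0

theorem hv3_meas_g (c A : ℝ) (ν : Measure ℝ) [SFinite ν] :
    Measurable fun x : (ℝ × ℝ) × (ℝ × ℝ) => hv3g c A ν x.1 x.2 := by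
  unfold hv3g
  refine Measurable.ite ?_ (hv3_meas c A ν) measurable_const
  exact measurableSet_le (by fun_prop) (by fun_prop)

theorem hv3_le (c A : ℝ) (ν : Measure ℝ) (p q : ℝ × ℝ) :
    hv3G c A ν p q ≤ hv3g c A ν p q + hv3g c A ν q p := by
  unfold hv3g
  rcases le_total |q.1| |p.1| with h | h
  · rw [if_pos h]
    exact le_self_add
  · rw [if_pos h, hv3_symm c A ν q p]
    exact le_add_self

theorem hv3_split (c A : ℝ) (ν κ : Measure ℝ) [SFinite ν] [SFinite κ] :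
    ∫⁻ y1, ∫⁻ z1, ∫⁻ y2, ∫⁻ z2, hv3G c A ν (y1, z1) (y2, z2) ∂κ ∂κ ∂κ ∂κ ≤
      2 * ∫⁻ y1, ∫⁻ z1, ∫⁻ y2, ∫⁻ z2, hv3g c A ν (y1, z1) (y2, z2) ∂κ ∂κ ∂κ ∂κ := by
  have key : ∀ f : (ℝ × ℝ) → (ℝ × ℝ) → ℝ≥0∞,
      Measurable (fun x : (ℝ × ℝ) × (ℝ × ℝ) => f x.1 x.2) →
      ∫⁻ y1, ∫⁻ z1, ∫⁻ y2, ∫⁻ z2, f (y1, z1) (y2, z2) ∂κ ∂κ ∂κ ∂κ =
      ∫⁻ p, ∫⁻ q, f p q ∂(κ.prod κ) ∂(κ.prod κ) := by
    intro f hf
    have h1 : Measurable fun p : ℝ × ℝ => ∫⁻ q, f p q ∂(κ.prod κ) := hf.lintegral_prod_right'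
    rw [lintegral_prod _ h1.aemeasurable]
    refine lintegral_congr fun y1 => lintegral_congr fun z1 => ?_
    have h2 : Measurable fun q : ℝ × ℝ => f (y1, z1) q := hf.comp measurable_prodMk_left
    rw [lintegral_prod _ h2.aemeasurable]
  rw [key _ (hv3_meas c A ν), key _ (hv3_meas_g c A ν), two_mul]
  have h2 : ∫⁻ p, ∫⁻ q, hv3g c A ν p q ∂(κ.prod κ) ∂(κ.prod κ) =
      ∫⁻ p, ∫⁻ q, hv3g c A ν q p ∂(κ.prod κ) ∂(κ.prod κ) :=
    lintegral_lintegral_swap (hv3_meas_g c A ν).aemeasurable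
  conv_rhs => rw [h2]
  conv_rhs =>
    congr
    · rw [← h2]
  have h3 : Measurable fun p : ℝ × ℝ => ∫⁻ q, hv3g c A ν p q ∂(κ.prod κ) :=
    (hv3_meas_g c A ν).lintegral_prod_right'
  rw [← lintegral_add_left h3]
  refine lintegral_mono fun p => ?_
  have h4 : Measurable fun q : ℝ × ℝ => hv3g c A ν p q :=
    (hv3_meas_g c A ν).comp measurable_prodMk_left
  rw [← lintegral_add_left h4]
  exact lintegral_mono fun q => hv3_le c A ν p q

/-
ROW V3 (1.2 h). Split the (y1, y2) square in the halves |y2| ≤ |y1| and |y1| ≤ |y2|; exchanging the names (y1,z1) ↔ (y2,z2) (Tonelli) the two halves have the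
same integral, so it is enough to bound the integral with the extra factor indicator {|y2| ≤ |y1|}. For y1 ≠ 0 (a.e.): bound exp ≤
exp(-c (A y1 z1)²) · exp(-c((P y1+Q z1)² + (P y2+Q z2)²)), and `two_lin` gives for the (P,Q)-integral ≤ (C/|y1|) /(1/R + |z2 - z1 y2/y1|). Integrate z2:
`log_int` (r = z1 y2/y1): ≤ (C/|y1|) C' (1 + log R). Integrate y2 over |y2| ≤ |y1|: factor 2|y1|, so ≤ 2 C C' (1 + log R). What remains is
∫_{y1} ∫_{z1} exp(-c (A y1 z1)²) ≤ C'' (1 + log R)/R by `hyp` with P = Q = 0.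
-/
theorem two_coord (c C0 K0 : ℝ) (hc : 0 < c) (hC0 : 1 ≤ C0) (hK0 : 1 ≤ K0) :
    ∃ C : ℝ, 0 < C ∧ ∀ R : ℝ, 1 ≤ R → ∀ A ∈ Icc (2 * R) (4 * R),
    ∫⁻ y1 in Icc (-C0) C0, ∫⁻ z1 in Icc (-C0) C0, ∫⁻ y2 in Icc (-C0) C0, ∫⁻ z2 in Icc (-C0) C0,
      ∫⁻ P in Icc (-(K0 * R)) (K0 * R), ∫⁻ Q in Icc (-(K0 * R)) (K0 * R),
        ENNReal.ofReal (Real.exp (-(c * (((P * y1 + Q * z1) ^ 2 + (P * y2 + Q * z2) ^ 2) +
          ((A * (y1 * z1)) ^ 2 + (A * (y2 * z2)) ^ 2))))) ≤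
      ENNReal.ofReal (C * (1 + Real.log R) ^ 2 / R) := by
  obtain ⟨C1, hC1, h1⟩ := log_int C0 hC0
  obtain ⟨C2, hC2, h2⟩ := two_lin c K0 hc hK0
  obtain ⟨C3, hC3, h3⟩ := hyp c C0 hc hC0
  refine ⟨2 * (C3 * (2 * (C1 * C2))), by positivity, fun R hR A hA => ?_⟩
  have hR0 : 0 < R := by linarith
  have hL : 0 < 1 + Real.log R := by
    have := Real.log_nonneg hR
    linarith
  set L : ℝ := 1 + Real.log R with hLdef
  set κ : Measure ℝ := volume.restrict (Icc (-C0) C0) with hκ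
  set ν : Measure ℝ := volume.restrict (Icc (-(K0 * R)) (K0 * R)) with hν
  have hsplit := hv3_split c A ν κ
  refine le_trans (le_of_eq ?_) (hsplit.trans ?_)
  · rfl
  -- the inner bound
  have hin : ∀ y1 z1 : ℝ, y1 ≠ 0 → ∫⁻ y2, ∫⁻ z2, hv3g c A ν (y1, z1) (y2, z2) ∂κ ∂κ ≤
      ENNReal.ofReal (Real.exp (-(c * (2 * 0 * y1 + 2 * 0 * z1 - A * (y1 * z1)) ^ 2))) *
        ENNReal.ofReal (2 * (C1 * C2) * L) := by
    intro y1 z1 hy1
    have hy : 0 < |y1| := abs_pos.2 hy1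
    set e : ℝ≥0∞ :=
      ENNReal.ofReal (Real.exp (-(c * (2 * 0 * y1 + 2 * 0 * z1 - A * (y1 * z1)) ^ 2))) with he
    have hpt : ∀ y2 z2 : ℝ, hv3G c A ν (y1, z1) (y2, z2) ≤
        e * ENNReal.ofReal (C2 / |y1| * (1 / (1 / R + |z2 - z1 * y2 / y1|))) := by
      intro y2 z2
      have h4 : hv3G c A ν (y1, z1) (y2, z2) ≤ e * ∫⁻ P, ∫⁻ Q, ENNReal.ofReal (Real.exp
          (-(c * ((P * y1 + Q * z1) ^ 2 + (P * y2 + Q * z2) ^ 2)))) ∂ν ∂ν := by
        unfold hv3G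
        rw [← lintegral_const_mul' _ _ ENNReal.ofReal_ne_top]
        refine lintegral_mono fun P => ?_
        simp only
        rw [← lintegral_const_mul' _ _ ENNReal.ofReal_ne_top]
        refine lintegral_mono fun Q => ?_
        unfold hv3F
        simp only
        rw [← ENNReal.ofReal_mul (Real.exp_pos _).le, ← Real.exp_add]
        refine ENNReal.ofReal_le_ofReal (Real.exp_le_exp.2 ?_)
        have h5 : 0 ≤ c * (A * (y2 * z2)) ^ 2 := by positivity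
        nlinarith
      exact h4.trans (mul_le_mul_right (h2 R hR y1 z1 y2 z2 hy1) _)
    calc ∫⁻ y2, ∫⁻ z2, hv3g c A ν (y1, z1) (y2, z2) ∂κ ∂κ
        ≤ ∫⁻ y2, (Icc (-|y1|) |y1|).indicator
            (fun _ => e * ENNReal.ofReal (C1 * C2 * L / |y1|)) y2 ∂κ := by
          refine lintegral_mono fun y2 => ?_
          by_cases hy2 : |y2| ≤ |y1|
          · have hmem : y2 ∈ Icc (-|y1|) |y1| := abs_le.1 hy2
            rw [indicator_of_mem hmem]
            calc ∫⁻ z2, hv3g c A ν (y1, z1) (y2, z2) ∂κ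
                ≤ ∫⁻ z2, e * (ENNReal.ofReal (C2 / |y1|) *
                  ENNReal.ofReal (1 / (1 / R + |z2 - z1 * y2 / y1|))) ∂κ := by
                  refine lintegral_mono fun z2 => ?_
                  unfold hv3g
                  simp only
                  rw [if_pos hy2, ← ENNReal.ofReal_mul (by positivity)]
                  exact hpt y2 z2
              _ = e * (ENNReal.ofReal (C2 / |y1|) *
                  ∫⁻ z2, ENNReal.ofReal (1 / (1 / R + |z2 - z1 * y2 / y1|)) ∂κ) := by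
                  rw [lintegral_const_mul' _ _ ENNReal.ofReal_ne_top,
                    lintegral_const_mul' _ _ ENNReal.ofReal_ne_top]
              _ ≤ e * (ENNReal.ofReal (C2 / |y1|) * ENNReal.ofReal (C1 * L)) :=
                  mul_le_mul_right (mul_le_mul_right (h1 R hR (z1 * y2 / y1)) _) _
              _ = e * ENNReal.ofReal (C1 * C2 * L / |y1|) := by
                  rw [← ENNReal.ofReal_mul (by positivity)]
                  congr 2
                  ring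
          · have h6 : ∀ z2 : ℝ, hv3g c A ν (y1, z1) (y2, z2) = 0 := by
              intro z2
              unfold hv3g
              simp only
              rw [if_neg hy2]
            simp only [h6, lintegral_zero]
            exact zero_le
      _ ≤ ∫⁻ y2, (Icc (-|y1|) |y1|).indicator
            (fun _ => e * ENNReal.ofReal (C1 * C2 * L / |y1|)) y2 :=
          lintegral_mono' Measure.restrict_le_self le_rfl
      _ = e * ENNReal.ofReal (C1 * C2 * L / |y1|) * volume (Icc (-|y1|) |y1|) := by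
          rw [lintegral_indicator_const measurableSet_Icc]
      _ = e * ENNReal.ofReal (2 * (C1 * C2) * L) := by
          rw [Real.volume_Icc, mul_assoc, ← ENNReal.ofReal_mul (by positivity)]
          congr 2
          field_simp
          ring
  have hae : ∀ᵐ y1 : ℝ ∂κ, y1 ≠ 0 := by
    refine ae_restrict_of_ae ?_
    rw [ae_iff]
    simp
  calc 2 * ∫⁻ y1, ∫⁻ z1, ∫⁻ y2, ∫⁻ z2, hv3g c A ν (y1, z1) (y2, z2) ∂κ ∂κ ∂κ ∂κ
      ≤ 2 * ∫⁻ y1, ∫⁻ z1,
        ENNReal.ofReal (Real.exp (-(c * (2 * 0 * y1 + 2 * 0 * z1 - A * (y1 * z1)) ^ 2))) *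
        ENNReal.ofReal (2 * (C1 * C2) * L) ∂κ ∂κ := by
        refine mul_le_mul_right (lintegral_mono_ae ?_) _
        filter_upwards [hae] with y1 hy1
        exact lintegral_mono fun z1 => hin y1 z1 hy1
    _ = 2 * ((∫⁻ y1, ∫⁻ z1,
        ENNReal.ofReal (Real.exp (-(c * (2 * 0 * y1 + 2 * 0 * z1 - A * (y1 * z1)) ^ 2)))
          ∂κ ∂κ) * ENNReal.ofReal (2 * (C1 * C2) * L)) := by
        simp only [lintegral_mul_const' _ _ ENNReal.ofReal_ne_top]
    _ ≤ 2 * (ENNReal.ofReal (C3 * L / R) * ENNReal.ofReal (2 * (C1 * C2) * L)) :=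
        mul_le_mul_right (mul_le_mul_left (h3 R hR A hA 0 0) _) _
    _ = ENNReal.ofReal (2 * (C3 * (2 * (C1 * C2))) * L ^ 2 / R) := by
        rw [← ENNReal.ofReal_mul (by positivity)]
        have h7 : (2 : ℝ≥0∞) = ENNReal.ofReal 2 := by simp
        rw [h7, ← ENNReal.ofReal_mul (by norm_num)]
        congr 1
        ring

end Pool.Agent.AEL
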