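import Pool.Agent.AEL.V3

namespace Pool.Agent.AEL

open MeasureTheory Set Pool.Agent.MP_6cbfb8_an Pool.Agent.MST
open scoped ENNReal Real

/-- the integrand integrated over the two slopes -/
noncomputable def hv4_F (d : ℕ) (c K A : ℝ) (y z : E d) : ℝ≥0∞ :=
  ∫⁻ P in Icc (-K) K, ∫⁻ Q in Icc (-K) K,
        ENNReal.ofReal (Real.exp (-(c * ((∑ b, (P * y b + Q * z b) ^ 2) +
          ∑ b, (A * (y b * z b)) ^ 2))))

lemma hv4_meas_F (d : ℕ) (c K A : ℝ) : Measurable fun q : E d × E d => hv4_F d c K A q.1 q.2 := by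
  unfold hv4_F
  have h0 : Continuous fun q : ((E d × E d) × ℝ) × ℝ =>
      Real.exp (-(c * ((∑ b, (q.1.2 * q.1.1.1 b + q.2 * q.1.1.2 b) ^ 2) +
          ∑ b, (A * (q.1.1.1 b * q.1.1.2 b)) ^ 2))) := by
    fun_prop
  have h1 : Measurable fun q : ((E d × E d) × ℝ) × ℝ =>
      ENNReal.ofReal (Real.exp (-(c * ((∑ b, (q.1.2 * q.1.1.1 b + q.2 * q.1.1.2 b) ^ 2) +
          ∑ b, (A * (q.1.1.1 b * q.1.1.2 b)) ^ 2)))) := h0.measurable.ennreal_ofReal
  have h2 : Measurable fun q : (E d × E d) × ℝ => ∫⁻ Q in Icc (-K) K,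
      ENNReal.ofReal (Real.exp (-(c * ((∑ b, (q.2 * q.1.1 b + Q * q.1.2 b) ^ 2) +
          ∑ b, (A * (q.1.1 b * q.1.2 b)) ^ 2)))) := h1.lintegral_prod_right'
  exact h2.lintegral_prod_right'

lemma hv4_cube_meas (d : ℕ) (C0 : ℝ) : MeasurableSet (cube d C0) := by
  have : cube d C0 = ⋂ b, {y : E d | |y b| ≤ C0} := by
    ext y
    simp [cube]
  rw [this]
  refine MeasurableSet.iInter fun b => ?_
  have h : Continuous fun y : E d => |y b| := by fun_prop
  exact (isClosed_le h continuous_const).measurableSet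

lemma hv4_mem_cube {d : ℕ} (C0 : ℝ) (y : E d) (u : ℝ) :
    join y u ∈ cube (d + 1) C0 ↔ y ∈ cube d C0 ∧ u ∈ Icc (-C0) C0 := by
  simp only [cube, mem_ofPred_eq, Fin.forall_fin_succ', mem_Icc]
  have h1 : ∀ b : Fin d, (join y u) (Fin.castSucc b) = y b := fun b => by simp [join]
  have h2 : (join y u) (Fin.last d) = u := by simp [join]
  simp only [h1, h2, abs_le]

lemma hv4_join (d : ℕ) (C0 : ℝ) (φ : E (d + 1) → ℝ≥0∞) (hφ : Measurable φ) :
    ∫⁻ x in cube (d + 1) C0, φ x = ∫⁻ y in cube d C0, ∫⁻ u in Icc (-C0) C0, φ (join y u) := by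
  rw [← lintegral_indicator (hv4_cube_meas _ _), lintegral_join d _
    (hφ.indicator (hv4_cube_meas _ _)), ← lintegral_indicator (hv4_cube_meas _ _)]
  refine lintegral_congr fun y => ?_
  by_cases hy : y ∈ cube d C0
  · rw [indicator_of_mem hy, ← lintegral_indicator measurableSet_Icc]
    refine lintegral_congr fun u => ?_
    by_cases hu : u ∈ Icc (-C0) C0
    · rw [indicator_of_mem hu, indicator_of_mem ((hv4_mem_cube C0 y u).2 ⟨hy, hu⟩)]
    · rw [indicator_of_notMem hu, indicator_of_notMem]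
      exact fun h => hu ((hv4_mem_cube C0 y u).1 h).2
  · rw [indicator_of_notMem hy]
    have e : ∀ u : ℝ, (cube (d + 1) C0).indicator φ (join y u) = 0 := by
      intro u
      rw [indicator_of_notMem]
      exact fun h => hy ((hv4_mem_cube C0 y u).1 h).1
    simp only [e, lintegral_zero]

lemma hv4_join2 (d : ℕ) (C0 : ℝ) (φ : E (d + 1) × E (d + 1) → ℝ≥0∞) (hφ : Measurable φ) :
    ∫⁻ y in cube (d + 1) C0, ∫⁻ z in cube (d + 1) C0, φ (y, z) =
      ∫⁻ y in cube d C0, ∫⁻ z in cube d C0, ∫⁻ u in Icc (-C0) C0, ∫⁻ v in Icc (-C0) C0,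
        φ (join y u, join z v) := by
  have mj : Measurable fun q : E d × ℝ => join q.1 q.2 := continuous_join.measurable
  have m1 : Measurable fun y : E (d + 1) => ∫⁻ z in cube (d + 1) C0, φ (y, z) :=
    hφ.lintegral_prod_right'
  rw [hv4_join d C0 _ m1]
  refine lintegral_congr fun y => ?_
  have e1 : ∀ u : ℝ, ∫⁻ z in cube (d + 1) C0, φ (join y u, z) =
      ∫⁻ z in cube d C0, ∫⁻ v in Icc (-C0) C0, φ (join y u, join z v) := fun u =>
    hv4_join d C0 _ (hφ.comp measurable_prodMk_left)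
  simp only [e1]
  rw [lintegral_lintegral_swap]
  have mA : Measurable fun q : (ℝ × E d) × ℝ => φ (join y q.1.1, join q.1.2 q.2) := by
    refine hφ.comp (Measurable.prodMk ?_ ?_)
    · exact mj.comp (measurable_const.prodMk (measurable_fst.comp measurable_fst))
    · exact mj.comp ((measurable_snd.comp measurable_fst).prodMk measurable_snd)
  have mB : Measurable fun q : ℝ × E d => ∫⁻ v in Icc (-C0) C0, φ (join y q.1, join q.2 v) :=
    mA.lintegral_prod_right'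
  exact mB.aemeasurable

lemma hv4_mB (d : ℕ) (C0 : ℝ) (φ : E (d + 1) × E (d + 1) → ℝ≥0∞) (hφ : Measurable φ) :
    Measurable fun q : E d × E d => ∫⁻ u in Icc (-C0) C0, ∫⁻ v in Icc (-C0) C0,
      φ (join q.1 u, join q.2 v) := by
  have mj : Measurable fun q : E d × ℝ => join q.1 q.2 := continuous_join.measurable
  have mA : Measurable fun q : ((E d × E d) × ℝ) × ℝ =>
      φ (join q.1.1.1 q.1.2, join q.1.1.2 q.2) := by
    have k1 : Measurable fun q : ((E d × E d) × ℝ) × ℝ => ((q.1.1.1, q.1.2) : E d × ℝ) := by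
      fun_prop
    have k2 : Measurable fun q : ((E d × E d) × ℝ) × ℝ => ((q.1.1.2, q.2) : E d × ℝ) := by
      fun_prop
    exact hφ.comp ((mj.comp k1).prodMk (mj.comp k2))
  exact mA.lintegral_prod_right'.lintegral_prod_right'

lemma hv4_join4 (d : ℕ) (C0 : ℝ) (φ : E (d + 2) × E (d + 2) → ℝ≥0∞) (hφ : Measurable φ) :
    ∫⁻ y in cube (d + 2) C0, ∫⁻ z in cube (d + 2) C0, φ (y, z) =
      ∫⁻ y in cube d C0, ∫⁻ z in cube d C0, ∫⁻ u1 in Icc (-C0) C0, ∫⁻ v1 in Icc (-C0) C0,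
        ∫⁻ u2 in Icc (-C0) C0, ∫⁻ v2 in Icc (-C0) C0,
          φ (join (join y u1) u2, join (join z v1) v2) := by
  rw [hv4_join2 (d + 1) C0 φ hφ]
  exact hv4_join2 d C0 (fun q => ∫⁻ u in Icc (-C0) C0, ∫⁻ v in Icc (-C0) C0,
    φ (join q.1 u, join q.2 v)) (hv4_mB (d + 1) C0 φ hφ)

lemma hv4_pt (d : ℕ) (c A : ℝ) (hc : 0 < c) (y z : E d) (u v P Q : ℝ) :
    ENNReal.ofReal (Real.exp (-(c * ((∑ b, (P * (join y u) b + Q * (join z v) b) ^ 2) +
          ∑ b, (A * ((join y u) b * (join z v) b)) ^ 2)))) ≤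
    ENNReal.ofReal (Real.exp (-(c * ((∑ b, (P * y b + Q * z b) ^ 2) +
          ∑ b, (A * (y b * z b)) ^ 2)))) *
      ENNReal.ofReal (Real.exp (-(c * (2 * 0 * u + 2 * 0 * v - A * (u * v)) ^ 2))) := by
  have h1 : ∀ (x : E d) (t : ℝ) (b : Fin d), (join x t) (Fin.castSucc b) = x b :=
    fun x t b => by simp [join]
  have h2 : ∀ (x : E d) (t : ℝ), (join x t) (Fin.last d) = t := fun x t => by simp [join]
  rw [← ENNReal.ofReal_mul (Real.exp_pos _).le, ← Real.exp_add]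
  refine ENNReal.ofReal_le_ofReal (Real.exp_le_exp.2 ?_)
  rw [Fin.sum_univ_castSucc, Fin.sum_univ_castSucc]
  simp only [h1, h2]
  have h3 : 0 ≤ c * (P * u + Q * v) ^ 2 := by positivity
  nlinarith [h3]

lemma hv4_m3 (d : ℕ) (c A : ℝ) (y z : E d) (P : ℝ) : Measurable fun Q : ℝ => ENNReal.ofReal
      (Real.exp (-(c * ((∑ b, (P * y b + Q * z b) ^ 2) + ∑ b, (A * (y b * z b)) ^ 2)))) := by
  have m0 : Continuous fun Q : ℝ =>
      Real.exp (-(c * ((∑ b, (P * y b + Q * z b) ^ 2) + ∑ b, (A * (y b * z b)) ^ 2))) := by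
    fun_prop
  exact m0.measurable.ennreal_ofReal

lemma hv4_F_join (d : ℕ) (c K A : ℝ) (hc : 0 < c) (y z : E d) (u v : ℝ) :
    hv4_F (d + 1) c K A (join y u) (join z v) ≤
      hv4_F d c K A y z * ENNReal.ofReal (Real.exp (-(c * (2 * 0 * u + 2 * 0 * v -
        A * (u * v)) ^ 2))) := by
  have m0 : Continuous fun q : ℝ × ℝ =>
      Real.exp (-(c * ((∑ b, (q.1 * y b + q.2 * z b) ^ 2) + ∑ b, (A * (y b * z b)) ^ 2))) := by
    fun_prop
  have m1 : Measurable fun q : ℝ × ℝ => ENNReal.ofReal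
      (Real.exp (-(c * ((∑ b, (q.1 * y b + q.2 * z b) ^ 2) + ∑ b, (A * (y b * z b)) ^ 2)))) :=
    m0.measurable.ennreal_ofReal
  have m2 : Measurable fun P : ℝ => ∫⁻ Q in Icc (-K) K, ENNReal.ofReal
      (Real.exp (-(c * ((∑ b, (P * y b + Q * z b) ^ 2) + ∑ b, (A * (y b * z b)) ^ 2)))) :=
    m1.lintegral_prod_right'
  set W : ℝ≥0∞ := ENNReal.ofReal (Real.exp (-(c * (2 * 0 * u + 2 * 0 * v -
        A * (u * v)) ^ 2))) with hW
  have e : hv4_F d c K A y z * W = ∫⁻ P in Icc (-K) K, ∫⁻ Q in Icc (-K) K,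
      ENNReal.ofReal (Real.exp (-(c * ((∑ b, (P * y b + Q * z b) ^ 2) +
          ∑ b, (A * (y b * z b)) ^ 2)))) * W := by
    unfold hv4_F
    rw [← lintegral_mul_const _ m2]
    refine lintegral_congr fun P => ?_
    rw [← lintegral_mul_const _ (hv4_m3 d c A y z P)]
  rw [e]
  exact lintegral_mono fun P => lintegral_mono fun Q => hv4_pt d c A hc y z u v P Q

lemma hv4_dirac (C0 : ℝ) : volume (cube 0 C0) ≤ 1 := by
  have h : (volume : Measure (E 0)) = Measure.dirac 0 := by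
    exact volume_euclideanSpace_eq_dirac (Fin 0)
  rw [h]
  exact prob_le_one

lemma hv4_F2 (c K A : ℝ) (y z : E 0) (u1 v1 u2 v2 : ℝ) :
      hv4_F 2 c K A (join (join y u1) u2) (join (join z v1) v2) =
      ∫⁻ P in Icc (-K) K, ∫⁻ Q in Icc (-K) K,
        ENNReal.ofReal (Real.exp (-(c * (((P * u1 + Q * v1) ^ 2 + (P * u2 + Q * v2) ^ 2) +
          ((A * (u1 * v1)) ^ 2 + (A * (u2 * v2)) ^ 2))))) := by
  unfold hv4_F
  have h1 : ∀ (d : ℕ) (x : E d) (t : ℝ) (b : Fin d), (join x t) (Fin.castSucc b) = x b :=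
    fun d x t b => by simp [join]
  have h2 : ∀ (d : ℕ) (x : E d) (t : ℝ), (join x t) (Fin.last d) = t :=
    fun d x t => by simp [join]
  have a1 : ∀ (x : E 0) (s t : ℝ), (join (join x s) t) 0 = s := fun x s t =>
    (h1 1 (join x s) t (Fin.last 0)).trans (h2 0 x s)
  have a2 : ∀ (x : E 0) (s t : ℝ), (join (join x s) t) 1 = t := fun x s t =>
    h2 1 (join x s) t
  simp only [Fin.sum_univ_two, a1, a2]

lemma hv4_base (c C0 K0 : ℝ) (hc : 0 < c) (hC0 : 1 ≤ C0) (hK0 : 1 ≤ K0) :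
    ∃ C : ℝ, 0 < C ∧ ∀ R : ℝ, 1 ≤ R → ∀ A ∈ Icc (2 * R) (4 * R),
    ∫⁻ y in cube 2 C0, ∫⁻ z in cube 2 C0, hv4_F 2 c (K0 * R) A y z ≤
      ENNReal.ofReal (C * (1 + Real.log R) ^ 2 / R ^ (2 - 1)) := by
  obtain ⟨C, hC, h⟩ := two_coord c C0 K0 hc hC0 hK0
  refine ⟨C, hC, fun R hR A hA => ?_⟩
  have h1 := h R hR A hA
  have e0 := hv4_join4 0 C0 (fun q => hv4_F 2 c (K0 * R) A q.1 q.2) (hv4_meas_F 2 c (K0 * R) A)
  simp only at e0
  rw [e0]
  simp only [hv4_F2, lintegral_const]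
  have hm : (volume.restrict (cube 0 C0)) univ ≤ 1 := by
    rw [Measure.restrict_apply_univ]
    exact hv4_dirac C0
  calc _ ≤ ENNReal.ofReal (C * (1 + Real.log R) ^ 2 / R) * 1 * 1 := by
        gcongr
    _ = _ := by simp

lemma hv4_pull (d : ℕ) (S1 : Set (E d)) (f : E d → E d → ℝ≥0∞) (hf : Measurable fun q : E d × E d =>
    f q.1 q.2) (W : ℝ≥0∞) : ∫⁻ y in S1, ∫⁻ z in S1, f y z * W = (∫⁻ y in S1, ∫⁻ z in S1, f y z) * W := by
  have m1 : Measurable fun y => ∫⁻ z in S1, f y z := hf.lintegral_prod_right'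
  rw [← lintegral_mul_const _ m1]
  refine lintegral_congr fun y => ?_
  have m2 : Measurable fun z => f y z := hf.comp measurable_prodMk_left
  rw [← lintegral_mul_const _ m2]

lemma hv4_pull2 (S1 : Set ℝ) (f : ℝ → ℝ → ℝ≥0∞) (hf : Measurable fun q : ℝ × ℝ =>
    f q.1 q.2) (W : ℝ≥0∞) : ∫⁻ y in S1, ∫⁻ z in S1, W * f y z = W * (∫⁻ y in S1, ∫⁻ z in S1, f y z) := by
  have m1 : Measurable fun y => ∫⁻ z in S1, f y z := hf.lintegral_prod_right'
  rw [← lintegral_const_mul _ m1]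
  refine lintegral_congr fun y => ?_
  have m2 : Measurable fun z => f y z := hf.comp measurable_prodMk_left
  rw [← lintegral_const_mul _ m2]

lemma hv4_step (d : ℕ) (hd : 2 ≤ d) (c C0 K0 : ℝ) (hc : 0 < c) (hC0 : 1 ≤ C0)
    (ih : ∃ C : ℝ, 0 < C ∧ ∀ R : ℝ, 1 ≤ R → ∀ A ∈ Icc (2 * R) (4 * R),
    ∫⁻ y in cube d C0, ∫⁻ z in cube d C0, hv4_F d c (K0 * R) A y z ≤
      ENNReal.ofReal (C * (1 + Real.log R) ^ d / R ^ (d - 1))) :
    ∃ C : ℝ, 0 < C ∧ ∀ R : ℝ, 1 ≤ R → ∀ A ∈ Icc (2 * R) (4 * R),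
    ∫⁻ y in cube (d + 1) C0, ∫⁻ z in cube (d + 1) C0, hv4_F (d + 1) c (K0 * R) A y z ≤
      ENNReal.ofReal (C * (1 + Real.log R) ^ (d + 1) / R ^ (d + 1 - 1)) := by
  obtain ⟨C, hC, h⟩ := ih
  obtain ⟨C', hC', h'⟩ := hyp c C0 hc hC0
  refine ⟨C * C', by positivity, fun R hR A hA => ?_⟩
  have hR0 : 0 < R := by linarith
  have h1 := h R hR A hA
  have h2 := h' R hR A hA 0 0
  have hl : 0 ≤ Real.log R := Real.log_nonneg hR
  rw [hv4_join2 d C0 (fun q => hv4_F (d + 1) c (K0 * R) A q.1 q.2)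
    (hv4_meas_F (d + 1) c (K0 * R) A)]
  have mw : Measurable fun q : ℝ × ℝ => ENNReal.ofReal (Real.exp (-(c * (2 * 0 * q.1 +
      2 * 0 * q.2 - A * (q.1 * q.2)) ^ 2))) := by
    have : Continuous fun q : ℝ × ℝ => Real.exp (-(c * (2 * 0 * q.1 +
      2 * 0 * q.2 - A * (q.1 * q.2)) ^ 2)) := by fun_prop
    exact this.measurable.ennreal_ofReal
  have e1 : ∀ y z : E d, ∫⁻ u in Icc (-C0) C0, ∫⁻ v in Icc (-C0) C0,
      hv4_F (d + 1) c (K0 * R) A (join y u) (join z v) ≤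
      hv4_F d c (K0 * R) A y z * ENNReal.ofReal (C' * (1 + Real.log R) / R) := by
    intro y z
    calc _ ≤ ∫⁻ u in Icc (-C0) C0, ∫⁻ v in Icc (-C0) C0, hv4_F d c (K0 * R) A y z *
          ENNReal.ofReal (Real.exp (-(c * (2 * 0 * u + 2 * 0 * v - A * (u * v)) ^ 2))) :=
          lintegral_mono fun u => lintegral_mono fun v => hv4_F_join d c (K0 * R) A hc y z u v
      _ = hv4_F d c (K0 * R) A y z * ∫⁻ u in Icc (-C0) C0, ∫⁻ v in Icc (-C0) C0,
          ENNReal.ofReal (Real.exp (-(c * (2 * 0 * u + 2 * 0 * v - A * (u * v)) ^ 2))) :=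
          hv4_pull2 _ (fun u v => ENNReal.ofReal (Real.exp (-(c * (2 * 0 * u + 2 * 0 * v -
            A * (u * v)) ^ 2)))) mw _
      _ ≤ _ := by gcongr
  calc _ ≤ ∫⁻ y in cube d C0, ∫⁻ z in cube d C0,
        hv4_F d c (K0 * R) A y z * ENNReal.ofReal (C' * (1 + Real.log R) / R) :=
        lintegral_mono fun y => lintegral_mono fun z => e1 y z
    _ = (∫⁻ y in cube d C0, ∫⁻ z in cube d C0, hv4_F d c (K0 * R) A y z) *
        ENNReal.ofReal (C' * (1 + Real.log R) / R) :=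
        hv4_pull d _ (hv4_F d c (K0 * R) A) (hv4_meas_F d c (K0 * R) A) _
    _ ≤ ENNReal.ofReal (C * (1 + Real.log R) ^ d / R ^ (d - 1)) *
        ENNReal.ofReal (C' * (1 + Real.log R) / R) := by gcongr
    _ = _ := by
        rw [← ENNReal.ofReal_mul (by positivity)]
        congr 1
        have : R ^ (d + 1 - 1) = R ^ (d - 1) * R := by
          rw [← pow_succ]
          congr 1
          omega
        rw [this, pow_succ]
        field_simp

/-
ROW V4 (1.3 h). Induction on d from d = 2. `lintegral_join` (Sphere.lean): ∫⁻ x : E (n+1), φ x = ∫⁻ y : E n, ∫⁻ z : ℝ, φ (join y z); for sets use indicators: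
cube (d+1) C0 ∋ join y u ↔ y ∈ cube d C0 ∧ |u| ≤ C0 (Fin.forall_fin_succ' / Fin.lastCases; (join y u) (Fin.last d) = u, (join y u) (castSucc b) = y b by simp [join]).
d = 2: write E 2 = join (join · y1) y2 over E 0 (volume on E 0 is a Dirac mass: total mass 1, `volume_euclideanSpace_eq_dirac`-like, or
PiLp.volume_preserving_toLp and lintegral over Fin 0 → ℝ), the integral is the one of `two_coord` up to the order (Tonelli).
Step d → d+1: the exponent for (join y u, join z v) is ≥ (exponent for (y,z)) + (A (u v))² (drop (P u + Q v)²), so the integrand is ≤ the product; integrate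
u, v first: `hyp` with P = Q = 0 gives ≤ C (1 + log R)/R; induction hypothesis.
-/
theorem vol (d : ℕ) (hd : 2 ≤ d) (c C0 K0 : ℝ) (hc : 0 < c) (hC0 : 1 ≤ C0) (hK0 : 1 ≤ K0) :
    ∃ C : ℝ, 0 < C ∧ ∀ R : ℝ, 1 ≤ R → ∀ A ∈ Icc (2 * R) (4 * R),
    ∫⁻ y in cube d C0, ∫⁻ z in cube d C0,
      ∫⁻ P in Icc (-(K0 * R)) (K0 * R), ∫⁻ Q in Icc (-(K0 * R)) (K0 * R),
        ENNReal.ofReal (Real.exp (-(c * ((∑ b, (P * y b + Q * z b) ^ 2) +
          ∑ b, (A * (y b * z b)) ^ 2)))) ≤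
      ENNReal.ofReal (C * (1 + Real.log R) ^ d / R ^ (d - 1)) := by
  induction d, hd using Nat.le_induction with
  | base => exact hv4_base c C0 K0 hc hC0 hK0
  | succ d hd ih => exact hv4_step d hd c C0 K0 hc hC0 ih

end Pool.Agent.AEL
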